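import Mathlib
import Pool.Agent.T2H12.KF.CEnt

/-!
# Decoding the exponents of all primes: auxiliary lemmas (package FLAT)
-/

set_option autoImplicit false

namespace Pool.Agent.T2H12.KH.Fl

open Finset
open scoped Classical
open Pool.Agent.Y359.PE Pool.Agent.T2H12.KF

variable {α β γ : Type*}

/-- the number of elements times the conditional entropy -/
lemma ce_sum (S : Finset α) (z : α → β) (b : α → γ) : (S.card : ℝ) * ce S z b =
    ∑ x ∈ S, (Real.log (fc S z x) - Real.log (fc S (fun x => (z x, b x)) x)) := by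
  rcases S.eq_empty_or_nonempty with h0 | hS
  · subst h0
    simp
  have hc : (0 : ℝ) < S.card := by exact_mod_cast card_pos.2 hS
  unfold ce h
  rw [← sub_div, mul_div_cancel₀ _ hc.ne', ← sum_sub_distrib]
  refine sum_congr rfl fun x _ => ?_
  ring

lemma log_fc_nonneg (S : Finset α) (f : α → β) (x : α) : 0 ≤ Real.log (fc S f x) :=
  Real.log_natCast_nonneg _

/-- conditional entropies of a subset -/
lemma ce_sub {W W' : Finset α} (hs : W' ⊆ W) (g : α → β) (s : α → γ) :
    (W'.card : ℝ) * ce W' g s ≤ W.card * ce W g s := by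
  rw [ce_sum W g s]
  have hlog : ∀ x ∈ W, -Real.log ((fc W (fun x => (g x, s x)) x : ℝ) / fc W g x) =
      Real.log (fc W g x) - Real.log (fc W (fun x => (g x, s x)) x) := by
    intro x hx
    rw [Real.log_div (fc_posR hx).ne' (fc_posR hx).ne']
    ring
  have hsub : ∀ x, fc W (fun x => (g x, s x)) x ≤ fc W g x := by
    intro x
    refine card_le_card fun y hy => ?_
    rw [mem_cl, Prod.mk.injEq] at hy
    exact mem_cl.2 ⟨hy.1, hy.2.1⟩
  have h1 := ce_le_kernel W' g s (fun x => (fc W (fun x => (g x, s x)) x : ℝ) / fc W g x)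
    (fun x hx => div_pos (fc_posR (hs hx)) (fc_posR (hs hx)))
    (fun x _ y _ h1 h2 => by
      show (fc W (fun x => (g x, s x)) x : ℝ) / fc W g x = fc W (fun x => (g x, s x)) y / fc W g y
      rw [fc_congr (f := g) h1, fc_congr (f := fun x => (g x, s x)) (x := x) (y := y)
        (by rw [Prod.mk.injEq]; exact ⟨h1, h2⟩)])
    (W.image s)
    (fun t c => ((W.filter fun y => g y = t ∧ s y = c).card : ℝ) / (W.filter fun y => g y = t).card)
    (fun t c => by positivity) (fun x hx => mem_image_of_mem s (hs hx))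
    (fun x hx => by
      have e1 : cl W (fun x => (g x, s x)) x = W.filter fun y => g y = g x ∧ s y = s x := by
        ext y
        rw [mem_cl, mem_filter, Prod.mk.injEq]
      show ((cl W (fun x => (g x, s x)) x).card : ℝ) / (cl W g x).card = _
      rw [e1]
      rfl)
    (fun t => by
      rw [← sum_div]
      have e1 : ∑ c ∈ W.image s, ((W.filter fun y => g y = t ∧ s y = c).card : ℝ) =
          (W.filter fun y => g y = t).card := by
        have e2 := card_eq_sum_card_fiberwise (f := s) (s := W.filter fun y => g y = t)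
          (t := W.image s) (fun x hx => by
            simp only [coe_filter, Set.mem_ofPred_eq] at hx
            exact mem_coe.2 (mem_image_of_mem s hx.1))
        rw [e2]
        push_cast
        refine sum_congr rfl fun c _ => ?_
        rw [filter_filter]
      rw [e1]
      exact div_self_le_one _)
  refine h1.trans ?_
  rw [sum_congr rfl fun x hx => hlog x (hs hx)]
  refine sum_le_sum_of_subset_of_nonneg hs fun x hx _ => ?_
  have h2 : (fc W (fun x => (g x, s x)) x : ℝ) ≤ fc W g x := by exact_mod_cast hsub x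
  have h3 := Real.log_le_log (fc_posR hx) h2
  linarith

/-- geometric weights -/
lemma ce_geo (S : Finset α) (z : α → β) (n : α → ℕ) {ρ : ℝ} (h0 : 0 < ρ) (h1 : ρ ≤ 1 / 2) :
    (S.card : ℝ) * ce S z n ≤ ∑ x ∈ S, (2 * ρ + n x * Real.log (1 / ρ)) := by
  have hρ : 0 < 1 - ρ := by linarith
  have h2 := ce_le_kernel S z n (fun x => (1 - ρ) * ρ ^ n x) (fun x _ => by positivity)
    (fun x _ y _ _ h2 => by
      show (1 - ρ) * ρ ^ n x = (1 - ρ) * ρ ^ n y
      rw [h2]) (S.image n) (fun _ c => (1 - ρ) * ρ ^ c) (fun _ c => by positivity)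
    (fun x hx => mem_image_of_mem n hx) (fun x _ => rfl) (fun _ => by
      have e1 : S.image n ⊆ range ((S.image n).sup id + 1) := fun c hc => by
        have := le_sup (f := id) hc
        exact mem_range.2 (Nat.lt_succ_of_le this)
      calc ∑ c ∈ S.image n, (1 - ρ) * ρ ^ c ≤
            ∑ c ∈ range ((S.image n).sup id + 1), (1 - ρ) * ρ ^ c :=
            sum_le_sum_of_subset_of_nonneg e1 fun c _ _ => by positivity
        _ = 1 - ρ ^ ((S.image n).sup id + 1) := by
            rw [← mul_sum, mul_neg_geom_sum]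
        _ ≤ 1 := by
            have : 0 < ρ ^ ((S.image n).sup id + 1) := by positivity
            linarith)
  refine h2.trans (sum_le_sum fun x _ => ?_)
  rw [Real.log_mul hρ.ne' (by positivity), Real.log_pow, one_div, Real.log_inv]
  have h3 : -Real.log (1 - ρ) ≤ 2 * ρ := by
    have h4 := Real.one_sub_inv_le_log_of_pos hρ
    have h5 : (1 - ρ)⁻¹ ≤ 1 + 2 * ρ := by
      rw [inv_le_iff_one_le_mul₀ hρ]
      nlinarith
    linarith
  linarith

/-- counting in classes -/
lemma cells_le (Y : Finset α) (f : α → β) (p : α → Prop) [DecidablePred p] {a : ℝ}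
    (hp : ∀ y ∈ Y, (((cl Y f y).filter p).card : ℝ) ≤ a * (cl Y f y).card) :
    ((Y.filter p).card : ℝ) ≤ a * Y.card := by
  have h1 := avg_cl Y f fun y => if p y then (1 : ℝ) else 0
  have h2 : ∑ y ∈ Y, (if p y then (1 : ℝ) else 0) = (Y.filter p).card := by
    rw [← sum_filter, sum_const, nsmul_eq_mul, mul_one]
  rw [← h2, ← h1]
  have h3 : ∀ y ∈ Y, (∑ z ∈ cl Y f y, if p z then (1 : ℝ) else 0) / fc Y f y ≤ a := by
    intro y hy
    rw [div_le_iff₀ (fc_posR hy), ← sum_filter, sum_const, nsmul_eq_mul, mul_one]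
    exact hp y hy
  refine (sum_le_sum h3).trans (le_of_eq ?_)
  rw [sum_const, nsmul_eq_mul, mul_comm]

/-- counting in cells which are given as sets -/
lemma cells_le' (Y : Finset α) (Sc : α → Finset α) (p : α → Prop) [DecidablePred p] {a : ℝ}
    (h1 : ∀ y ∈ Y, y ∈ Sc y ∧ Sc y ⊆ Y) (h2 : ∀ y ∈ Y, ∀ z ∈ Sc y, Sc z = Sc y)
    (hp : ∀ y ∈ Y, (((Sc y).filter p).card : ℝ) ≤ a * (Sc y).card) :
    ((Y.filter p).card : ℝ) ≤ a * Y.card := by
  refine cells_le Y Sc p fun y hy => ?_
  have h3 : cl Y Sc y = Sc y := by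
    ext u
    rw [mem_cl]
    constructor
    · rintro ⟨hu1, hu2⟩
      rw [← hu2]
      exact (h1 u hu1).1
    · intro hu
      exact ⟨(h1 y hy).2 hu, h2 y hy u hu⟩
  rw [h3]
  exact hp y hy

/-- cardinalities of filters -/
lemma cfe (S : Finset α) (p q : α → Prop) {_ : DecidablePred p} {_ : DecidablePred q}
    (h : ∀ x ∈ S, (p x ↔ q x)) : (S.filter p).card = (S.filter q).card := by
  refine le_antisymm (card_le_card fun x hx => ?_) (card_le_card fun x hx => ?_)
  · rw [mem_filter] at hx ⊢
    exact ⟨hx.1, (h x hx.1).1 hx.2⟩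
  · rw [mem_filter] at hx ⊢
    exact ⟨hx.1, (h x hx.1).2 hx.2⟩

end Pool.Agent.T2H12.KH.Fl
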