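import Mathlib
import Pool.Agent.T2H12.KH.FlatA

/-!
# Decoding the exponents of all primes: one step (package FLAT)
-/

set_option autoImplicit false

namespace Pool.Agent.T2H12.KH.Fl

open Finset
open scoped Classical
open Pool.Agent.Y359.PE Pool.Agent.T2H12.KF

/-- the conclusion of `opd` -/
def OPDp (δ lam al : ℝ) : Prop :=
    ∀ {α β γ : Type} (W Dl : Finset α) (v : α → ℕ) (l : ℕ) (G : ℕ → α → γ) (g : α → β),
      (∀ x ∈ W, v x ≤ l) →
      (∀ e e' : ℕ, e ≤ e' → ∀ x ∈ W, ∀ y ∈ W, G e' x = G e' y → G e x = G e y) →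
      (∀ e : ℕ, ∀ x ∈ W, ∀ y ∈ W, g x = g y → G e x = G e y) →
      (∀ x ∈ W, ((W.filter fun y =>
          (v y = v x ∧ G (l - v x) y = G (l - v x) x) ∧ y ∉ Dl).card : ℝ) ≤
        al * (W.filter fun y => v y = v x ∧ G (l - v x) y = G (l - v x) x).card) →
      (∀ x ∈ W, ((W.filter fun y =>
          (v y = v x ∧ G (l + 1 - v x) y = G (l + 1 - v x) x) ∧ y ∈ Dl).card : ℝ) ≤
        lam * (W.filter fun y => v y = v x ∧ G (l - v x) y = G (l - v x) x).card) →
      (W.card : ℝ) * ce W g v ≤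
        δ * (W.card * h W (fun x => (v x, G (l - v x) x)) + W.card)

/-- what is revealed by the first `j` primes -/
def sg (n v l : ℕ → ℤ → ℕ) (G : ℕ → ℕ → ℤ → ℤ) (j : ℕ) (x : ℤ) : ℕ → ℕ × ℕ × ℤ :=
  fun i => if i < j then (n i x, v i x, G i (l i x - v i x) x) else 0

variable {n v l : ℕ → ℤ → ℕ} {G : ℕ → ℕ → ℤ → ℤ}

lemma sg_iff {j : ℕ} {x y : ℤ} : sg n v l G j x = sg n v l G j y ↔ ∀ i < j, n i x = n i y ∧
    v i x = v i y ∧ G i (l i x - v i x) x = G i (l i y - v i y) y := by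
  constructor
  · intro h1 i hi
    have h2 := congrFun h1 i
    simp only [sg, if_pos hi, Prod.mk.injEq] at h2
    exact h2
  · intro h1
    funext i
    by_cases hi : i < j
    · obtain ⟨a1, a2, a3⟩ := h1 i hi
      simp only [sg, if_pos hi]
      rw [a3, a1, a2]
    · simp only [sg, if_neg hi]

lemma sg_succ {j : ℕ} {x y : ℤ} : sg n v l G (j + 1) x = sg n v l G (j + 1) y ↔
    sg n v l G j x = sg n v l G j y ∧ n j x = n j y ∧
    v j x = v j y ∧ G j (l j x - v j x) x = G j (l j y - v j y) y := by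
  rw [sg_iff, sg_iff]
  constructor
  · intro h1
    exact ⟨fun i hi => h1 i (by omega), h1 j (by omega)⟩
  · rintro ⟨h1, h2⟩ i hi
    rcases Nat.lt_succ_iff_lt_or_eq.1 hi with h3 | rfl
    · exact h1 i h3
    · exact h2

/-- the exponents of one prime -/
lemma step4 {δ lam al : ℝ} (hδ : 0 < δ) (hlam : 0 < lam) (opd : OPDp δ lam al) (j : ℕ) (W' : Finset ℤ)
    (Sc : ℤ → Finset ℤ) (g : ℤ → ℤ)
    (hg : ∀ e x y, g x = g y → G j e x = G j e y)
    (hG : ∀ e e' x y, e ≤ e' → G j e' x = G j e' y → G j e x = G j e y)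
    (hS1 : ∀ x ∈ W', x ∈ Sc x ∧ Sc x ⊆ W')
    (hS2 : ∀ x ∈ W', ∀ y ∈ Sc x, Sc y = Sc x)
    (hS3 : ∀ x ∈ W', ∀ y ∈ Sc x, ∀ i ≤ j, n i y = n i x ∧ v i y = v i x ∧
        l i y = l i x ∧ G i (l i x - v i x) y = G i (l i x - v i x) x)
    (hl : ∀ x ∈ W', ∀ y ∈ W', (∀ i ≤ j, n i x = n i y) → l j x = l j y)
    (hv : ∀ x ∈ W', v j x ≤ l j x)
    (hheavy : ∀ x ∈ W', (((Sc x).filter fun y =>
          lam * (Sc x).card ≤ fc (Sc x) (G j (l j x + 1 - v j x)) y).card : ℝ) ≤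
        al * (Sc x).card) :
    (W'.card : ℝ) * ce W' (fun x => ((sg n v l G j x, n j x), g x)) (v j) ≤
      δ * (∑ x ∈ W', (Real.log (fc W' (fun x => (sg n v l G j x, n j x)) x) -
        Real.log (fc W' (sg n v l G (j + 1)) x)) + W'.card) := by
  set r : ℤ → (ℕ → ℕ × ℕ × ℤ) × ℕ := fun x => (sg n v l G j x, n j x) with hr
  have hrl : ∀ x ∈ W', ∀ y ∈ W', r x = r y → l j x = l j y := by
    intro x hx y hy hxy
    refine hl x hx y hy fun i hi => ?_
    rw [hr] at hxy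
    obtain ⟨h1, h2⟩ := Prod.mk.inj hxy
    rcases hi.lt_or_eq with h3 | rfl
    · exact (sg_iff.1 h1 i h3).1
    · exact h2
  have hcell : ∀ x ∈ W', ∀ y ∈ Sc x, r y = r x := by
    intro x hx y hy
    rw [hr]
    show (sg n v l G j y, n j y) = (sg n v l G j x, n j x)
    rw [Prod.mk.injEq, sg_iff]
    refine ⟨fun i hi => ?_, (hS3 x hx y hy j le_rfl).1⟩
    obtain ⟨a1, a2, a3, a4⟩ := hS3 x hx y hy i hi.le
    exact ⟨a1, a2, by rw [a2, a3, a4]⟩
  have e1 := ce_avg W' r g (v j)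
  have e2 : ∀ x ∈ W', ce (cl W' r x) g (v j) ≤
      δ * (h (cl W' r x) (fun y => (v j y, G j (l j y - v j y) y)) + 1) := by
    intro x hx
    set Z := cl W' r x with hZ
    have hxZ : x ∈ Z := mem_cl.2 ⟨hx, rfl⟩
    have hZc : (0 : ℝ) < Z.card := by exact_mod_cast card_pos.2 ⟨x, hxZ⟩
    have hZW : ∀ y ∈ Z, y ∈ W' := fun y hy => (mem_cl.1 hy).1
    have hlZ : ∀ y ∈ Z, l j y = l j x := fun y hy =>
      hrl y (hZW y hy) x hx (mem_cl.1 hy).2
    have hcZ : ∀ y ∈ Z, ∀ z ∈ Sc y, z ∈ Z := fun y hy z hz =>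
      mem_cl.2 ⟨(hS1 y (hZW y hy)).2 hz, (hcell y (hZW y hy) z hz).trans (mem_cl.1 hy).2⟩
    set l0 := l j x with hl0
    set Dl : Finset ℤ := W'.filter fun y =>
      ¬ (lam * (Sc y).card ≤ fc (Sc y) (G j (l j y + 1 - v j y)) y) with hDl
    -- the classes
    have hY : ∀ z ∈ Z, ∀ y ∈ Z.filter (fun y => v j y = v j z ∧
        G j (l0 - v j z) y = G j (l0 - v j z) z), y ∈ Sc y ∧ Sc y ⊆ Z.filter (fun y =>
          v j y = v j z ∧ G j (l0 - v j z) y = G j (l0 - v j z) z) := by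
      intro z hz y hy
      rw [mem_filter] at hy
      obtain ⟨hyZ, hyv, hyG⟩ := hy
      refine ⟨(hS1 y (hZW y hyZ)).1, fun u hu => ?_⟩
      obtain ⟨a1, a2, a3, a4⟩ := hS3 y (hZW y hyZ) u hu j le_rfl
      rw [mem_filter]
      refine ⟨hcZ y hyZ u hu, a2.trans hyv, ?_⟩
      rw [hlZ y hyZ, hyv] at a4
      exact a4.trans hyG
    have hY2 : ∀ z ∈ Z, ∀ y ∈ Z.filter (fun y => v j y = v j z ∧
        G j (l0 - v j z) y = G j (l0 - v j z) z), ∀ u ∈ Sc y, Sc u = Sc y :=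
      fun z _ y hy => hS2 y (hZW y (mem_filter.1 hy).1)
    have hA : ∀ y ∈ W', (Sc y).filter (fun u => u ∉ Dl) ⊆ (Sc y).filter fun u =>
          lam * (Sc y).card ≤ fc (Sc y) (G j (l j y + 1 - v j y)) u := by
      intro y hyW u hu
      rw [mem_filter] at hu ⊢
      obtain ⟨hu1, hu2⟩ := hu
      refine ⟨hu1, ?_⟩
      rw [hDl, mem_filter, not_and, not_not] at hu2
      have h4 := hu2 ((hS1 y hyW).2 hu1)
      obtain ⟨a1, a2, a3, -⟩ := hS3 y hyW u hu1 j le_rfl
      rwa [hS2 y hyW u hu1, a2, a3] at h4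
    have hC : ∀ z ∈ Z, ∀ y ∈ Z, v j y = v j z → (((Sc y).filter fun u =>
        G j (l0 + 1 - v j z) u = G j (l0 + 1 - v j z) z ∧ u ∈ Dl).card : ℝ) ≤
        lam * (Sc y).card := by
      intro z hz y hyZ hyv
      rcases ((Sc y).filter fun u => G j (l0 + 1 - v j z) u = G j (l0 + 1 - v j z) z ∧
        u ∈ Dl).eq_empty_or_nonempty with h4 | ⟨u, hu⟩
      · rw [h4, card_empty, Nat.cast_zero]
        positivity
      · rw [mem_filter, hDl, mem_filter] at hu
        obtain ⟨hu1, hu2, hu3, hu4⟩ := hu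
        obtain ⟨a1, a2, a3, -⟩ := hS3 y (hZW y hyZ) u hu1 j le_rfl
        rw [hS2 y (hZW y hyZ) u hu1, a2, a3, hlZ y hyZ, hyv] at hu4
        push Not at hu4
        refine le_trans (Nat.cast_le.2 (card_le_card ?_)) hu4.le
        intro w hw
        rw [mem_filter] at hw
        exact mem_cl.2 ⟨hw.1, hw.2.1.trans hu2.symm⟩
    have hmain := opd Z Dl (v j) l0 (G j) g
      (fun y hy => by
        have := hv y (hZW y hy)
        rwa [hlZ y hy] at this)
      (fun e e' he y _ z _ h1 => hG e e' y z he h1)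
      (fun e y _ z _ h1 => hg e y z h1)
      (fun z hz => by
        have key := cells_le' _ Sc (fun y => y ∉ Dl) (a := al) (hY z hz) (hY2 z hz) fun y hy => by
          rw [mem_filter] at hy
          obtain ⟨hyZ, hyv, hyG⟩ := hy
          refine le_trans ?_ (hheavy y (hZW y hyZ))
          exact Nat.cast_le.2 (card_le_card (hA y (hZW y hyZ)))
        rw [filter_filter] at key
        exact (le_of_eq (congrArg Nat.cast (cfe Z _ _ fun _ _ => Iff.rfl))).trans (key.trans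
          (le_of_eq (congrArg (fun k : ℕ => al * (k : ℝ)) (cfe Z _ _ fun _ _ => Iff.rfl)))))
      (fun z hz => by
        have key := cells_le' _ Sc (fun y => G j (l0 + 1 - v j z) y = G j (l0 + 1 - v j z) z ∧
            y ∈ Dl) (a := lam) (hY z hz) (hY2 z hz) fun y hy => by
          rw [mem_filter] at hy
          obtain ⟨hyZ, hyv, hyG⟩ := hy
          exact hC z hz y hyZ hyv
        rw [filter_filter] at key
        exact (le_of_eq (congrArg Nat.cast (cfe Z _ _ fun y _ => by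
          constructor
          · rintro ⟨⟨c1, c2⟩, c3⟩
            exact ⟨⟨c1, hG _ _ y z (by omega) c2⟩, c2, c3⟩
          · rintro ⟨⟨c1, -⟩, c2, c3⟩
            exact ⟨⟨c1, c2⟩, c3⟩))).trans (key.trans
          (le_of_eq (congrArg (fun k : ℕ => lam * (k : ℝ)) (cfe Z _ _ fun _ _ => Iff.rfl)))))
    have h5 : h Z (fun y => (v j y, G j (l0 - v j y) y)) =
        h Z (fun y => (v j y, G j (l j y - v j y) y)) := by
      refine h_congr fun y hy z hz => ?_
      rw [hlZ y hy, hlZ z hz]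
    rw [h5] at hmain
    have h6 : (Z.card : ℝ) * ce Z g (v j) ≤
        Z.card * (δ * (h Z (fun y => (v j y, G j (l j y - v j y) y)) + 1)) := by
      refine hmain.trans (le_of_eq ?_)
      ring
    exact le_of_mul_le_mul_left h6 hZc
  rw [e1]
  refine (sum_le_sum e2).trans ?_
  rw [← mul_sum, sum_add_distrib, sum_const, nsmul_eq_mul, mul_one]
  refine mul_le_mul_of_nonneg_left (add_le_add ?_ le_rfl) hδ.le
  have e3 := chain W' r (fun y => (v j y, G j (l j y - v j y) y))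
  rcases W'.eq_empty_or_nonempty with h0 | hW
  · rw [h0]
    simp
  have hc : (0 : ℝ) < W'.card := by exact_mod_cast card_pos.2 hW
  have e4 := ce_sum W' r (fun y => (v j y, G j (l j y - v j y) y))
  have e5 : ∑ x ∈ W', h (cl W' r x) (fun y => (v j y, G j (l j y - v j y) y)) =
      W'.card * ce W' r (fun y => (v j y, G j (l j y - v j y) y)) := by
    unfold ce
    rw [e3, mul_div_cancel₀ _ hc.ne']
  rw [e5, e4]
  refine le_of_eq (sum_congr rfl fun x hx => ?_)
  congr 3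
  unfold fc
  rw [cl_eq_of_iff (g := sg n v l G (j + 1)) (fun y _ z _ => ?_) hx]
  rw [sg_succ, hr]
  simp only [Prod.mk.injEq]
  tauto

end Pool.Agent.T2H12.KH.Fl
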