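import Mathlib

/-!
# The local inequality (package LOC)
-/

set_option autoImplicit false

namespace Pool.Agent.T2H12.KH

open Finset

/-- the entropy of a splitting (zero if one of the arguments is zero) -/
noncomputable def Fs (x y : ℝ) : ℝ := x * Real.log ((x + y) / x) + y * Real.log ((x + y) / y)

/-- one of the two terms of `Fs` -/
noncomputable def f1 (x y : ℝ) : ℝ := x * Real.log ((x + y) / x)

lemma Fs_eq (x y : ℝ) : Fs x y = f1 x y + f1 y x := by
  unfold Fs f1
  rw [add_comm y x]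

lemma Fs_symm (x y : ℝ) : Fs x y = Fs y x := by
  rw [Fs_eq, Fs_eq, add_comm]

lemma f1_zero_left (y : ℝ) : f1 0 y = 0 := by
  unfold f1; rw [zero_mul]

lemma f1_zero_right (x : ℝ) : f1 x 0 = 0 := by
  unfold f1
  by_cases hx : x = 0
  · rw [hx, zero_mul]
  · rw [add_zero, div_self hx, Real.log_one, mul_zero]

lemma f1_nonneg {x y : ℝ} (hx : 0 ≤ x) (hy : 0 ≤ y) : 0 ≤ f1 x y := by
  unfold f1
  rcases hx.eq_or_lt with h | h
  · rw [← h, zero_mul]
  · apply mul_nonneg hx
    apply Real.log_nonneg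
    rw [le_div_iff₀ h]
    linarith

lemma f1_le {x y : ℝ} (hx : 0 ≤ x) (hy : 0 ≤ y) : f1 x y ≤ y := by
  unfold f1
  rcases hx.eq_or_lt with h | h
  · rw [← h, zero_mul]; exact hy
  · have h1 : 0 < (x + y) / x := div_pos (by linarith) h
    have h2 := Real.log_le_sub_one_of_pos h1
    have h3 : x * Real.log ((x + y) / x) ≤ x * ((x + y) / x - 1) := mul_le_mul_of_nonneg_left h2 hx
    have h4 : x * ((x + y) / x - 1) = y := by
      field_simp
      ring
    linarith

lemma f1_mono_right {x y y' : ℝ} (hx : 0 ≤ x) (hy : 0 ≤ y) (h : y ≤ y') : f1 x y ≤ f1 x y' := by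
  unfold f1
  rcases hx.eq_or_lt with h0 | h0
  · rw [← h0, zero_mul, zero_mul]
  · apply mul_le_mul_of_nonneg_left _ hx
    apply Real.log_le_log (div_pos (by linarith) h0)
    gcongr

/-- superadditivity -/
lemma f1_super2 {x1 y1 x2 y2 : ℝ} (hx1 : 0 ≤ x1) (hy1 : 0 ≤ y1) (hx2 : 0 ≤ x2) (hy2 : 0 ≤ y2) :
    f1 x1 y1 + f1 x2 y2 ≤ f1 (x1 + x2) (y1 + y2) := by
  rcases hx1.eq_or_lt with h1 | h1
  · rw [← h1, f1_zero_left, zero_add, zero_add]
    exact f1_mono_right hx2 hy2 (by linarith)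
  rcases hx2.eq_or_lt with h2 | h2
  · rw [← h2, f1_zero_left, add_zero, add_zero]
    exact f1_mono_right hx1 hy1 (by linarith)
  -- tangent line: log u ≤ log v + (u / v - 1)
  have hS : 0 < x1 + x2 := by linarith
  have hT : 0 < x1 + x2 + (y1 + y2) := by linarith
  set v : ℝ := (x1 + x2 + (y1 + y2)) / (x1 + x2) with hv
  have hv0 : 0 < v := div_pos hT hS
  have key : ∀ x y : ℝ, 0 < x → 0 ≤ y → f1 x y ≤ x * Real.log v + ((x + y) / v - x) := by
    intro x y hx hy
    have hu : 0 < (x + y) / x := div_pos (by linarith) hx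
    have h3 : Real.log ((x + y) / x / v) ≤ (x + y) / x / v - 1 := Real.log_le_sub_one_of_pos (div_pos hu hv0)
    rw [Real.log_div hu.ne' hv0.ne'] at h3
    unfold f1
    have h4 : x * Real.log ((x + y) / x) ≤ x * (Real.log v + ((x + y) / x / v - 1)) :=
      mul_le_mul_of_nonneg_left (by linarith) hx.le
    have h5 : x * (Real.log v + ((x + y) / x / v - 1)) = x * Real.log v + ((x + y) / v - x) := by
      field_simp
    linarith
  have k1 := key x1 y1 h1 hy1
  have k2 := key x2 y2 h2 hy2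
  have h6 : (x1 + y1) / v + (x2 + y2) / v = x1 + x2 := by
    rw [← add_div, hv]
    have : x1 + y1 + (x2 + y2) = x1 + x2 + (y1 + y2) := by ring
    rw [this]
    field_simp
  have h7 : f1 (x1 + x2) (y1 + y2) = (x1 + x2) * Real.log v := by
    unfold f1; rw [hv]
  rw [h7]
  have h8 : (x1 + x2) * Real.log v = x1 * Real.log v + x2 * Real.log v := by ring
  linarith

lemma Fs_nonneg {x y : ℝ} (hx : 0 ≤ x) (hy : 0 ≤ y) : 0 ≤ Fs x y := by
  rw [Fs_eq]
  exact add_nonneg (f1_nonneg hx hy) (f1_nonneg hy hx)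

lemma Fs_zero_left (y : ℝ) : Fs 0 y = 0 := by
  rw [Fs_eq, f1_zero_left, f1_zero_right, add_zero]

lemma Fs_zero_right (x : ℝ) : Fs x 0 = 0 := by
  rw [Fs_symm, Fs_zero_left]

lemma Fs_super2 {x1 y1 x2 y2 : ℝ} (hx1 : 0 ≤ x1) (hy1 : 0 ≤ y1) (hx2 : 0 ≤ x2) (hy2 : 0 ≤ y2) :
    Fs x1 y1 + Fs x2 y2 ≤ Fs (x1 + x2) (y1 + y2) := by
  rw [Fs_eq, Fs_eq, Fs_eq]
  have h1 := f1_super2 hx1 hy1 hx2 hy2
  have h2 := f1_super2 hy1 hx1 hy2 hx2
  linarith

/-- superadditivity for finite sums (log-sum inequality) -/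
lemma Fs_super {ι : Type} (R : Finset ι) (x y : ι → ℝ) (hx : ∀ r ∈ R, 0 ≤ x r) (hy : ∀ r ∈ R, 0 ≤ y r) :
    ∑ r ∈ R, Fs (x r) (y r) ≤ Fs (∑ r ∈ R, x r) (∑ r ∈ R, y r) := by
  classical
  induction R using Finset.induction_on with
  | empty => simp [Fs_zero_left]
  | insert a s ha ih =>
    rw [Finset.sum_insert ha, Finset.sum_insert ha, Finset.sum_insert ha]
    have h1 := ih (fun r hr => hx r (Finset.mem_insert_of_mem hr)) (fun r hr => hy r (Finset.mem_insert_of_mem hr))
    have h2 := Fs_super2 (hx a (Finset.mem_insert_self a s)) (hy a (Finset.mem_insert_self a s))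
      (Finset.sum_nonneg fun r hr => hx r (Finset.mem_insert_of_mem hr))
      (Finset.sum_nonneg fun r hr => hy r (Finset.mem_insert_of_mem hr))
    linarith

lemma Fs_mono {x y x' y' : ℝ} (hx : 0 ≤ x) (hy : 0 ≤ y) (h1 : x ≤ x') (h2 : y ≤ y') : Fs x y ≤ Fs x' y' := by
  have h3 := Fs_super2 hx hy (sub_nonneg.mpr h1) (sub_nonneg.mpr h2)
  have h4 := Fs_nonneg (sub_nonneg.mpr h1) (sub_nonneg.mpr h2)
  have h5 : x + (x' - x) = x' := by ring
  have h6 : y + (y' - y) = y' := by ring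
  rw [h5, h6] at h3
  linarith

/-- subadditivity in the first variable -/
lemma Fs_sub {x x' y : ℝ} (hx : 0 ≤ x) (hx' : 0 ≤ x') (hy : 0 ≤ y) : Fs (x + x') y ≤ Fs x y + Fs x' y := by
  rcases hx.eq_or_lt with h1 | h1
  · rw [← h1, Fs_zero_left, zero_add, zero_add]
  rcases hx'.eq_or_lt with h2 | h2
  · rw [← h2, Fs_zero_left, add_zero, add_zero]
  rcases hy.eq_or_lt with h3 | h3
  · rw [← h3, Fs_zero_right, Fs_zero_right, Fs_zero_right, add_zero]
  unfold Fs
  have hS : 0 < x + x' := by linarith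
  have hT : 0 < x + x' + y := by linarith
  have a1 : Real.log ((x + x' + y) / (x + x')) ≤ Real.log ((x + y) / x) := by
    apply Real.log_le_log (div_pos hT hS)
    rw [div_le_div_iff₀ hS h1]
    nlinarith [mul_pos h2 h3]
  have a2 : Real.log ((x + x' + y) / (x + x')) ≤ Real.log ((x' + y) / x') := by
    apply Real.log_le_log (div_pos hT hS)
    rw [div_le_div_iff₀ hS h2]
    nlinarith [mul_pos h1 h3]
  have a3 : Real.log ((x + x' + y) / y) ≤ Real.log ((x + y) / y) + Real.log ((x' + y) / y) := by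
    rw [← Real.log_mul (div_pos (by linarith) h3).ne' (div_pos (by linarith) h3).ne']
    apply Real.log_le_log (div_pos hT h3)
    rw [div_mul_div_comm, div_le_div_iff₀ h3 (by positivity)]
    nlinarith [mul_pos (mul_pos h1 h2) h3]
  have b1 := mul_le_mul_of_nonneg_left a1 hx
  have b2 := mul_le_mul_of_nonneg_left a2 hx'
  have b3 := mul_le_mul_of_nonneg_left a3 hy
  nlinarith

/-- `1 + log y ≤ 2 √y` in the form with a square -/
lemma one_add_log_sq {w : ℝ} (hw : 0 < w) : 1 + Real.log (w ^ 2) ≤ 2 * w := by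
  rw [Real.log_pow]
  have := Real.log_le_sub_one_of_pos hw
  push_cast
  linarith

/-- the value at `(t² A, B)` -/
lemma Fs_scale {t A B : ℝ} (ht : 0 < t) (ht1 : t ≤ 1) (hA : 0 ≤ A) (hB : 0 ≤ B) :
    Fs (t ^ 2 * A) B ≤ 2 * t * A + t ^ 2 * Fs A B := by
  rcases hA.eq_or_lt with h1 | h1
  · rw [← h1, mul_zero, mul_zero, Fs_zero_left, mul_zero, add_zero]
  have ht2 : 0 < t ^ 2 := by positivity
  have ht21 : t ^ 2 ≤ 1 := by nlinarith
  have hcA : 0 < t ^ 2 * A := mul_pos ht2 h1
  rw [Fs_eq]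
  have h2 : f1 B (t ^ 2 * A) ≤ t ^ 2 * A := f1_le hB hcA.le
  have h3 : f1 (t ^ 2 * A) B ≤ t ^ 2 * A * (Real.log (t⁻¹ ^ 2) + Real.log ((A + B) / A)) := by
    unfold f1
    apply mul_le_mul_of_nonneg_left _ hcA.le
    rw [← Real.log_mul (by positivity) (div_pos (by linarith) h1).ne']
    apply Real.log_le_log (div_pos (by linarith) hcA)
    rw [inv_pow, ← one_div, div_mul_div_comm, one_mul]
    gcongr
    nlinarith
  have h4 : 1 + Real.log (t⁻¹ ^ 2) ≤ 2 * t⁻¹ := one_add_log_sq (inv_pos.mpr ht)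
  have h5 : t ^ 2 * A * (1 + Real.log (t⁻¹ ^ 2)) ≤ t ^ 2 * A * (2 * t⁻¹) := mul_le_mul_of_nonneg_left h4 hcA.le
  have h6 : t ^ 2 * A * (2 * t⁻¹) = 2 * t * A := by
    field_simp
  have h7 : t ^ 2 * A * Real.log ((A + B) / A) = t ^ 2 * f1 A B := by
    unfold f1; ring
  have h8 : t ^ 2 * f1 A B ≤ t ^ 2 * Fs A B := by
    apply mul_le_mul_of_nonneg_left _ ht2.le
    rw [Fs_eq]
    linarith [f1_nonneg hB hA]
  nlinarith

/-- **The local inequality.** -/
theorem loc {δ : ℝ} (hδ : 0 < δ) : ∃ lam al : ℝ, 0 < lam ∧ lam ≤ 1 ∧ 0 < al ∧ al ≤ 1 ∧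
    ∀ {ι : Type} (R : Finset ι) (xl xh b : ι → ℝ), (∀ r ∈ R, 0 ≤ xl r) → (∀ r ∈ R, 0 ≤ xh r) →
      (∀ r ∈ R, 0 ≤ b r) → (∀ r ∈ R, xl r ≤ lam * ∑ r ∈ R, (xl r + xh r)) →
      ∑ r ∈ R, xh r ≤ al * ∑ r ∈ R, (xl r + xh r) →
      ∑ r ∈ R, Fs (xl r + xh r) (b r) ≤
        δ * (∑ r ∈ R, b r * Real.log ((∑ r ∈ R, b r) / b r) +
          Fs (∑ r ∈ R, (xl r + xh r)) (∑ r ∈ R, b r) + ∑ r ∈ R, (xl r + xh r)) := by
  -- the parameters
  set L : ℝ := (4 / δ) * (64 / δ ^ 2 + 4) with hL
  have hδ2 : 0 < δ ^ 2 := by positivity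
  have h64 : 0 < 64 / δ ^ 2 := by positivity
  have h4δ : 0 < 4 / δ := by positivity
  have hL0 : 0 < L := by positivity
  have hL1 : δ / 4 * L = 64 / δ ^ 2 + 4 := by
    rw [hL]; field_simp
  have hLi : 1 / L ≤ δ / 4 := by
    rw [div_le_iff₀ hL0, hL1]
    linarith
  set t : ℝ := Real.exp (-(L / 2)) with ht
  have ht0 : 0 < t := Real.exp_pos _
  have ht1 : t ≤ 1 := by
    rw [ht]; apply Real.exp_le_one_iff.mpr; linarith
  have ht8 : t ≤ δ / 8 := by
    have h1 : 1 + L / 2 ≤ Real.exp (L / 2) := by linarith [Real.add_one_le_exp (L / 2)]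
    have h2 : t * Real.exp (L / 2) = 1 := by
      rw [ht, ← Real.exp_add, neg_add_cancel, Real.exp_zero]
    have h3 : t * (1 + L / 2) ≤ 1 := by
      calc t * (1 + L / 2) ≤ t * Real.exp (L / 2) := mul_le_mul_of_nonneg_left h1 ht0.le
        _ = 1 := h2
    have h4 : t * (δ / 4 * L) ≤ δ / 2 := by
      have : t * (δ / 4 * L) = (δ / 2) * (t * (L / 2)) := by ring
      rw [this]
      have h5 : t * (L / 2) ≤ 1 := by nlinarith
      nlinarith
    rw [hL1] at h4
    nlinarith
  have ht2e : t ^ 2 = Real.exp (-L) := by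
    rw [ht, ← Real.exp_nat_mul]
    congr 1
    push_cast
    ring
  refine ⟨t ^ 4, t ^ 2, by positivity, pow_le_one₀ ht0.le ht1, by positivity, pow_le_one₀ ht0.le ht1, ?_⟩
  intro ι R xl xh b hxl hxh hb hlam hal
  classical
  set A : ℝ := ∑ r ∈ R, (xl r + xh r) with hA
  set B : ℝ := ∑ r ∈ R, b r with hB
  have hA0 : 0 ≤ A := Finset.sum_nonneg fun r hr => add_nonneg (hxl r hr) (hxh r hr)
  have hB0 : 0 ≤ B := Finset.sum_nonneg hb
  have hbB : ∀ r ∈ R, b r ≤ B := fun r hr => Finset.single_le_sum hb hr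
  have hβ0 : ∀ r ∈ R, 0 ≤ b r * Real.log (B / b r) := by
    intro r hr
    rcases (hb r hr).eq_or_lt with h | h
    · rw [← h, zero_mul]
    · apply mul_nonneg (hb r hr)
      apply Real.log_nonneg
      rw [le_div_iff₀ h, one_mul]
      exact hbB r hr
  -- small and big
  set sm : Finset ι := R.filter fun r => b r ≤ t ^ 2 * B with hsm
  set bg : Finset ι := R.filter fun r => ¬ b r ≤ t ^ 2 * B with hbg
  have hsplit : ∑ r ∈ R, Fs (xl r + xh r) (b r) =
      ∑ r ∈ sm, Fs (xl r + xh r) (b r) + ∑ r ∈ bg, Fs (xl r + xh r) (b r) := by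
    rw [hsm, hbg, Finset.sum_filter_add_sum_filter_not]
  have hsmR : sm ⊆ R := Finset.filter_subset _ _
  have hbgR : bg ⊆ R := Finset.filter_subset _ _
  -- the small ones
  have hsmall : ∀ r ∈ sm, Fs (xl r + xh r) (b r) ≤
      δ / 2 * (b r * Real.log (B / b r)) + δ / 2 * (xl r + xh r) := by
    intro r hr
    have hrR := hsmR hr
    have hrs : b r ≤ t ^ 2 * B := (Finset.mem_filter.mp hr).2
    have hx0 : 0 ≤ xl r + xh r := add_nonneg (hxl r hrR) (hxh r hrR)
    rcases (hb r hrR).eq_or_lt with h | h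
    · rw [← h, Fs_zero_right, zero_mul, mul_zero, zero_add]
      positivity
    · set x : ℝ := xl r + xh r with hx
      have hBpos : 0 < B := lt_of_lt_of_le h (hbB r hrR)
      have hlog : L ≤ Real.log (B / b r) := by
        have h1 : Real.exp L ≤ B / b r := by
          rw [le_div_iff₀ h]
          have h2 : Real.exp L * b r ≤ Real.exp L * (t ^ 2 * B) := mul_le_mul_of_nonneg_left hrs (Real.exp_pos _).le
          have h3 : Real.exp L * (t ^ 2 * B) = B := by
            rw [ht2e, ← mul_assoc, ← Real.exp_add, add_neg_cancel, Real.exp_zero, one_mul]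
          linarith
        calc L = Real.log (Real.exp L) := (Real.log_exp L).symm
          _ ≤ Real.log (B / b r) := Real.log_le_log (Real.exp_pos _) h1
      have hF : Fs x (b r) ≤ b r + b r * Real.log ((b r + x) / b r) := by
        rw [Fs_eq]
        have h1 : f1 x (b r) ≤ b r := f1_le hx0 h.le
        have h2 : f1 (b r) x = b r * Real.log ((b r + x) / b r) := rfl
        linarith
      have hy1 : 1 ≤ (b r + x) / b r := by
        rw [le_div_iff₀ h]; linarith
      by_cases hc : Real.log ((b r + x) / b r) ≤ δ / 4 * L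
      · have h1 : b r ≤ δ / 4 * (b r * Real.log (B / b r)) := by
          have h2 : 1 ≤ δ / 4 * Real.log (B / b r) := by
            have h3 : δ / 4 * L ≤ δ / 4 * Real.log (B / b r) := mul_le_mul_of_nonneg_left hlog (by positivity)
            rw [hL1] at h3
            linarith
          calc b r = b r * 1 := (mul_one _).symm
            _ ≤ b r * (δ / 4 * Real.log (B / b r)) := mul_le_mul_of_nonneg_left h2 h.le
            _ = δ / 4 * (b r * Real.log (B / b r)) := by ring
        have h2 : b r * Real.log ((b r + x) / b r) ≤ δ / 4 * (b r * Real.log (B / b r)) := by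
          have h3 : Real.log ((b r + x) / b r) ≤ δ / 4 * Real.log (B / b r) :=
            hc.trans (mul_le_mul_of_nonneg_left hlog (by positivity))
          calc b r * Real.log ((b r + x) / b r) ≤ b r * (δ / 4 * Real.log (B / b r)) :=
              mul_le_mul_of_nonneg_left h3 h.le
            _ = δ / 4 * (b r * Real.log (B / b r)) := by ring
        have h3 : 0 ≤ δ / 2 * x := by positivity
        linarith
      · push Not at hc
        -- y = (b + x) / b is large
        set y : ℝ := (b r + x) / b r with hy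
        have hy0 : 0 < y := by linarith
        set w : ℝ := Real.sqrt y with hw
        have hw0 : 0 < w := Real.sqrt_pos.mpr hy0
        have hw2 : w ^ 2 = y := Real.sq_sqrt hy0.le
        have hyl : 64 / δ ^ 2 + 4 < Real.log y := by rw [← hL1]; exact hc
        have hyb : 64 / δ ^ 2 + 4 < y := by
          have := Real.log_le_sub_one_of_pos hy0
          linarith
        have h1 : 1 + Real.log y ≤ 2 * w := by
          rw [← hw2]
          exact one_add_log_sq hw0
        have h2 : 8 / δ ≤ w := by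
          apply le_of_sq_le_sq _ hw0.le
          rw [hw2, div_pow]
          norm_num
          linarith
        have h3 : 2 * w ≤ δ / 4 * y := by
          rw [← hw2]
          have h4 : 8 ≤ w * δ := by
            rwa [div_le_iff₀ hδ] at h2
          nlinarith
        have h4 : b r * (1 + Real.log y) ≤ b r * (δ / 4 * y) :=
          mul_le_mul_of_nonneg_left (h1.trans h3) h.le
        have h5 : b r * y = b r + x := by
          rw [hy]; field_simp
        have h6 : b r ≤ x := by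
          have : b r * 2 ≤ b r * y := mul_le_mul_of_nonneg_left (by linarith) h.le
          linarith
        have h7 : b r * (δ / 4 * y) = δ / 4 * (b r + x) := by
          rw [← h5]; ring
        have h8 : δ / 4 * (b r + x) ≤ δ / 2 * x := by
          calc δ / 4 * (b r + x) ≤ δ / 4 * (x + x) := mul_le_mul_of_nonneg_left (by linarith) (by positivity)
            _ = δ / 2 * x := by ring
        have h9 : 0 ≤ δ / 2 * (b r * Real.log (B / b r)) := mul_nonneg (by positivity) (hβ0 r hrR)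
        have h10 : b r * (1 + Real.log y) = b r + b r * Real.log y := by ring
        linarith
  have hsmallsum : ∑ r ∈ sm, Fs (xl r + xh r) (b r) ≤
      δ / 2 * (∑ r ∈ R, b r * Real.log (B / b r)) + δ / 2 * A := by
    calc ∑ r ∈ sm, Fs (xl r + xh r) (b r) ≤
        ∑ r ∈ sm, (δ / 2 * (b r * Real.log (B / b r)) + δ / 2 * (xl r + xh r)) := Finset.sum_le_sum hsmall
      _ ≤ ∑ r ∈ R, (δ / 2 * (b r * Real.log (B / b r)) + δ / 2 * (xl r + xh r)) := by
          apply Finset.sum_le_sum_of_subset_of_nonneg hsmR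
          intro r hr _
          have h1 := hβ0 r hr
          have h2 := hxl r hr
          have h3 := hxh r hr
          positivity
      _ = δ / 2 * (∑ r ∈ R, b r * Real.log (B / b r)) + δ / 2 * A := by
          rw [Finset.sum_add_distrib, Finset.mul_sum, hA, Finset.mul_sum]
  -- the big ones
  have hcard : (bg.card : ℝ) * (t ^ 2 * B) ≤ B := by
    calc (bg.card : ℝ) * (t ^ 2 * B) = ∑ _r ∈ bg, t ^ 2 * B := by rw [Finset.sum_const, nsmul_eq_mul]
      _ ≤ ∑ r ∈ bg, b r := by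
          apply Finset.sum_le_sum
          intro r hr
          have := (Finset.mem_filter.mp hr).2
          push Not at this
          exact this.le
      _ ≤ ∑ r ∈ R, b r := Finset.sum_le_sum_of_subset_of_nonneg hbgR fun r hr _ => hb r hr
      _ = B := hB.symm
  have hbigxl : ∑ r ∈ bg, xl r ≤ t ^ 2 * A ∨ B = 0 := by
    rcases hB0.eq_or_lt with h | h
    · exact Or.inr h.symm
    · left
      have h1 : (bg.card : ℝ) * t ^ 2 ≤ 1 := by
        have h2 : (bg.card : ℝ) * t ^ 2 * B ≤ 1 * B := by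
          rw [one_mul, mul_assoc]; exact hcard
        exact le_of_mul_le_mul_right h2 h
      calc ∑ r ∈ bg, xl r ≤ ∑ _r ∈ bg, t ^ 4 * A := Finset.sum_le_sum fun r hr => hlam r (hbgR hr)
        _ = ((bg.card : ℝ) * t ^ 2) * (t ^ 2 * A) := by
            rw [Finset.sum_const, nsmul_eq_mul]; ring
        _ ≤ 1 * (t ^ 2 * A) := mul_le_mul_of_nonneg_right h1 (by positivity)
        _ = t ^ 2 * A := one_mul _
  have hbigxh : ∑ r ∈ bg, xh r ≤ t ^ 2 * A :=
    (Finset.sum_le_sum_of_subset_of_nonneg hbgR fun r hr _ => hxh r hr).trans hal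
  have hbigb : ∑ r ∈ bg, b r ≤ B := Finset.sum_le_sum_of_subset_of_nonneg hbgR fun r hr _ => hb r hr
  have hbig : ∑ r ∈ bg, Fs (xl r + xh r) (b r) ≤ 2 * (2 * t * A + t ^ 2 * Fs A B) := by
    rcases hbigxl with hbigxl | hB00
    · have h1 : ∑ r ∈ bg, Fs (xl r + xh r) (b r) ≤ ∑ r ∈ bg, Fs (xl r) (b r) + ∑ r ∈ bg, Fs (xh r) (b r) := by
        rw [← Finset.sum_add_distrib]
        exact Finset.sum_le_sum fun r hr => Fs_sub (hxl r (hbgR hr)) (hxh r (hbgR hr)) (hb r (hbgR hr))
      have h2 : ∑ r ∈ bg, Fs (xl r) (b r) ≤ Fs (t ^ 2 * A) B := by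
        refine (Fs_super bg xl b (fun r hr => hxl r (hbgR hr)) fun r hr => hb r (hbgR hr)).trans ?_
        exact Fs_mono (Finset.sum_nonneg fun r hr => hxl r (hbgR hr))
          (Finset.sum_nonneg fun r hr => hb r (hbgR hr)) hbigxl hbigb
      have h3 : ∑ r ∈ bg, Fs (xh r) (b r) ≤ Fs (t ^ 2 * A) B := by
        refine (Fs_super bg xh b (fun r hr => hxh r (hbgR hr)) fun r hr => hb r (hbgR hr)).trans ?_
        exact Fs_mono (Finset.sum_nonneg fun r hr => hxh r (hbgR hr))
          (Finset.sum_nonneg fun r hr => hb r (hbgR hr)) hbigxh hbigb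
      have h4 := Fs_scale ht0 ht1 hA0 hB0
      linarith
    · have h1 : ∀ r ∈ bg, Fs (xl r + xh r) (b r) = 0 := by
        intro r hr
        have h2 := hbB r (hbgR hr)
        have h3 := hb r (hbgR hr)
        have h4 : b r = 0 := by linarith
        rw [h4, Fs_zero_right]
      rw [Finset.sum_congr rfl h1, Finset.sum_const_zero]
      have := Fs_nonneg hA0 hB0
      positivity
  have hF0 := Fs_nonneg hA0 hB0
  have hS0 : 0 ≤ ∑ r ∈ R, b r * Real.log (B / b r) := Finset.sum_nonneg hβ0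
  have e1 : 2 * (2 * t * A) ≤ δ / 2 * A := by
    have h1 : 4 * t ≤ δ / 2 := by linarith
    calc 2 * (2 * t * A) = 4 * t * A := by ring
      _ ≤ δ / 2 * A := mul_le_mul_of_nonneg_right h1 hA0
  have e2 : 2 * (t ^ 2 * Fs A B) ≤ δ / 2 * Fs A B := by
    have h1 : t ^ 2 ≤ t := by nlinarith
    have h2 : 2 * t ^ 2 ≤ δ / 2 := by linarith
    calc 2 * (t ^ 2 * Fs A B) = 2 * t ^ 2 * Fs A B := by ring
      _ ≤ δ / 2 * Fs A B := mul_le_mul_of_nonneg_right h2 hF0
  rw [hsplit]
  have e3 : 0 ≤ δ / 2 * (∑ r ∈ R, b r * Real.log (B / b r)) := mul_nonneg (by positivity) hS0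
  have e4 : 0 ≤ δ / 2 * Fs A B := mul_nonneg (by positivity) hF0
  have e5 : δ * (∑ r ∈ R, b r * Real.log (B / b r) + Fs A B + A) =
      δ / 2 * (∑ r ∈ R, b r * Real.log (B / b r)) + δ / 2 * (∑ r ∈ R, b r * Real.log (B / b r)) +
        (δ / 2 * Fs A B + δ / 2 * Fs A B) + (δ / 2 * A + δ / 2 * A) := by ring
  rw [e5]
  linarith

end Pool.Agent.T2H12.KH
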