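import Mathlib
import Pool.Agent.T2H12.KF.CEnt
import Pool.Agent.T2H12.KH.Loc

/-!
# Decoding the exponent of one prime (package OPD)
-/

set_option autoImplicit false

namespace Pool.Agent.T2H12.KH

open Finset
open scoped Classical
open Pool.Agent.Y359.PE Pool.Agent.T2H12.KF

namespace OpdAux

section gen

variable {α β γ : Type*}

lemma card_mul_ce (S : Finset α) (f : α → β) (g : α → γ) :
    (S.card : ℝ) * ce S f g = ∑ x ∈ S, (Real.log (fc S f x) -
      Real.log (fc S (fun x => (f x, g x)) x)) := by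
  rcases S.eq_empty_or_nonempty with h0 | hS
  · subst h0
    simp
  have hc : (0 : ℝ) < S.card := by exact_mod_cast card_pos.2 hS
  unfold ce h
  rw [← sub_div, mul_div_cancel₀ _ hc.ne', ← sum_sub_distrib]
  refine sum_congr rfl fun x _ => ?_
  ring

lemma card_mul_h (S : Finset α) (f : α → β) :
    (S.card : ℝ) * h S f = ∑ x ∈ S, (Real.log S.card - Real.log (fc S f x)) := by
  rcases S.eq_empty_or_nonempty with h0 | hS
  · subst h0
    simp
  have hc : (0 : ℝ) < S.card := by exact_mod_cast card_pos.2 hS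
  unfold h
  rw [mul_div_cancel₀ _ hc.ne']

/-- the cost of a splitting, as a conditional entropy -/
lemma split_ce (B Z : Finset α) (hd : Disjoint B Z) (f : α → β) :
    ((B ∪ Z).card : ℝ) * ce (B ∪ Z) f (fun x => decide (x ∈ Z)) =
      ∑ x ∈ B, (Real.log (fc (B ∪ Z) f x) - Real.log (fc B f x)) +
        ∑ x ∈ Z, (Real.log (fc (B ∪ Z) f x) - Real.log (fc Z f x)) := by
  rw [card_mul_ce, sum_union hd]
  congr 1
  · refine sum_congr rfl fun x hx => ?_
    congr 3
    unfold fc
    congr 1
    ext y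
    rw [mem_cl, mem_cl, Prod.mk.injEq, mem_union]
    have hxZ : x ∉ Z := fun h1 => disjoint_left.1 hd hx h1
    constructor
    · rintro ⟨h1, h2, h3⟩
      have h4 : y ∉ Z := by simpa [hxZ] using h3
      exact ⟨h1.resolve_right h4, h2⟩
    · rintro ⟨h1, h2⟩
      have h4 : y ∉ Z := fun h5 => disjoint_left.1 hd h1 h5
      exact ⟨Or.inl h1, h2, by simp [hxZ, h4]⟩
  · refine sum_congr rfl fun x hx => ?_
    congr 3
    unfold fc
    congr 1
    ext y
    rw [mem_cl, mem_cl, Prod.mk.injEq, mem_union]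
    constructor
    · rintro ⟨h1, h2, h3⟩
      have h4 : y ∈ Z := by simpa [hx] using h3
      exact ⟨h4, h2⟩
    · rintro ⟨h1, h2⟩
      exact ⟨Or.inr h1, h2, by simp [hx, h1]⟩

lemma sum_fib (T R : Finset α) (hTR : T ⊆ R) (f : α → γ) (φ : γ → ℝ) :
    ∑ x ∈ T, φ (f x) = ∑ r ∈ R.image f, ((T.filter fun x => f x = r).card : ℝ) * φ r := by
  rw [← sum_fiberwise_of_maps_to (t := R.image f) (g := f)
    (fun x hx => mem_image_of_mem f (hTR hx))]
  refine sum_congr rfl fun r _ => ?_
  rw [sum_congr rfl (g := fun _ => φ r) (fun _ hx => by rw [(mem_filter.1 hx).2]), sum_const,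
    nsmul_eq_mul]

lemma fc_eq (S : Finset α) (f : α → γ) (x : α) :
    fc S f x = (S.filter fun y => f y = f x).card := rfl

lemma Fs_nat (x y : ℕ) : Fs (x : ℝ) (y : ℝ) =
    x * (Real.log ((x + y : ℕ) : ℝ) - Real.log x) +
      y * (Real.log ((x + y : ℕ) : ℝ) - Real.log y) := by
  unfold Fs
  push_cast
  congr 1
  · rcases Nat.eq_zero_or_pos x with h0 | h0
    · subst h0; simp
    · have h1 : (0 : ℝ) < x := by exact_mod_cast h0
      rw [Real.log_div (by positivity) h1.ne']
  · rcases Nat.eq_zero_or_pos y with h0 | h0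
    · subst h0; simp
    · have h1 : (0 : ℝ) < y := by exact_mod_cast h0
      rw [Real.log_div (by positivity) h1.ne']

lemma card_filter_union (B Z : Finset α) (hd : Disjoint B Z) (p : α → Prop) :
    ((B ∪ Z).filter p).card = (Z.filter p).card + (B.filter p).card := by
  rw [filter_union, card_union_of_disjoint, add_comm]
  exact disjoint_filter_filter hd

end gen

/-- the constants work for one class -/
def LocAt (δ lam al : ℝ) : Prop :=
  ∀ {ι : Type} (R : Finset ι) (xl xh b : ι → ℝ), (∀ r ∈ R, 0 ≤ xl r) → (∀ r ∈ R, 0 ≤ xh r) →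
      (∀ r ∈ R, 0 ≤ b r) → (∀ r ∈ R, xl r ≤ lam * ∑ r ∈ R, (xl r + xh r)) →
      ∑ r ∈ R, xh r ≤ al * ∑ r ∈ R, (xl r + xh r) →
      ∑ r ∈ R, Fs (xl r + xh r) (b r) ≤
        δ * (∑ r ∈ R, b r * Real.log ((∑ r ∈ R, b r) / b r) +
          Fs (∑ r ∈ R, (xl r + xh r)) (∑ r ∈ R, b r) + ∑ r ∈ R, (xl r + xh r))

variable {α β γ : Type}

/-- **One class.** -/
lemma one_class {δ lam al : ℝ} (hL : LocAt δ lam al) (B Z Dl : Finset α) (hd : Disjoint B Z)
    (f : α → γ) (h1 : ((Z.filter fun y => y ∉ Dl).card : ℝ) ≤ al * Z.card)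
    (h2 : ∀ r, ((Z.filter fun y => f y = r ∧ y ∈ Dl).card : ℝ) ≤ lam * Z.card) :
    ∑ x ∈ B, (Real.log (fc (B ∪ Z) f x) - Real.log (fc B f x)) +
        ∑ x ∈ Z, (Real.log (fc (B ∪ Z) f x) - Real.log (fc Z f x)) ≤
      δ * (∑ x ∈ Z, (Real.log (B ∪ Z).card - Real.log Z.card) +
        ∑ x ∈ B, (Real.log (B ∪ Z).card - Real.log (fc B f x)) + Z.card) := by
  have key := hL ((B ∪ Z).image f) (fun r => ((Z.filter fun y => f y = r ∧ y ∈ Dl).card : ℝ))
    (fun r => ((Z.filter fun y => f y = r ∧ y ∉ Dl).card : ℝ))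
    (fun r => ((B.filter fun y => f y = r).card : ℝ))
    (fun _ _ => by positivity) (fun _ _ => by positivity) (fun _ _ => by positivity)
  have e0 : ∀ r, ((Z.filter fun y => f y = r ∧ y ∈ Dl).card : ℝ) +
      ((Z.filter fun y => f y = r ∧ y ∉ Dl).card : ℝ) = ((Z.filter fun y => f y = r).card : ℝ) := by
    intro r
    rw [← filter_filter, ← filter_filter]
    exact_mod_cast card_filter_add_card_filter_not (s := Z.filter fun y => f y = r)
      (fun y => y ∈ Dl)
  have e1 : ∑ r ∈ (B ∪ Z).image f, ((Z.filter fun y => f y = r).card : ℝ) = Z.card := by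
    have := sum_fib Z (B ∪ Z) subset_union_right f (fun _ => 1)
    simpa using this.symm
  have e2 : ∑ r ∈ (B ∪ Z).image f, ((B.filter fun y => f y = r).card : ℝ) = B.card := by
    have := sum_fib B (B ∪ Z) subset_union_left f (fun _ => 1)
    simpa using this.symm
  have e3 : ∑ r ∈ (B ∪ Z).image f, ((Z.filter fun y => f y = r ∧ y ∉ Dl).card : ℝ) =
      (Z.filter fun y => y ∉ Dl).card := by
    have := sum_fib (Z.filter fun y => y ∉ Dl) (B ∪ Z)
      ((filter_subset _ _).trans subset_union_right) f (fun _ => 1)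
    simp only [sum_const, nsmul_eq_mul, mul_one, filter_filter] at this
    rw [this]
    refine sum_congr rfl fun r _ => ?_
    congr 2
    ext y
    simp only [mem_filter]
    tauto
  simp only [e0, e1, e2, e3] at key
  have key2 := key (fun r _ => h2 r) h1
  -- the left side
  have l1 : ∑ x ∈ B, (Real.log (fc (B ∪ Z) f x) - Real.log (fc B f x)) +
        ∑ x ∈ Z, (Real.log (fc (B ∪ Z) f x) - Real.log (fc Z f x)) =
      ∑ r ∈ (B ∪ Z).image f, Fs ((Z.filter fun y => f y = r).card : ℝ)
        ((B.filter fun y => f y = r).card : ℝ) := by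
    have a1 := sum_fib B (B ∪ Z) subset_union_left f (fun r =>
      Real.log (((B ∪ Z).filter fun y => f y = r).card : ℝ) -
        Real.log ((B.filter fun y => f y = r).card : ℝ))
    have a2 := sum_fib Z (B ∪ Z) subset_union_right f (fun r =>
      Real.log (((B ∪ Z).filter fun y => f y = r).card : ℝ) -
        Real.log ((Z.filter fun y => f y = r).card : ℝ))
    have a3 : ∑ x ∈ B, (Real.log (fc (B ∪ Z) f x) - Real.log (fc B f x)) =
      ∑ x ∈ B, (Real.log (((B ∪ Z).filter fun y => f y = f x).card : ℝ) -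
        Real.log ((B.filter fun y => f y = f x).card : ℝ)) := rfl
    have a4 : ∑ x ∈ Z, (Real.log (fc (B ∪ Z) f x) - Real.log (fc Z f x)) =
      ∑ x ∈ Z, (Real.log (((B ∪ Z).filter fun y => f y = f x).card : ℝ) -
        Real.log ((Z.filter fun y => f y = f x).card : ℝ)) := rfl
    rw [a3, a4, a1, a2, ← sum_add_distrib]
    refine sum_congr rfl fun r _ => ?_
    rw [Fs_nat, card_filter_union B Z hd]
    ring
  -- the right side
  have r1 : ∑ r ∈ (B ∪ Z).image f, ((B.filter fun y => f y = r).card : ℝ) *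
      Real.log (B.card / ((B.filter fun y => f y = r).card : ℝ)) =
      ∑ x ∈ B, (Real.log B.card - Real.log (fc B f x)) := by
    have a1 := sum_fib B (B ∪ Z) subset_union_left f (fun r =>
      Real.log (B.card : ℝ) - Real.log ((B.filter fun y => f y = r).card : ℝ))
    have a3 : ∑ x ∈ B, (Real.log B.card - Real.log (fc B f x)) =
      ∑ x ∈ B, (Real.log (B.card : ℝ) -
        Real.log ((B.filter fun y => f y = f x).card : ℝ)) := rfl
    rw [a3, a1]
    refine sum_congr rfl fun r _ => ?_
    rcases Nat.eq_zero_or_pos (B.filter fun y => f y = r).card with h0 | h0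
    · rw [h0]; simp
    · have h3 : (0 : ℝ) < (B.filter fun y => f y = r).card := by exact_mod_cast h0
      have h4 : (0 : ℝ) < B.card :=
        lt_of_lt_of_le h3 (by exact_mod_cast card_le_card (filter_subset _ _))
      rw [Real.log_div h4.ne' h3.ne']
  have r2 : Fs (Z.card : ℝ) (B.card : ℝ) = ∑ x ∈ Z, (Real.log (B ∪ Z).card - Real.log Z.card) +
      ∑ x ∈ B, (Real.log (B ∪ Z).card - Real.log B.card) := by
    rw [Fs_nat, card_union_of_disjoint hd, sum_const, sum_const, nsmul_eq_mul, nsmul_eq_mul,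
      add_comm Z.card B.card]
  rw [l1]
  refine key2.trans (le_of_eq ?_)
  congr 1
  rw [r1, r2]
  have r3 : ∑ x ∈ B, (Real.log (B ∪ Z).card - Real.log (fc B f x)) =
      ∑ x ∈ B, (Real.log (B ∪ Z).card - Real.log B.card) +
        ∑ x ∈ B, (Real.log B.card - Real.log (fc B f x)) := by
    rw [← sum_add_distrib]
    refine sum_congr rfl fun x _ => ?_
    ring
  rw [r3]
  ring

/-- **Several classes.** -/
lemma classes {δ lam al : ℝ} (hL : LocAt δ lam al) (hlam : 0 < lam) (B Z Dl : Finset α)
    (hd : Disjoint B Z) (c f : α → γ)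
    (hcf : ∀ x ∈ B ∪ Z, ∀ y ∈ B ∪ Z, f x = f y → c x = c y)
    (h1 : ∀ x ∈ Z, ((Z.filter fun y => c y = c x ∧ y ∉ Dl).card : ℝ) ≤ al * fc Z c x)
    (h2 : ∀ x ∈ Z, ((Z.filter fun y => f y = f x ∧ y ∈ Dl).card : ℝ) ≤ lam * fc Z c x) :
    ∑ x ∈ B, (Real.log (fc (B ∪ Z) f x) - Real.log (fc B f x)) +
        ∑ x ∈ Z, (Real.log (fc (B ∪ Z) f x) - Real.log (fc Z f x)) ≤
      δ * (∑ x ∈ Z, (Real.log (fc (B ∪ Z) c x) - Real.log (fc Z c x)) +
        ∑ x ∈ B, (Real.log (fc (B ∪ Z) c x) - Real.log (fc B f x)) + Z.card) := by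
  have hm1 : ∀ x ∈ B, c x ∈ (B ∪ Z).image c := fun x hx =>
    mem_image_of_mem c (mem_union_left _ hx)
  have hm2 : ∀ x ∈ Z, c x ∈ (B ∪ Z).image c := fun x hx =>
    mem_image_of_mem c (mem_union_right _ hx)
  have hZ : (Z.card : ℝ) = ∑ r ∈ (B ∪ Z).image c, ((Z.filter fun x => c x = r).card : ℝ) := by
    exact_mod_cast card_eq_sum_card_fiberwise hm2
  rw [← sum_fiberwise_of_maps_to hm1, ← sum_fiberwise_of_maps_to hm2,
    ← sum_fiberwise_of_maps_to hm2 (f := fun x => Real.log (fc (B ∪ Z) c x) - Real.log (fc Z c x)),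
    ← sum_fiberwise_of_maps_to hm1 (f := fun x => Real.log (fc (B ∪ Z) c x) - Real.log (fc B f x)),
    hZ, ← sum_add_distrib, ← sum_add_distrib, ← sum_add_distrib, mul_sum]
  refine sum_le_sum fun r _ => ?_
  set Br := B.filter fun x => c x = r with hBr
  set Zr := Z.filter fun x => c x = r with hZr
  have hBB : Br ⊆ B := filter_subset _ _
  have hZZ : Zr ⊆ Z := filter_subset _ _
  have hdr : Disjoint Br Zr := disjoint_filter_filter hd
  have hU : Br ∪ Zr = (B ∪ Z).filter fun x => c x = r := by rw [hBr, hZr, filter_union]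
  have key := one_class hL Br Zr Dl hdr f (by
      rcases Zr.eq_empty_or_nonempty with h0 | ⟨x, hx⟩
      · rw [h0]; simp
      · obtain ⟨hxZ, hxr⟩ := mem_filter.1 hx
        have h3 := h1 x hxZ
        rw [hxr] at h3
        have h4 : fc Z c x = Zr.card := by rw [fc_eq, hxr]
        rw [h4] at h3
        rw [hZr, filter_filter]
        exact h3) (by
      intro s
      by_cases hs : ∃ x ∈ Zr, f x = s
      · obtain ⟨x, hx, hxs⟩ := hs
        obtain ⟨hxZ, hxr⟩ := mem_filter.1 hx
        have h3 := h2 x hxZ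
        have h4 : fc Z c x = Zr.card := by rw [fc_eq, hxr]
        rw [h4, hxs] at h3
        refine le_trans ?_ h3
        exact_mod_cast card_le_card (filter_subset_filter _ hZZ)
      · have h5 : (Zr.filter fun y => f y = s ∧ y ∈ Dl) = ∅ := by
          rw [filter_eq_empty_iff]
          intro y hy h6
          exact hs ⟨y, hy, h6.1⟩
        rw [h5, card_empty, Nat.cast_zero]
        positivity)
  have f1 : ∀ x ∈ B ∪ Z, c x = r → fc (B ∪ Z) f x = fc (Br ∪ Zr) f x := by
    intro x hx hxr
    unfold fc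
    congr 1
    ext y
    rw [mem_cl, mem_cl, hU, mem_filter]
    constructor
    · rintro ⟨a1, a2⟩
      exact ⟨⟨a1, (hcf y a1 x hx a2).trans hxr⟩, a2⟩
    · rintro ⟨⟨a1, _⟩, a2⟩
      exact ⟨a1, a2⟩
  have f2 : ∀ x ∈ B, c x = r → fc B f x = fc Br f x := by
    intro x hx hxr
    unfold fc
    congr 1
    ext y
    rw [mem_cl, mem_cl, mem_filter]
    constructor
    · rintro ⟨a1, a2⟩
      exact ⟨⟨a1, (hcf y (mem_union_left _ a1) x (mem_union_left _ hx) a2).trans hxr⟩, a2⟩
    · rintro ⟨⟨a1, _⟩, a2⟩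
      exact ⟨a1, a2⟩
  have f3 : ∀ x ∈ Z, c x = r → fc Z f x = fc Zr f x := by
    intro x hx hxr
    unfold fc
    congr 1
    ext y
    rw [mem_cl, mem_cl, mem_filter]
    constructor
    · rintro ⟨a1, a2⟩
      exact ⟨⟨a1, (hcf y (mem_union_right _ a1) x (mem_union_right _ hx) a2).trans hxr⟩, a2⟩
    · rintro ⟨⟨a1, _⟩, a2⟩
      exact ⟨a1, a2⟩
  have f4 : ∀ x, c x = r → fc (B ∪ Z) c x = (Br ∪ Zr).card := by
    intro x hxr
    rw [hU, fc_eq, hxr]
  have f5 : ∀ x, c x = r → fc Z c x = Zr.card := by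
    intro x hxr
    rw [fc_eq, hxr]
  have g1 : ∑ x ∈ Br, (Real.log (fc (B ∪ Z) f x) - Real.log (fc B f x)) =
      ∑ x ∈ Br, (Real.log (fc (Br ∪ Zr) f x) - Real.log (fc Br f x)) :=
    sum_congr rfl fun x hx => by
      obtain ⟨a1, a2⟩ := mem_filter.1 hx
      rw [f1 x (mem_union_left _ a1) a2, f2 x a1 a2]
  have g2 : ∑ x ∈ Zr, (Real.log (fc (B ∪ Z) f x) - Real.log (fc Z f x)) =
      ∑ x ∈ Zr, (Real.log (fc (Br ∪ Zr) f x) - Real.log (fc Zr f x)) :=
    sum_congr rfl fun x hx => by
      obtain ⟨a1, a2⟩ := mem_filter.1 hx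
      rw [f1 x (mem_union_right _ a1) a2, f3 x a1 a2]
  have g3 : ∑ x ∈ Zr, (Real.log (fc (B ∪ Z) c x) - Real.log (fc Z c x)) =
      ∑ x ∈ Zr, (Real.log (Br ∪ Zr).card - Real.log Zr.card) :=
    sum_congr rfl fun x hx => by
      obtain ⟨a1, a2⟩ := mem_filter.1 hx
      rw [f4 x a2, f5 x a2]
  have g4 : ∑ x ∈ Br, (Real.log (fc (B ∪ Z) c x) - Real.log (fc B f x)) =
      ∑ x ∈ Br, (Real.log (Br ∪ Zr).card - Real.log (fc Br f x)) :=
    sum_congr rfl fun x hx => by
      obtain ⟨a1, a2⟩ := mem_filter.1 hx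
      rw [f4 x a2, f2 x a1 a2]
  rw [g1, g2, g3, g4]
  exact key

end OpdAux

open OpdAux

/-- **Decoding the exponent of one prime.** -/
theorem opd {δ : ℝ} (hδ : 0 < δ) : ∃ lam al : ℝ, 0 < lam ∧ lam ≤ 1 ∧ 0 < al ∧ al ≤ 1 ∧
    ∀ {α β γ : Type} (W Dl : Finset α) (v : α → ℕ) (l : ℕ) (G : ℕ → α → γ) (g : α → β),
      (∀ x ∈ W, v x ≤ l) →
      (∀ e e' : ℕ, e ≤ e' → ∀ x ∈ W, ∀ y ∈ W, G e' x = G e' y → G e x = G e y) →
      (∀ e : ℕ, ∀ x ∈ W, ∀ y ∈ W, g x = g y → G e x = G e y) →
      (∀ x ∈ W, ((W.filter fun y =>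
          (v y = v x ∧ G (l - v x) y = G (l - v x) x) ∧ y ∉ Dl).card : ℝ) ≤
        al * (W.filter fun y => v y = v x ∧ G (l - v x) y = G (l - v x) x).card) →
      (∀ x ∈ W, ((W.filter fun y =>
          (v y = v x ∧ G (l + 1 - v x) y = G (l + 1 - v x) x) ∧ y ∈ Dl).card : ℝ) ≤
        lam * (W.filter fun y => v y = v x ∧ G (l - v x) y = G (l - v x) x).card) →
      (W.card : ℝ) * ce W g v ≤
        δ * (W.card * h W (fun x => (v x, G (l - v x) x)) + W.card) := by
  obtain ⟨lam, al, hlam, hlam1, hal, hal1, hL⟩ := loc hδ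
  refine ⟨lam, al, hlam, hlam1, hal, hal1, ?_⟩
  intro α β γ W Dl v l G g hv hG hg hD1 hD2
  have hL' : LocAt δ lam al := @hL
  -- the claim
  have claim : ∀ k, k ≤ l + 1 →
      ∑ x ∈ W.filter (fun x => v x < k), (Real.log (fc (W.filter (fun x => v x < k)) g x) -
        Real.log (fc (W.filter (fun x => v x < k)) (fun x => (g x, v x)) x)) ≤
      δ * (∑ x ∈ W.filter (fun x => v x < k),
        (Real.log (fc (W.filter (fun x => v x < k)) (G (l + 1 - k)) x) -
        Real.log (fc (W.filter (fun x => v x < k)) (fun x => (v x, G (l - v x) x)) x)) +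
          (W.filter (fun x => v x < k)).card) := by
    intro k
    induction k with
    | zero => intro _; simp
    | succ k ih =>
      intro hk
      have ih' := ih (by omega)
      set B := W.filter (fun x => v x < k) with hB
      set Z := W.filter (fun x => v x = k) with hZ
      have hd : Disjoint B Z := by
        rw [disjoint_left]
        intro x h1 h2
        have := (mem_filter.1 h1).2
        have := (mem_filter.1 h2).2
        omega
      have hU : W.filter (fun x => v x < k + 1) = B ∪ Z := by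
        rw [hB, hZ, ← filter_or]
        refine filter_congr fun x _ => ?_
        omega
      rw [hU]
      have hBW : ∀ x ∈ B, x ∈ W := fun x hx => (mem_filter.1 hx).1
      have hZW : ∀ x ∈ Z, x ∈ W := fun x hx => (mem_filter.1 hx).1
      have hUW : ∀ x ∈ B ∪ Z, x ∈ W := fun x hx => (mem_union.1 hx).elim (hBW x) (hZW x)
      have hBv : ∀ x ∈ B, v x < k := fun x hx => (mem_filter.1 hx).2
      have hZv : ∀ x ∈ Z, v x = k := fun x hx => (mem_filter.1 hx).2
      have e1 : l + 1 - (k + 1) = l - k := by omega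
      rw [e1]
      -- the classes of pairs with `v` split
      have p1 : ∀ (f : α → β), ∀ x ∈ B, fc (B ∪ Z) (fun x => (f x, v x)) x =
          fc B (fun x => (f x, v x)) x := by
        intro f x hx
        unfold fc
        congr 1
        ext y
        rw [mem_cl, mem_cl, Prod.mk.injEq, mem_union]
        constructor
        · rintro ⟨a1, a2, a3⟩
          refine ⟨a1.resolve_right fun a4 => ?_, a2, a3⟩
          have := hBv x hx
          have := hZv y a4
          omega
        · rintro ⟨a1, a2⟩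
          exact ⟨Or.inl a1, a2⟩
      have p2 : ∀ (f : α → β), ∀ x ∈ Z, fc (B ∪ Z) (fun x => (f x, v x)) x = fc Z f x := by
        intro f x hx
        unfold fc
        congr 1
        ext y
        rw [mem_cl, mem_cl, Prod.mk.injEq, mem_union]
        constructor
        · rintro ⟨a1, a2, a3⟩
          refine ⟨a1.resolve_left fun a4 => ?_, a2⟩
          have := hBv y a4
          have := hZv x hx
          omega
        · rintro ⟨a1, a2⟩
          exact ⟨Or.inr a1, a2, by rw [hZv x hx, hZv y a1]⟩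
      have q1 : ∀ x ∈ B, fc (B ∪ Z) (fun x => (v x, G (l - v x) x)) x =
          fc B (fun x => (v x, G (l - v x) x)) x := by
        intro x hx
        unfold fc
        congr 1
        ext y
        rw [mem_cl, mem_cl, Prod.mk.injEq, mem_union]
        constructor
        · rintro ⟨a1, a3, a2⟩
          refine ⟨a1.resolve_right fun a4 => ?_, a3, a2⟩
          have := hBv x hx
          have := hZv y a4
          omega
        · rintro ⟨a1, a2⟩
          exact ⟨Or.inl a1, a2⟩
      have q2 : ∀ x ∈ Z, fc (B ∪ Z) (fun x => (v x, G (l - v x) x)) x = fc Z (G (l - k)) x := by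
        intro x hx
        unfold fc
        congr 1
        ext y
        rw [mem_cl, mem_cl, Prod.mk.injEq, mem_union]
        constructor
        · rintro ⟨a1, a3, a2⟩
          refine ⟨a1.resolve_left fun a4 => ?_, ?_⟩
          · have := hBv y a4
            have := hZv x hx
            omega
          · rw [hZv x hx] at a3
            rw [a3, hZv x hx] at a2
            exact a2
        · rintro ⟨a1, a2⟩
          refine ⟨Or.inr a1, by rw [hZv x hx, hZv y a1], ?_⟩
          rw [hZv x hx, hZv y a1]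
          exact a2
      -- the new cost
      have x1 : ∑ x ∈ B ∪ Z, (Real.log (fc (B ∪ Z) g x) -
          Real.log (fc (B ∪ Z) (fun x => (g x, v x)) x)) =
          ∑ x ∈ B, (Real.log (fc B g x) - Real.log (fc B (fun x => (g x, v x)) x)) +
          (∑ x ∈ B, (Real.log (fc (B ∪ Z) g x) - Real.log (fc B g x)) +
            ∑ x ∈ Z, (Real.log (fc (B ∪ Z) g x) - Real.log (fc Z g x))) := by
        rw [sum_union hd, ← add_assoc, ← sum_add_distrib]
        congr 1
        · refine sum_congr rfl fun x hx => ?_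
          rw [p1 g x hx]
          ring
        · refine sum_congr rfl fun x hx => ?_
          rw [p2 g x hx]
      have x2 : ∑ x ∈ B, (Real.log (fc (B ∪ Z) g x) - Real.log (fc B g x)) +
            ∑ x ∈ Z, (Real.log (fc (B ∪ Z) g x) - Real.log (fc Z g x)) ≤
          ∑ x ∈ B, (Real.log (fc (B ∪ Z) (G (l + 1 - k)) x) -
            Real.log (fc B (G (l + 1 - k)) x)) +
            ∑ x ∈ Z, (Real.log (fc (B ∪ Z) (G (l + 1 - k)) x) -
              Real.log (fc Z (G (l + 1 - k)) x)) := by
        rw [← split_ce B Z hd g, ← split_ce B Z hd (G (l + 1 - k))]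
        refine mul_le_mul_of_nonneg_left (ce_anti _ _ _ _ ?_) (by positivity)
        intro x hx y hy hxy
        exact hg _ x (hUW x hx) y (hUW y hy) hxy
      have x3 := classes hL' hlam B Z Dl hd (G (l - k)) (G (l + 1 - k))
        (fun x hx y hy hxy => hG (l - k) (l + 1 - k) (by omega) x (hUW x hx) y (hUW y hy) hxy)
        (by
          intro x hx
          have h3 := hD1 x (hZW x hx)
          rw [hZv x hx] at h3
          have h4 : (W.filter fun y => (v y = k ∧ G (l - k) y = G (l - k) x) ∧ y ∉ Dl) =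
              Z.filter fun y => G (l - k) y = G (l - k) x ∧ y ∉ Dl := by
            rw [hZ, filter_filter]
            refine filter_congr fun y _ => ?_
            tauto
          have h5 : (W.filter fun y => v y = k ∧ G (l - k) y = G (l - k) x).card =
              fc Z (G (l - k)) x := by
            rw [fc_eq, hZ, filter_filter]
          rw [h4, h5] at h3
          exact h3)
        (by
          intro x hx
          have h3 := hD2 x (hZW x hx)
          rw [hZv x hx] at h3
          have h4 : (W.filter fun y => (v y = k ∧ G (l + 1 - k) y = G (l + 1 - k) x) ∧ y ∈ Dl) =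
              Z.filter fun y => G (l + 1 - k) y = G (l + 1 - k) x ∧ y ∈ Dl := by
            rw [hZ, filter_filter]
            refine filter_congr fun y _ => ?_
            tauto
          have h5 : (W.filter fun y => v y = k ∧ G (l - k) y = G (l - k) x).card =
              fc Z (G (l - k)) x := by
            rw [fc_eq, hZ, filter_filter]
          rw [h4, h5] at h3
          exact h3)
      -- the new energy
      have x4 : ∑ x ∈ B ∪ Z, (Real.log (fc (B ∪ Z) (G (l - k)) x) -
          Real.log (fc (B ∪ Z) (fun x => (v x, G (l - v x) x)) x)) =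
          ∑ x ∈ B, (Real.log (fc B (G (l + 1 - k)) x) -
            Real.log (fc B (fun x => (v x, G (l - v x) x)) x)) +
          (∑ x ∈ Z, (Real.log (fc (B ∪ Z) (G (l - k)) x) - Real.log (fc Z (G (l - k)) x)) +
            ∑ x ∈ B, (Real.log (fc (B ∪ Z) (G (l - k)) x) -
              Real.log (fc B (G (l + 1 - k)) x))) := by
        have y1 : ∑ x ∈ B, (Real.log (fc (B ∪ Z) (G (l - k)) x) -
            Real.log (fc (B ∪ Z) (fun x => (v x, G (l - v x) x)) x)) =
            ∑ x ∈ B, (Real.log (fc B (G (l + 1 - k)) x) -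
              Real.log (fc B (fun x => (v x, G (l - v x) x)) x)) +
            ∑ x ∈ B, (Real.log (fc (B ∪ Z) (G (l - k)) x) -
              Real.log (fc B (G (l + 1 - k)) x)) := by
          rw [← sum_add_distrib]
          refine sum_congr rfl fun x hx => ?_
          rw [q1 x hx]
          ring
        have y2 : ∑ x ∈ Z, (Real.log (fc (B ∪ Z) (G (l - k)) x) -
            Real.log (fc (B ∪ Z) (fun x => (v x, G (l - v x) x)) x)) =
            ∑ x ∈ Z, (Real.log (fc (B ∪ Z) (G (l - k)) x) - Real.log (fc Z (G (l - k)) x)) :=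
          sum_congr rfl fun x hx => by rw [q2 x hx]
        rw [sum_union hd, y1, y2]
        ring
      have x5 : ((B ∪ Z).card : ℝ) = B.card + Z.card := by
        exact_mod_cast card_union_of_disjoint hd
      rw [x1, x4, x5]
      have x6 := x2.trans x3
      nlinarith [ih', x6]
  have hfin := claim (l + 1) le_rfl
  have hWW : W.filter (fun x => v x < l + 1) = W := by
    rw [filter_eq_self]
    intro x hx
    have := hv x hx
    omega
  rw [hWW, ← card_mul_ce] at hfin
  refine hfin.trans ?_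
  refine mul_le_mul_of_nonneg_left ?_ hδ.le
  rw [card_mul_h]
  refine add_le_add ?_ le_rfl
  refine sum_le_sum fun x hx => ?_
  have h1 := fc_posR (f := G (l + 1 - (l + 1))) hx
  have h2 : (fc W (G (l + 1 - (l + 1))) x : ℝ) ≤ W.card := by exact_mod_cast fc_le
  have h3 := Real.log_le_log h1 h2
  linarith

end Pool.Agent.T2H12.KH
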