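import Mathlib
import Pool.Agent.T2H12.KH.Opd
import Pool.Agent.T2H12.KH.FlatB

/-!
# Decoding the exponents of all primes (package FLAT)
-/

set_option autoImplicit false

namespace Pool.Agent.T2H12.KH

open Finset
open scoped Classical
open Pool.Agent.Y359.PE Pool.Agent.T2H12.KF

namespace Fl

variable {n v l : ℕ → ℤ → ℕ} {G : ℕ → ℕ → ℤ → ℤ}

/-- one prime -/
lemma step {δ lam al ρ : ℝ} (hδ : 0 < δ) (hlam : 0 < lam) (opd : OPDp δ lam al) (h0 : 0 < ρ)
    (h1 : ρ ≤ 1 / 2) (j : ℕ) {W W' : Finset ℤ} (hsub : W' ⊆ W)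
    (Sc : ℤ → Finset ℤ) (g : ℤ → ℤ)
    (hg : ∀ e x y, g x = g y → G j e x = G j e y)
    (hG : ∀ e e' x y, e ≤ e' → G j e' x = G j e' y → G j e x = G j e y)
    (hS1 : ∀ x ∈ W', x ∈ Sc x ∧ Sc x ⊆ W')
    (hS2 : ∀ x ∈ W', ∀ y ∈ Sc x, Sc y = Sc x)
    (hS3 : ∀ x ∈ W', ∀ y ∈ Sc x, ∀ i ≤ j, n i y = n i x ∧ v i y = v i x ∧
        l i y = l i x ∧ G i (l i x - v i x) y = G i (l i x - v i x) x)
    (hl : ∀ x ∈ W', ∀ y ∈ W', (∀ i ≤ j, n i x = n i y) → l j x = l j y)
    (hv : ∀ x ∈ W', v j x ≤ l j x)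
    (hheavy : ∀ x ∈ W', (((Sc x).filter fun y =>
          lam * (Sc x).card ≤ fc (Sc x) (G j (l j x + 1 - v j x)) y).card : ℝ) ≤
        al * (Sc x).card) :
    (W'.card : ℝ) * ce W' g (sg n v l G (j + 1)) +
        δ * ∑ x ∈ W', Real.log (fc W' (sg n v l G (j + 1)) x) ≤
      (W.card : ℝ) * ce W g (sg n v l G j) + δ * ∑ x ∈ W, Real.log (fc W (sg n v l G j) x) +
        (δ * W'.card + ∑ x ∈ W', (2 * ρ + n j x * Real.log (1 / ρ))) := by
  have a1 : ce W' g (sg n v l G (j + 1)) ≤ ce W' g (fun x => (sg n v l G j x, (n j x, v j x))) := by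
    refine ce_mono _ _ _ _ fun x hx y hy hgxy hk => ?_
    rw [Prod.mk.injEq, Prod.mk.injEq] at hk
    obtain ⟨b1, b2, b3⟩ := hk
    rw [sg_succ]
    refine ⟨b1, b2, b3, ?_⟩
    have b4 : l j x = l j y := hl x hx y hy fun i hi => by
      rcases hi.lt_or_eq with b5 | rfl
      · exact (sg_iff.1 b1 i b5).1
      · exact b2
    rw [b4, b3]
    exact hg _ x y hgxy
  rw [ce_chain, ce_chain] at a1
  have a2 : ce W' (fun x => ((g x, sg n v l G j x), n j x)) (v j) =
      ce W' (fun x => ((sg n v l G j x, n j x), g x)) (v j) := by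
    refine ce_congr_left _ _ _ _ fun x _ y _ => ?_
    simp only [Prod.mk.injEq]
    tauto
  have a3 := step4 hδ hlam opd j W' Sc g hg hG hS1 hS2 hS3 hl hv hheavy
  have a4 := ce_geo W' (fun x => (g x, sg n v l G j x)) (n j) h0 h1
  have a5 := ce_sub hsub g (sg n v l G j)
  have a6 : ∑ x ∈ W', Real.log (fc W' (fun x => (sg n v l G j x, n j x)) x) ≤
      ∑ x ∈ W, Real.log (fc W (sg n v l G j) x) := by
    refine le_trans (sum_le_sum fun x hx => ?_) (sum_le_sum_of_subset_of_nonneg hsub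
      fun x _ _ => log_fc_nonneg _ _ _)
    refine Real.log_le_log (fc_posR hx) (Nat.cast_le.2 (card_le_card fun y hy => ?_))
    rw [mem_cl, Prod.mk.injEq] at hy
    exact mem_cl.2 ⟨hsub hy.1, hy.2.1⟩
  have a7 : (W'.card : ℝ) * ce W' g (sg n v l G (j + 1)) ≤ W'.card *
      (ce W' g (sg n v l G j) + (ce W' (fun x => (g x, sg n v l G j x)) (n j) +
        ce W' (fun x => ((sg n v l G j x, n j x), g x)) (v j))) := by
    refine mul_le_mul_of_nonneg_left ?_ (by positivity)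
    rw [← a2]
    exact a1
  rw [sum_sub_distrib] at a3
  have a8 := mul_le_mul_of_nonneg_left a6 hδ.le
  rw [mul_add, mul_add] at a7
  rw [mul_add, mul_sub] at a3
  linarith

end Fl

open Fl

/-- **Decoding the exponents of all primes.** -/
theorem flat {δ : ℝ} (hδ : 0 < δ) : ∃ lam al : ℝ, 0 < lam ∧ lam ≤ 1 ∧ 0 < al ∧ al ≤ 1 ∧
    ∀ (ρ : ℝ), 0 < ρ → ρ ≤ 1 / 2 → ∀ (U : Finset ℤ) (J : ℕ) (O : ℕ → Finset ℤ)
      (Sc : ℕ → ℤ → Finset ℤ) (n v l : ℕ → ℤ → ℕ) (g : ℤ → ℤ) (G : ℕ → ℕ → ℤ → ℤ),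
      O 0 ⊆ U → (∀ j < J, O (j + 1) ⊆ O j) →
      (∀ j e x y, g x = g y → G j e x = G j e y) →
      (∀ j e e' x y, e ≤ e' → G j e' x = G j e' y → G j e x = G j e y) →
      (∀ j < J, ∀ x ∈ O (j + 1), x ∈ Sc j x ∧ Sc j x ⊆ O (j + 1)) →
      (∀ j < J, ∀ x ∈ O (j + 1), ∀ y ∈ Sc j x, Sc j y = Sc j x) →
      (∀ j < J, ∀ x ∈ O (j + 1), ∀ y ∈ Sc j x, ∀ i ≤ j, n i y = n i x ∧ v i y = v i x ∧
        l i y = l i x ∧ G i (l i x - v i x) y = G i (l i x - v i x) x) →
      (∀ j < J, ∀ x ∈ O (j + 1), ∀ y ∈ O (j + 1), (∀ i ≤ j, n i x = n i y) → l j x = l j y) →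
      (∀ j < J, ∀ x ∈ O (j + 1), v j x ≤ l j x) →
      (∀ j < J, ∀ x ∈ O (j + 1), (((Sc j x).filter fun y =>
          lam * (Sc j x).card ≤ fc (Sc j x) (G j (l j x + 1 - v j x)) y).card : ℝ) ≤
        al * (Sc j x).card) →
      ((O J).card : ℝ) * ce (O J) g (fun x => fun j : Fin J => v j x) ≤
        δ * (U.card * Real.log U.card + J * U.card) + 2 * ρ * J * U.card +
          Real.log (1 / ρ) * ∑ x ∈ U, ∑ j ∈ range J, (n j x : ℝ) := by
  obtain ⟨lam, al, hlam, hlam1, hal, hal1, Hopd⟩ := opd hδ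
  refine ⟨lam, al, hlam, hlam1, hal, hal1, ?_⟩
  intro ρ h0 h1 U J O Sc n v l g G hO0 hO hg hG hS1 hS2 hS3 hl hv hheavy
  have hopd : OPDp δ lam al := Hopd
  have hlog : 0 ≤ Real.log (1 / ρ) := by
    refine Real.log_nonneg ?_
    rw [le_div_iff₀ h0]
    linarith
  have hOU : ∀ j ≤ J, O j ⊆ U := by
    intro j
    induction j with
    | zero => exact fun _ => hO0
    | succ j ih => exact fun hj => (hO j (by omega)).trans (ih (by omega))
  have key : ∀ j ≤ J, ((O j).card : ℝ) * ce (O j) g (sg n v l G j) +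
      δ * ∑ x ∈ O j, Real.log (fc (O j) (sg n v l G j) x) ≤
      δ * (U.card * Real.log U.card + j * U.card) + 2 * ρ * j * U.card +
          Real.log (1 / ρ) * ∑ x ∈ U, ∑ i ∈ range j, (n i x : ℝ) := by
    intro j
    induction j with
    | zero =>
      intro _
      have b1 : ce (O 0) g (sg n v l G 0) = 0 := ce_const _ _ _ fun x _ y _ _ =>
        sg_iff.2 fun i hi => absurd hi (by omega)
      have b2 : ∑ x ∈ O 0, Real.log (fc (O 0) (sg n v l G 0) x) ≤
          U.card * Real.log U.card := by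
        calc ∑ x ∈ O 0, Real.log (fc (O 0) (sg n v l G 0) x) ≤
              ∑ x ∈ O 0, Real.log U.card := by
              refine sum_le_sum fun x hx => Real.log_le_log (fc_posR hx) (Nat.cast_le.2 ?_)
              exact fc_le.trans (card_le_card hO0)
          _ ≤ ∑ x ∈ U, Real.log U.card :=
              sum_le_sum_of_subset_of_nonneg hO0 fun _ _ _ => Real.log_natCast_nonneg _
          _ = _ := by rw [sum_const, nsmul_eq_mul]
      have b3 := mul_le_mul_of_nonneg_left b2 hδ.le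
      rw [b1]
      simp only [range_zero, sum_empty, sum_const_zero, mul_zero, Nat.cast_zero, zero_mul,
        add_zero, zero_add]
      exact b3
    | succ j ih =>
      intro hj
      have b1 := ih (by omega)
      have hj' : j < J := by omega
      have b2 := step hδ hlam hopd h0 h1 j (hO j hj') (Sc j) g (hg j) (hG j) (hS1 j hj')
        (hS2 j hj') (hS3 j hj') (hl j hj') (hv j hj') (hheavy j hj')
      have hsub := hOU (j + 1) hj
      have b3 : ((O (j + 1)).card : ℝ) ≤ U.card := Nat.cast_le.2 (card_le_card hsub)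
      have b4 : ∑ x ∈ O (j + 1), (2 * ρ + n j x * Real.log (1 / ρ)) ≤
          2 * ρ * U.card + Real.log (1 / ρ) * ∑ x ∈ U, (n j x : ℝ) := by
        calc ∑ x ∈ O (j + 1), (2 * ρ + n j x * Real.log (1 / ρ)) ≤
              ∑ x ∈ U, (2 * ρ + n j x * Real.log (1 / ρ)) :=
              sum_le_sum_of_subset_of_nonneg hsub fun x _ _ => by positivity
          _ = _ := by
              rw [sum_add_distrib, sum_const, nsmul_eq_mul, ← sum_mul]
              ring
      have b5 : ∑ x ∈ U, ∑ i ∈ range (j + 1), (n i x : ℝ) =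
          ∑ x ∈ U, ∑ i ∈ range j, (n i x : ℝ) + ∑ x ∈ U, (n j x : ℝ) := by
        rw [← sum_add_distrib]
        exact sum_congr rfl fun x _ => sum_range_succ _ _
      have b6 := mul_le_mul_of_nonneg_left b3 hδ.le
      rw [b5]
      push_cast
      linarith
  have b1 := key J le_rfl
  have b2 : 0 ≤ δ * ∑ x ∈ O J, Real.log (fc (O J) (sg n v l G J) x) :=
    mul_nonneg hδ.le (sum_nonneg fun x _ => log_fc_nonneg _ _ _)
  have b3 : ce (O J) g (fun x => fun j : Fin J => v j x) ≤ ce (O J) g (sg n v l G J) := by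
    refine ce_mono _ _ _ _ fun x _ y _ _ hk => ?_
    funext j
    exact (sg_iff.1 hk j j.2).2.1
  have b4 := mul_le_mul_of_nonneg_left b3 (by positivity : (0 : ℝ) ≤ (O J).card)
  linarith

end Pool.Agent.T2H12.KH
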