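import Mathlib
import Pool.Agent.T2H12.KD.Main
import Pool.Agent.T2H12.KG.Main

/-!
# At most `C log |A|` popular primes: definitions
-/

set_option autoImplicit false

namespace Pool.Agent.T2H12.KH

open Finset
open scoped Classical
open Pool.Agent.Y359.PE Pool.Agent.T2H12.KF Pool.Agent.T2H12.KD

/-- the residue of `x` modulo `p ^ l` -/
def rp (p l : ℕ) (x : ℤ) : ℤ := x % (p : ℤ) ^ l

lemma rp_eq_iff {p l : ℕ} {x y : ℤ} : rp p l x = rp p l y ↔ (p : ℤ) ^ l ∣ x - y := by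
  unfold rp
  rw [← Int.ModEq.eq_1, Int.modEq_comm, Int.modEq_iff_dvd]

lemma rp_mono {p l l' : ℕ} (h : l ≤ l') {x y : ℤ} (hxy : rp p l' x = rp p l' y) :
    rp p l x = rp p l y := by
  rw [rp_eq_iff] at hxy ⊢
  exact (pow_dvd_pow _ h).trans hxy

lemma rp_zero (p : ℕ) (x y : ℤ) : rp p 0 x = rp p 0 y := by
  rw [rp_eq_iff, pow_zero]
  exact one_dvd _

/-- the residue of `x` modulo `p ^ l` has proportion at least `exp (-t)` in `S` -/
def Hvy (t : ℝ) (S : Finset ℤ) (p l : ℕ) (x : ℤ) : Prop :=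
  (S.card : ℝ) ≤ Real.exp t * fc S (rp p l) x

/-- the number of the elements of `T` whose residue modulo `p ^ l` is rare -/
noncomputable def lgt (t : ℝ) (T : Finset ℤ) (p l : ℕ) : ℕ :=
  (T.filter fun y => ¬ Hvy t T p l y).card

/-- the largest level (at most `N`) at which almost all the elements of `T` have a popular
residue -/
noncomputable def lev (t d : ℝ) (N p : ℕ) (T : Finset ℤ) : ℕ :=
  Nat.findGreatest (fun l => (lgt t T p l : ℝ) ≤ d * T.card) N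

/-- `T` after `n` steps along `b` -/
noncomputable def tn (t d : ℝ) (N p : ℕ) : ℕ → Finset ℤ → ℤ → Finset ℤ
  | 0, T, _ => T
  | n + 1, T, b => tn t d N p n (cl T (rp p (lev t d N p T + 1)) b) b

/-- the parameters -/
structure Par where
  /-- the threshold for the second summand -/
  t : ℝ
  /-- the proportion of the rare residues -/
  d : ℝ
  /-- the threshold for the first summand -/
  u : ℝ
  /-- the proportion of the popular residues -/
  al : ℝ
  /-- the relative cost -/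
  e : ℝ
  /-- the cost of one prime -/
  c : ℝ
  /-- the largest level -/
  N : ℕ

/-- the states: a rectangle and a number of steps -/
abbrev St : Type := Finset ℤ × Finset ℤ × ℕ

/-- the level of a state -/
noncomputable def Par.lv (π : Par) (p : ℕ) (T : Finset ℤ) : ℕ := lev π.t π.d π.N p T

/-- **The result of the process for one prime** on the rectangle `S ×ˢ T`. -/
structure OneP (π : Par) (D : Finset ℤ) (p : ℕ) (S T : Finset ℤ) (F : ℤ × ℤ → St) : Prop where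
  mem : ∀ s ∈ S ×ˢ T, s ∈ (F s).1 ×ˢ (F s).2.1 ∧ (F s).1 ⊆ S ∧ (F s).2.1 ⊆ T
  const : ∀ s ∈ S ×ˢ T, ∀ s' ∈ (F s).1 ×ˢ (F s).2.1, F s' = F s
  chain : ∀ s ∈ S ×ˢ T, (F s).2.1 = tn π.t π.d π.N p (F s).2.2 T s.2
  res : ∀ s ∈ S ×ˢ T, ∀ x ∈ (F s).1, ∀ y ∈ (F s).1,
    rp p (π.lv p (F s).2.1) x = rp p (π.lv p (F s).2.1) y
  stop : ∀ s ∈ S ×ˢ T, ((F s).2.1.card : ℝ) ≤ Real.exp π.t ∨
    (((F s).1.filter fun x => Hvy π.u (F s).1 p (π.lv p (F s).2.1 + 1) x).card : ℝ) <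
      π.al * (F s).1.card
  cost : ∑ m ∈ D, ((S ×ˢ T).card : ℝ) * ce (S ×ˢ T) (fun s => m * s.1 + s.2) F ≤
    D.card * (π.e * ((S ×ˢ T).card * h (S ×ˢ T) F) +
      π.c * ∑ s ∈ S ×ˢ T, (1 + ((F s).2.2 : ℝ)))
  count : π.d * π.t * ∑ s ∈ S ×ˢ T, ((F s).2.2 : ℝ) ≤ (S ×ˢ T).card * h (S ×ˢ T) F

/-- a function whose classes are rectangles which it records -/
structure Rect (U V : Finset ℤ) (F : ℤ × ℤ → St) : Prop where
  mem : ∀ s ∈ U ×ˢ V, s ∈ (F s).1 ×ˢ (F s).2.1 ∧ (F s).1 ⊆ U ∧ (F s).2.1 ⊆ V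
  const : ∀ s ∈ U ×ˢ V, ∀ s' ∈ (F s).1 ×ˢ (F s).2.1, F s' = F s

end Pool.Agent.T2H12.KH
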