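import Mathlib
import Pool.Agent.T2H12.KH.Defs

/-!
# The process for several primes (package MULTI)
-/

set_option autoImplicit false

namespace Pool.Agent.T2H12.KH

open Finset
open scoped Classical
open Pool.Agent.Y359.PE Pool.Agent.T2H12.KF Pool.Agent.T2H12.KD

namespace PkgMulti

/-- the entropy of a refinement -/
lemma comp_h {α β γ : Type*} (X : Finset α) (r : α → β) (F : α → γ)
    (hfin : ∀ x ∈ X, ∀ y ∈ X, F x = F y → r x = r y) :
    (X.card : ℝ) * h X F = X.card * h X r + ∑ x ∈ X, h (cl X r x) F := by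
  rcases X.eq_empty_or_nonempty with h0 | hX
  · subst h0
    simp
  · have hc : (0 : ℝ) < X.card := by exact_mod_cast card_pos.2 hX
    have h1 := chain X r F
    have h2 : h X (fun x => (r x, F x)) = h X F := h_congr fun x hx y hy => by
      rw [Prod.mk.injEq]
      exact ⟨fun h3 => h3.2, fun h3 => ⟨hfin x hx y hy h3, h3⟩⟩
    rw [h2, eq_div_iff hc.ne'] at h1
    linarith

/-- the conditional entropy of a refinement -/
lemma comp_ce {α β γ δ : Type*} (X : Finset α) (r : α → β) (F : α → γ) (z : α → δ)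
    (hfin : ∀ x ∈ X, ∀ y ∈ X, F x = F y → r x = r y) :
    (X.card : ℝ) * ce X z F = X.card * ce X z r + ∑ x ∈ X, ce (cl X r x) z F := by
  have h1 : ce X z F = ce X z (fun x => (r x, F x)) := by
    apply le_antisymm
    · apply ce_mono
      intro x _ y _ _ h2
      exact (Prod.mk.injEq _ _ _ _ ▸ h2).2
    · apply ce_mono
      intro x hx y hy _ h2
      rw [Prod.mk.injEq]
      exact ⟨hfin x hx y hy h2, h2⟩
  rw [h1, ce_chain, mul_add]
  congr 1
  rw [← ce_avg]
  congr 1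
  apply ce_congr_left
  intro x _ y _
  simp only [Prod.mk.injEq]
  tauto

lemma ce_congr_right {α β γ δ : Type*} (X : Finset α) (z : α → δ) (F : α → β) (G : α → γ)
    (hFG : ∀ x ∈ X, ∀ y ∈ X, (F x = F y ↔ G x = G y)) : ce X z F = ce X z G := by
  apply le_antisymm
  · exact ce_mono _ _ _ _ fun x hx y hy _ h2 => (hFG x hx y hy).2 h2
  · exact ce_mono _ _ _ _ fun x hx y hy _ h2 => (hFG x hx y hy).1 h2

lemma OneP_congr {π : Par} {D : Finset ℤ} {p : ℕ} {S T : Finset ℤ} {F G : ℤ × ℤ → St}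
    (hFG : ∀ s ∈ S ×ˢ T, F s = G s) (H : OneP π D p S T F) : OneP π D p S T G where
  mem := by
    intro s hs
    rw [← hFG s hs]
    exact H.mem s hs
  const := by
    intro s hs s' hs'
    rw [← hFG s hs] at hs' ⊢
    have h1 := H.mem s hs
    have h2 : s' ∈ S ×ˢ T := by
      rw [mem_product] at hs' ⊢
      exact ⟨h1.2.1 hs'.1, h1.2.2 hs'.2⟩
    rw [← hFG s' h2]
    exact H.const s hs s' hs'
  chain := by
    intro s hs
    rw [← hFG s hs]
    exact H.chain s hs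
  res := by
    intro s hs
    rw [← hFG s hs]
    exact H.res s hs
  stop := by
    intro s hs
    rw [← hFG s hs]
    exact H.stop s hs
  cost := by
    have h1 : ∀ m : ℤ, ce (S ×ˢ T) (fun s => m * s.1 + s.2) G =
        ce (S ×ˢ T) (fun s => m * s.1 + s.2) F := fun m =>
      ce_congr_right _ _ _ _ fun x hx y hy => by rw [hFG x hx, hFG y hy]
    have h2 : h (S ×ˢ T) G = h (S ×ˢ T) F := h_congr fun x hx y hy => by
      rw [hFG x hx, hFG y hy]
    have h3 : ∑ s ∈ S ×ˢ T, (1 + ((G s).2.2 : ℝ)) = ∑ s ∈ S ×ˢ T, (1 + ((F s).2.2 : ℝ)) :=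
      sum_congr rfl fun s hs => by rw [hFG s hs]
    simp only [h1]
    rw [h2, h3]
    exact H.cost
  count := by
    have h2 : h (S ×ˢ T) G = h (S ×ˢ T) F := h_congr fun x hx y hy => by
      rw [hFG x hx, hFG y hy]
    have h3 : ∑ s ∈ S ×ˢ T, ((G s).2.2 : ℝ) = ∑ s ∈ S ×ˢ T, ((F s).2.2 : ℝ) :=
      sum_congr rfl fun s hs => by rw [hFG s hs]
    rw [h2, h3]
    exact H.count

/-- the classes of a rectangle function -/
lemma cl_rect {U V : Finset ℤ} {F : ℤ × ℤ → St} (H : Rect U V F) {s : ℤ × ℤ} (hs : s ∈ U ×ˢ V) :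
    cl (U ×ˢ V) F s = (F s).1 ×ˢ (F s).2.1 := by
  ext s'
  rw [mem_cl]
  constructor
  · rintro ⟨h1, h2⟩
    have h3 := (H.mem s' h1).1
    rwa [h2] at h3
  · intro h1
    have h2 := H.mem s hs
    refine ⟨?_, H.const s hs s' h1⟩
    rw [mem_product] at h1 ⊢
    exact ⟨h2.2.1 h1.1, h2.2.2 h1.2⟩

/-- one step: from the rectangles of `r` to the finer function `F` -/
lemma step {π : Par} {D : Finset ℤ} {p : ℕ} {U V : Finset ℤ} {r F : ℤ × ℤ → St}
    (H : Rect U V r) (hfin : ∀ x ∈ U ×ˢ V, ∀ y ∈ U ×ˢ V, F x = F y → r x = r y)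
    (hO : ∀ s ∈ U ×ˢ V, OneP π D p (r s).1 (r s).2.1 F) :
    (∑ m ∈ D, ((U ×ˢ V).card : ℝ) * ce (U ×ˢ V) (fun s => m * s.1 + s.2) F ≤
      ∑ m ∈ D, ((U ×ˢ V).card : ℝ) * ce (U ×ˢ V) (fun s => m * s.1 + s.2) r +
        D.card * (π.e * ((U ×ˢ V).card * h (U ×ˢ V) F - (U ×ˢ V).card * h (U ×ˢ V) r) +
          π.c * ∑ s ∈ U ×ˢ V, (1 + ((F s).2.2 : ℝ)))) ∧
    (π.d * π.t * ∑ s ∈ U ×ˢ V, ((F s).2.2 : ℝ) ≤
      (U ×ˢ V).card * h (U ×ˢ V) F - (U ×ˢ V).card * h (U ×ˢ V) r) := by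
  set X := U ×ˢ V with hX
  have hcl : ∀ s ∈ X, cl X r s = (r s).1 ×ˢ (r s).2.1 := fun s hs => cl_rect H hs
  have hfc : ∀ s ∈ X, (0 : ℝ) < ((cl X r s).card : ℝ) := fun s hs => fc_posR hs
  have hh := comp_h X r F hfin
  constructor
  · have h1 : ∑ m ∈ D, (X.card : ℝ) * ce X (fun s => m * s.1 + s.2) F =
        ∑ m ∈ D, (X.card : ℝ) * ce X (fun s => m * s.1 + s.2) r +
        ∑ x ∈ X, ∑ m ∈ D, ce (cl X r x) (fun s => m * s.1 + s.2) F := by
      rw [sum_comm, ← sum_add_distrib]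
      exact sum_congr rfl fun m _ => comp_ce X r F _ hfin
    have h2 : ∀ s ∈ X, ∑ m ∈ D, ce (cl X r s) (fun s => m * s.1 + s.2) F ≤
        D.card * (π.e * h (cl X r s) F +
          π.c * ((∑ y ∈ cl X r s, (1 + ((F y).2.2 : ℝ))) / fc X r s)) := by
      intro s hs
      have h3 := (hO s hs).cost
      rw [← hcl s hs] at h3
      have h4 := hfc s hs
      rw [← mul_sum] at h3
      have h5 : ∑ m ∈ D, ce (cl X r s) (fun s => m * s.1 + s.2) F ≤
          (D.card * (π.e * ((cl X r s).card * h (cl X r s) F) +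
            π.c * ∑ s ∈ cl X r s, (1 + ((F s).2.2 : ℝ)))) / (cl X r s).card := by
        rw [le_div_iff₀ h4]
        linarith
      refine h5.trans (le_of_eq ?_)
      unfold fc
      field_simp
    have h3 := sum_le_sum h2
    rw [← mul_sum, sum_add_distrib, ← mul_sum, ← mul_sum, avg_cl] at h3
    rw [h1]
    have h4 : ∑ x ∈ X, h (cl X r x) F = X.card * h X F - X.card * h X r := by linarith
    rw [h4] at h3
    linarith
  · have h2 : ∀ s ∈ X, π.d * π.t * ((∑ y ∈ cl X r s, ((F y).2.2 : ℝ)) / fc X r s) ≤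
        h (cl X r s) F := by
      intro s hs
      have h3 := (hO s hs).count
      rw [← hcl s hs] at h3
      have h4 := hfc s hs
      unfold fc
      rw [mul_div_assoc', div_le_iff₀ h4]
      linarith
    have h3 := sum_le_sum h2
    rw [← mul_sum, avg_cl] at h3
    linarith

end PkgMulti

open PkgMulti

/-- **The process for several primes.** -/
theorem multi (π : Par) (D : Finset ℤ) (P : ℕ → ℕ) (J : ℕ) (U V : Finset ℤ) (hU : U.Nonempty)
    (hV : V.Nonempty) (γ : ℤ → ℤ) (he : 0 ≤ π.e) (hc : 0 ≤ π.c) (hdt : 0 ≤ π.d * π.t)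
    (hone : ∀ j < J, ∀ S T : Finset ℤ, S.Nonempty → T.Nonempty → S ⊆ U → T ⊆ V →
      ∃ F : ℤ × ℤ → St, OneP π D (P j) S T F) :
    ∃ st : ℕ → ℤ × ℤ → St, (∀ s, st 0 s = (cl U γ s.1, V, 0)) ∧
      (∀ j ≤ J, Rect U V (st j)) ∧
      (∀ j < J, ∀ s ∈ U ×ˢ V, OneP π D (P j) (st j s).1 (st j s).2.1 (st (j + 1))) ∧
      (∑ m ∈ D, ((U ×ˢ V).card : ℝ) * ce (U ×ˢ V) (fun s => m * s.1 + s.2) (st J) ≤
        ∑ m ∈ D, ((U ×ˢ V).card : ℝ) *
          ce (U ×ˢ V) (fun s => m * s.1 + s.2) (fun s => γ s.1) +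
        D.card * (π.e * ((U ×ˢ V).card * h (U ×ˢ V) (st J)) +
          π.c * ∑ j ∈ range J, ∑ s ∈ U ×ˢ V, (1 + ((st (j + 1) s).2.2 : ℝ)))) ∧
      (π.d * π.t * ∑ j ∈ range J, ∑ s ∈ U ×ˢ V, ((st (j + 1) s).2.2 : ℝ) ≤
        (U ×ˢ V).card * h (U ×ˢ V) (st J)) := by
  have hex : ∀ (j : ℕ) (S T : Finset ℤ), ∃ F : ℤ × ℤ → St,
      j < J → S.Nonempty → T.Nonempty → S ⊆ U → T ⊆ V → OneP π D (P j) S T F := by
    intro j S T
    by_cases h1 : j < J ∧ S.Nonempty ∧ T.Nonempty ∧ S ⊆ U ∧ T ⊆ V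
    · obtain ⟨F, hF⟩ := hone j h1.1 S T h1.2.1 h1.2.2.1 h1.2.2.2.1 h1.2.2.2.2
      exact ⟨F, fun _ _ _ _ _ => hF⟩
    · exact ⟨fun _ => (∅, ∅, 0), fun a b c d e => absurd ⟨a, b, c, d, e⟩ h1⟩
  choose OP hOP using hex
  let st : ℕ → ℤ × ℤ → St := fun j => Nat.rec (fun s => (cl U γ s.1, V, 0))
    (fun j f s => OP j (f s).1 (f s).2.1 s) j
  have st0 : ∀ s, st 0 s = (cl U γ s.1, V, 0) := fun s => rfl
  have stS : ∀ j s, st (j + 1) s = OP j (st j s).1 (st j s).2.1 s := fun j s => rfl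
  clear_value st
  -- the statement for one prime on a rectangle of `st j`
  have hOne : ∀ j < J, Rect U V (st j) → ∀ s ∈ U ×ˢ V,
      OneP π D (P j) (st j s).1 (st j s).2.1 (OP j (st j s).1 (st j s).2.1) ∧
      (∀ s' ∈ (st j s).1 ×ˢ (st j s).2.1, OP j (st j s).1 (st j s).2.1 s' = st (j + 1) s') := by
    intro j hj H s hs
    have h1 := H.mem s hs
    have h2 := h1.1
    rw [mem_product] at h2
    refine ⟨hOP j _ _ hj ⟨_, h2.1⟩ ⟨_, h2.2⟩ h1.2.1 h1.2.2, fun s' hs' => ?_⟩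
    rw [stS, H.const s hs s' hs']
  have hRect : ∀ j ≤ J, Rect U V (st j) := by
    intro j
    induction j with
    | zero =>
      intro _
      constructor
      · intro s hs
        rw [mem_product] at hs
        rw [st0, mem_product]
        exact ⟨⟨mem_cl.2 ⟨hs.1, rfl⟩, hs.2⟩, fun x hx => (mem_cl.1 hx).1, subset_rfl⟩
      · intro s hs s' hs'
        rw [st0, mem_product] at hs'
        rw [st0, st0, cl_congr (mem_cl.1 hs'.1).2]
    | succ j ih =>
      intro hj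
      have H := ih (by omega)
      constructor
      · intro s hs
        obtain ⟨h1, h2⟩ := hOne j (by omega) H s hs
        have h3 := H.mem s hs
        have h4 := h1.mem s h3.1
        rw [h2 s h3.1] at h4
        exact ⟨h4.1, h4.2.1.trans h3.2.1, h4.2.2.trans h3.2.2⟩
      · intro s hs s' hs'
        obtain ⟨h1, h2⟩ := hOne j (by omega) H s hs
        have h3 := H.mem s hs
        have h4 := h1.mem s h3.1
        have h5 := h1.const s h3.1 s'
        rw [h2 s h3.1] at h4 h5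
        have h6 : s' ∈ (st j s).1 ×ˢ (st j s).2.1 := by
          rw [mem_product] at hs' ⊢
          exact ⟨h4.2.1 hs'.1, h4.2.2 hs'.2⟩
        rw [← h2 s' h6]
        exact h5 hs'
  have hO : ∀ j < J, ∀ s ∈ U ×ˢ V, OneP π D (P j) (st j s).1 (st j s).2.1 (st (j + 1)) := by
    intro j hj s hs
    obtain ⟨h1, h2⟩ := hOne j hj (hRect j hj.le) s hs
    exact OneP_congr h2 h1
  have hfin : ∀ j < J, ∀ x ∈ U ×ˢ V, ∀ y ∈ U ×ˢ V, st (j + 1) x = st (j + 1) y →
      st j x = st j y := by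
    intro j hj x hx y hy hxy
    have H := hRect j hj.le
    have h3 := H.mem x hx
    have h4 := (hO j hj x hx).mem x h3.1
    have h5 := ((hRect (j + 1) hj).mem y hy).1
    rw [← hxy] at h5
    have h6 : y ∈ (st j x).1 ×ˢ (st j x).2.1 := by
      rw [mem_product] at h5 ⊢
      exact ⟨h4.2.1 h5.1, h4.2.2 h5.2⟩
    exact (H.const x hx y h6).symm
  have hall : ∀ j ≤ J,
      (∑ m ∈ D, ((U ×ˢ V).card : ℝ) * ce (U ×ˢ V) (fun s => m * s.1 + s.2) (st j) ≤
        ∑ m ∈ D, ((U ×ˢ V).card : ℝ) *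
          ce (U ×ˢ V) (fun s => m * s.1 + s.2) (fun s => γ s.1) +
        D.card * (π.e * ((U ×ˢ V).card * h (U ×ˢ V) (st j)) +
          π.c * ∑ i ∈ range j, ∑ s ∈ U ×ˢ V, (1 + ((st (i + 1) s).2.2 : ℝ)))) ∧
      (π.d * π.t * ∑ i ∈ range j, ∑ s ∈ U ×ˢ V, ((st (i + 1) s).2.2 : ℝ) ≤
        (U ×ˢ V).card * h (U ×ˢ V) (st j)) := by
    intro j
    induction j with
    | zero =>
      intro _
      have h0 : 0 ≤ h (U ×ˢ V) (st 0) := h_nonneg _ _
      constructor
      · have h1 : ∀ m : ℤ, ce (U ×ˢ V) (fun s => m * s.1 + s.2) (st 0) =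
            ce (U ×ˢ V) (fun s => m * s.1 + s.2) (fun s => γ s.1) := fun m =>
          ce_congr_right _ _ _ _ fun x hx y hy => by
            rw [st0, st0]
            constructor
            · intro h2
              have h3 : cl U γ x.1 = cl U γ y.1 := congrArg Prod.fst h2
              have h4 : x.1 ∈ cl U γ x.1 := mem_cl.2 ⟨(mem_product.1 hx).1, rfl⟩
              rw [h3] at h4
              exact (mem_cl.1 h4).2
            · intro h2
              rw [cl_congr h2]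
        simp only [h1]
        have : 0 ≤ (D.card : ℝ) * (π.e * ((U ×ˢ V).card * h (U ×ˢ V) (st 0)) +
          π.c * ∑ i ∈ range 0, ∑ s ∈ U ×ˢ V, (1 + ((st (i + 1) s).2.2 : ℝ))) := by
          rw [range_zero, sum_empty]
          positivity
        linarith
      · rw [range_zero, sum_empty, mul_zero]
        positivity
    | succ j ih =>
      intro hj
      obtain ⟨i1, i2⟩ := ih (by omega)
      obtain ⟨s1, s2⟩ := step (hRect j (by omega)) (hfin j hj) (hO j hj)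
      constructor
      · rw [sum_range_succ]
        refine s1.trans ((add_le_add_left i1 _).trans (le_of_eq ?_))
        ring
      · rw [sum_range_succ, mul_add]
        linarith
  exact ⟨st, st0, hRect, hO, (hall J le_rfl).1, (hall J le_rfl).2⟩

end Pool.Agent.T2H12.KH
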