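import Mathlib
import Pool.Agent.T2H12.KH.Defs

/-!
# The second rule (package R2)
-/

set_option autoImplicit false

namespace Pool.Agent.T2H12.KH

open Finset
open scoped Classical
open Pool.Agent.Y359.PE Pool.Agent.T2H12.KF Pool.Agent.T2H12.KD

/-- what the second rule reveals -/
noncomputable def r2 (u : ℝ) (S : Finset ℤ) (p l : ℕ) (s : ℤ × ℤ) : Option (ℤ × ℤ) :=
  if Hvy u S p l s.1 then some (rp p l s.1, rp p l s.2) else none

/-- the popular residue, or nothing -/
noncomputable def q2 (u : ℝ) (S : Finset ℤ) (p l : ℕ) (x : ℤ) : Option ℤ :=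
  if Hvy u S p l x then some (rp p l x) else none

lemma hvy_congr {u : ℝ} {S : Finset ℤ} {p l : ℕ} {x y : ℤ} (hxy : rp p l x = rp p l y) :
    Hvy u S p l x ↔ Hvy u S p l y := by
  unfold Hvy
  rw [fc_congr hxy]

/-- `x log (1 / x)` is at most `log 2` -/
lemma small_log {a b : ℝ} (ha : 0 < a) (hb : 0 < b) :
    a * (Real.log b - Real.log a) ≤ b * Real.log 2 := by
  have h1 : Real.log (b / a) ≤ b / a / Real.exp 1 := by
    have h2 := Real.add_one_le_exp (Real.log (b / a) - 1)
    rw [Real.exp_sub, Real.exp_log (by positivity)] at h2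
    linarith
  rw [Real.log_div hb.ne' ha.ne'] at h1
  have h3 : a * (Real.log b - Real.log a) ≤ b / Real.exp 1 := by
    calc a * (Real.log b - Real.log a) ≤ a * (b / a / Real.exp 1) :=
          mul_le_mul_of_nonneg_left h1 ha.le
      _ = b / Real.exp 1 := by field_simp
  refine h3.trans ?_
  rw [div_eq_mul_inv]
  refine mul_le_mul_of_nonneg_left ?_ hb.le
  have h4 := Real.exp_one_gt_d9
  have h5 := Real.log_two_gt_d9
  rw [inv_le_comm₀ (by positivity) (by positivity)]
  have h6 : (Real.log 2)⁻¹ ≤ 2 := by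
    rw [inv_le_comm₀ (by positivity) (by positivity)]
    linarith
  linarith

lemma h_q2_le (u : ℝ) (S : Finset ℤ) (p l : ℕ) (hS : S.Nonempty) (hu : 0 ≤ u) :
    h S (q2 u S p l) ≤ Real.log 2 + u := by
  have hc : (0 : ℝ) < S.card := by exact_mod_cast card_pos.2 hS
  unfold h
  rw [div_le_iff₀ hc]
  have hl2 : 0 ≤ Real.log 2 := Real.log_nonneg (by norm_num)
  rw [← sum_filter_add_sum_filter_not S (fun x => Hvy u S p l x)]
  have h1 : ∑ x ∈ S.filter (fun x => Hvy u S p l x),
      (Real.log S.card - Real.log (fc S (q2 u S p l) x)) ≤ S.card * u := by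
    calc ∑ x ∈ S.filter (fun x => Hvy u S p l x),
          (Real.log S.card - Real.log (fc S (q2 u S p l) x))
        ≤ ∑ x ∈ S.filter (fun x => Hvy u S p l x), u := by
          refine sum_le_sum fun x hx => ?_
          obtain ⟨hxS, hxH⟩ := mem_filter.1 hx
          have e1 : fc S (rp p l) x ≤ fc S (q2 u S p l) x := by
            refine card_le_card fun y hy => ?_
            obtain ⟨hy1, hy2⟩ := mem_cl.1 hy
            refine mem_cl.2 ⟨hy1, ?_⟩
            unfold q2
            rw [if_pos hxH, if_pos ((hvy_congr hy2).2 hxH), hy2]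
          have e2 : (S.card : ℝ) ≤ Real.exp u * fc S (q2 u S p l) x := by
            refine (show (S.card : ℝ) ≤ Real.exp u * fc S (rp p l) x from hxH).trans ?_
            refine mul_le_mul_of_nonneg_left ?_ (Real.exp_pos _).le
            exact_mod_cast e1
          have e3 := fc_posR (f := q2 u S p l) hxS
          have e4 := Real.log_le_log hc e2
          rw [Real.log_mul (Real.exp_pos _).ne' e3.ne', Real.log_exp] at e4
          linarith
      _ = ((S.filter fun x => Hvy u S p l x).card : ℝ) * u := by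
          rw [sum_const, nsmul_eq_mul]
      _ ≤ S.card * u := by
          refine mul_le_mul_of_nonneg_right ?_ hu
          exact_mod_cast card_le_card (filter_subset _ _)
  have h2 : ∑ x ∈ S.filter (fun x => ¬ Hvy u S p l x),
      (Real.log S.card - Real.log (fc S (q2 u S p l) x)) ≤ S.card * Real.log 2 := by
    rcases (S.filter fun x => ¬ Hvy u S p l x).eq_empty_or_nonempty with h0 | h0
    · rw [h0, sum_empty]
      positivity
    · have hd : (0 : ℝ) < ((S.filter fun x => ¬ Hvy u S p l x).card : ℝ) := by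
        exact_mod_cast card_pos.2 h0
      calc ∑ x ∈ S.filter (fun x => ¬ Hvy u S p l x),
            (Real.log S.card - Real.log (fc S (q2 u S p l) x))
          = ∑ x ∈ S.filter (fun x => ¬ Hvy u S p l x),
            (Real.log S.card - Real.log ((S.filter fun x => ¬ Hvy u S p l x).card : ℝ)) := by
            refine sum_congr rfl fun x hx => ?_
            obtain ⟨hxS, hxH⟩ := mem_filter.1 hx
            have e1 : cl S (q2 u S p l) x = S.filter fun x => ¬ Hvy u S p l x := by
              ext y
              rw [mem_cl, mem_filter]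
              unfold q2
              rw [if_neg hxH]
              refine and_congr_right fun _ => ?_
              by_cases hy : Hvy u S p l y
              · rw [if_pos hy]
                simp [hy]
              · rw [if_neg hy]
                simp [hy]
            unfold fc
            rw [e1]
        _ = ((S.filter fun x => ¬ Hvy u S p l x).card : ℝ) *
            (Real.log S.card - Real.log ((S.filter fun x => ¬ Hvy u S p l x).card : ℝ)) := by
            rw [sum_const, nsmul_eq_mul]
        _ ≤ S.card * Real.log 2 := small_log hd hc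
  linarith

/-- **The second rule.** -/
theorem rule2 (π : Par) (p l : ℕ) (S T : Finset ℤ) (hS : S.Nonempty) (hT : T.Nonempty)
    (hd : 0 ≤ π.d) (ht : 0 ≤ π.t) (hu : 0 ≤ π.u) (hal : 0 ≤ π.al) (he : 0 ≤ π.e)
    (hpar : Real.log 2 + π.u ≤ π.e * (π.al * π.d * π.t))
    (h1 : π.al * S.card ≤ ((S.filter fun x => Hvy π.u S p l x).card : ℝ))
    (h2 : π.d * T.card < lgt π.t T p l) :
    (∀ m : ℤ, ce (S ×ˢ T) (fun s => m * s.1 + s.2) (r2 π.u S p l) ≤
      π.e * h (S ×ˢ T) (r2 π.u S p l)) ∧
    π.d * π.t * ((S.filter fun x => Hvy π.u S p l x).card : ℝ) ≤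
      S.card * h (S ×ˢ T) (r2 π.u S p l) := by
  have hSc : (0 : ℝ) < S.card := by exact_mod_cast card_pos.2 hS
  have hTc : (0 : ℝ) < T.card := by exact_mod_cast card_pos.2 hT
  have hW : (S ×ˢ T).Nonempty := hS.product hT
  have hWc : (0 : ℝ) < ((S ×ˢ T).card : ℝ) := by exact_mod_cast card_pos.2 hW
  have hcard : ((S ×ˢ T).card : ℝ) = S.card * T.card := by
    rw [card_product]
    push_cast
    rfl
  -- the second claim
  have hB : π.d * π.t * ((S.filter fun x => Hvy π.u S p l x).card : ℝ) ≤
      S.card * h (S ×ˢ T) (r2 π.u S p l) := by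
    have e0 : ((S ×ˢ T).card : ℝ) * h (S ×ˢ T) (r2 π.u S p l) = ∑ s ∈ S ×ˢ T,
        (Real.log (S ×ˢ T).card - Real.log (fc (S ×ˢ T) (r2 π.u S p l) s)) := by
      unfold h
      rw [mul_div_cancel₀ _ hWc.ne']
    have e1 : ∑ s ∈ (S.filter fun x => Hvy π.u S p l x) ×ˢ (T.filter fun y => ¬ Hvy π.t T p l y),
        π.t ≤ ∑ s ∈ S ×ˢ T,
        (Real.log (S ×ˢ T).card - Real.log (fc (S ×ˢ T) (r2 π.u S p l) s)) := by
      refine (sum_le_sum (g := fun s => Real.log (S ×ˢ T).card -
        Real.log (fc (S ×ˢ T) (r2 π.u S p l) s)) fun s hs => ?_).trans ?_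
      · obtain ⟨hs1, hs2⟩ := mem_product.1 hs
        obtain ⟨hs1, hs1'⟩ := mem_filter.1 hs1
        obtain ⟨hs2, hs2'⟩ := mem_filter.1 hs2
        have a0 : s ∈ S ×ˢ T := mem_product.2 ⟨hs1, hs2⟩
        have a1 : fc (S ×ˢ T) (r2 π.u S p l) s ≤ S.card * fc T (rp p l) s.2 := by
          unfold fc
          rw [← card_product]
          refine card_le_card fun y hy => ?_
          obtain ⟨hy1, hy2⟩ := mem_cl.1 hy
          obtain ⟨hy3, hy4⟩ := mem_product.1 hy1
          refine mem_product.2 ⟨hy3, mem_cl.2 ⟨hy4, ?_⟩⟩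
          unfold r2 at hy2
          rw [if_pos hs1'] at hy2
          by_cases hyH : Hvy π.u S p l y.1
          · rw [if_pos hyH, Option.some_inj, Prod.mk.injEq] at hy2
            exact hy2.2
          · rw [if_neg hyH] at hy2
            exact absurd hy2 (by simp)
        have a2 : (fc (S ×ˢ T) (r2 π.u S p l) s : ℝ) ≤ S.card * fc T (rp p l) s.2 := by
          exact_mod_cast a1
        have a3 := fc_posR (f := rp p l) hs2
        have a4 := Real.log_le_log (fc_posR (f := r2 π.u S p l) a0) a2
        rw [Real.log_mul hSc.ne' a3.ne'] at a4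
        have a5 : Real.exp π.t * fc T (rp p l) s.2 < T.card := not_le.1 hs2'
        have a6 := Real.log_le_log (by positivity) a5.le
        rw [Real.log_mul (Real.exp_pos _).ne' a3.ne', Real.log_exp] at a6
        rw [hcard, Real.log_mul hSc.ne' hTc.ne']
        linarith
      · refine sum_le_sum_of_subset_of_nonneg ?_ ?_
        · exact product_subset_product (filter_subset _ _) (filter_subset _ _)
        · intro s hs _
          have a1 := fc_posR (f := r2 π.u S p l) hs
          have a2 : (fc (S ×ˢ T) (r2 π.u S p l) s : ℝ) ≤ ((S ×ˢ T).card : ℝ) := by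
            exact_mod_cast fc_le
          have := Real.log_le_log a1 a2
          linarith
    rw [sum_const, nsmul_eq_mul, card_product, ← e0, hcard] at e1
    have e2 : (lgt π.t T p l : ℝ) = ((T.filter fun y => ¬ Hvy π.t T p l y).card : ℝ) := rfl
    push_cast at e1
    rw [← e2] at e1
    have e3 : ((S.filter fun x => Hvy π.u S p l x).card : ℝ) * (π.d * T.card) * π.t ≤
        ((S.filter fun x => Hvy π.u S p l x).card : ℝ) * lgt π.t T p l * π.t :=
      mul_le_mul_of_nonneg_right (mul_le_mul_of_nonneg_left h2.le (by positivity)) ht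
    have e4 : (T.card : ℝ) * (π.d * π.t * ((S.filter fun x => Hvy π.u S p l x).card : ℝ)) ≤
        T.card * (S.card * h (S ×ˢ T) (r2 π.u S p l)) := by linarith
    exact le_of_mul_le_mul_left e4 hTc
  refine ⟨fun m => ?_, hB⟩
  -- the first claim
  have c1 : ce (S ×ˢ T) (fun s => m * s.1 + s.2) (r2 π.u S p l) ≤
      ce (S ×ˢ T) (fun s => m * s.1 + s.2) (fun s => q2 π.u S p l s.1) := by
    refine ce_mono _ _ _ _ ?_
    intro x _ y _ hz hq
    unfold q2 at hq
    unfold r2
    by_cases hx : Hvy π.u S p l x.1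
    · by_cases hy : Hvy π.u S p l y.1
      · rw [if_pos hx, if_pos hy, Option.some_inj] at hq
        rw [if_pos hx, if_pos hy, Option.some_inj, Prod.mk.injEq]
        refine ⟨hq, ?_⟩
        rw [rp_eq_iff] at hq ⊢
        have : x.2 - y.2 = -m * (x.1 - y.1) := by linarith
        rw [this]
        exact Dvd.dvd.mul_left hq _
      · rw [if_pos hx, if_neg hy] at hq
        exact absurd hq (by simp)
    · by_cases hy : Hvy π.u S p l y.1
      · rw [if_neg hx, if_pos hy] at hq
        exact absurd hq (by simp)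
      · rw [if_neg hx, if_neg hy]
  have c2 := ce_le_h (S ×ˢ T) (fun s => m * s.1 + s.2) (fun s => q2 π.u S p l s.1)
  have c3 := h_fst S T hS hT (q2 π.u S p l)
  have c4 := h_q2_le π.u S p l hS hu
  have c5 : π.al * π.d * π.t ≤ h (S ×ˢ T) (r2 π.u S p l) := by
    have d1 : π.d * π.t * (π.al * S.card) ≤ S.card * h (S ×ˢ T) (r2 π.u S p l) :=
      (mul_le_mul_of_nonneg_left h1 (mul_nonneg hd ht)).trans hB
    have d2 : (S.card : ℝ) * (π.al * π.d * π.t) ≤ S.card * h (S ×ˢ T) (r2 π.u S p l) := by
      linarith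
    exact le_of_mul_le_mul_left d2 hSc
  have c6 := mul_le_mul_of_nonneg_left c5 he
  linarith

end Pool.Agent.T2H12.KH
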