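import Mathlib
import Pool.Agent.T2H12.KH.Rule2

/-!
# The process for one prime (package ONE)
-/

set_option autoImplicit false

namespace Pool.Agent.T2H12.KH

open Finset
open scoped Classical
open Pool.Agent.Y359.PE Pool.Agent.T2H12.KF Pool.Agent.T2H12.KD

namespace OneAux

/-! ### The composition lemmas -/

section Comp

variable {α β γ δ : Type*}

lemma cl_sub (S : Finset α) (f : α → β) (x : α) : cl S f x ⊆ S := filter_subset _ _

lemma comp_h (X : Finset α) (r : α → β) (F : α → γ)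
    (hfin : ∀ s ∈ X, ∀ s' ∈ X, F s = F s' → r s = r s') :
    (X.card : ℝ) * h X F = X.card * h X r + ∑ s ∈ X, h (cl X r s) F := by
  rcases X.eq_empty_or_nonempty with h0 | hX
  · subst h0
    simp
  have hc : (0 : ℝ) < X.card := by exact_mod_cast card_pos.2 hX
  have h1 := chain X r F
  have h2 : h X (fun x => (r x, F x)) = h X F := h_congr fun x hx y hy => by
    rw [Prod.mk.injEq]
    exact ⟨fun h3 => h3.2, fun h3 => ⟨hfin x hx y hy h3, h3⟩⟩
  rw [h2] at h1
  have h3 : (X.card : ℝ) * (h X F - h X r) = ∑ s ∈ X, h (cl X r s) F := by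
    rw [h1, mul_div_cancel₀ _ hc.ne']
  linarith

lemma comp_ce (X : Finset α) (z : α → δ) (r : α → β) (F : α → γ)
    (hfin : ∀ s ∈ X, ∀ s' ∈ X, F s = F s' → r s = r s') :
    (X.card : ℝ) * ce X z F = X.card * ce X z r + ∑ s ∈ X, ce (cl X r s) z F := by
  have h1 : ce X z F = ce X z (fun x => (r x, F x)) := by
    refine le_antisymm (ce_mono X z F _ fun x _ y _ _ h3 => ?_)
      (ce_mono X z _ F fun x hx y hy _ h3 => ?_)
    · rw [Prod.mk.injEq] at h3
      exact h3.2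
    · rw [Prod.mk.injEq]
      exact ⟨hfin x hx y hy h3, h3⟩
  have h2 : ce X (fun x => (z x, r x)) F = ce X (fun x => (r x, z x)) F :=
    ce_congr_left X _ _ F fun x _ y _ => by
      rw [Prod.mk.injEq, Prod.mk.injEq]
      exact and_comm
  have h3 := ce_avg X r z F
  rw [h1, ce_chain, h2, mul_add, h3]

lemma comp_cost {ι : Type*} (D : Finset ι) (X : Finset α) (z : ι → α → δ) (r : α → β) (F : α → γ)
    (e c w0 : ℝ) (w : α → ℝ)
    (hfin : ∀ s ∈ X, ∀ s' ∈ X, F s = F s' → r s = r s')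
    (hcl : ∀ s ∈ X, ∑ m ∈ D, ((cl X r s).card : ℝ) * ce (cl X r s) (z m) F ≤
      D.card * (e * ((cl X r s).card * h (cl X r s) F) + c * ∑ s' ∈ cl X r s, w s'))
    (hroot : ∑ m ∈ D, (X.card : ℝ) * ce X (z m) r ≤
      D.card * (e * (X.card * h X r) + c * (X.card * w0))) :
    ∑ m ∈ D, (X.card : ℝ) * ce X (z m) F ≤
      D.card * (e * (X.card * h X F) + c * ∑ s ∈ X, (w0 + w s)) := by
  have h1 : ∑ m ∈ D, (X.card : ℝ) * ce X (z m) F =
      ∑ m ∈ D, (X.card : ℝ) * ce X (z m) r + ∑ s ∈ X, ∑ m ∈ D, ce (cl X r s) (z m) F := by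
    rw [sum_congr rfl fun m _ => comp_ce X (z m) r F hfin, sum_add_distrib]
    congr 1
    exact sum_comm
  have h2 : ∀ s ∈ X, ∑ m ∈ D, ce (cl X r s) (z m) F ≤
      D.card * (e * h (cl X r s) F + c * ((∑ s' ∈ cl X r s, w s') / fc X r s)) := by
    intro s hs
    have h3 := hcl s hs
    have h4 : (0 : ℝ) < fc X r s := fc_posR hs
    have h5 : ((cl X r s).card : ℝ) = fc X r s := rfl
    rw [h5, ← mul_sum] at h3
    have h6 : (D.card : ℝ) * (e * (fc X r s * h (cl X r s) F) + c * ∑ s' ∈ cl X r s, w s') =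
        fc X r s * (D.card * (e * h (cl X r s) F +
          c * ((∑ s' ∈ cl X r s, w s') / fc X r s))) := by
      field_simp
    rw [h6] at h3
    exact le_of_mul_le_mul_left h3 h4
  have h3 := sum_le_sum h2
  have h4 : ∑ s ∈ X, (D.card : ℝ) * (e * h (cl X r s) F +
      c * ((∑ s' ∈ cl X r s, w s') / fc X r s)) =
      D.card * (e * ∑ s ∈ X, h (cl X r s) F + c * ∑ s ∈ X, w s) := by
    rw [← mul_sum, sum_add_distrib, ← mul_sum, ← mul_sum, avg_cl X r w]
  rw [h4] at h3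
  have h5 := comp_h X r F hfin
  rw [h1]
  have h6 : ∑ s ∈ X, (w0 + w s) = X.card * w0 + ∑ s ∈ X, w s := by
    rw [sum_add_distrib, sum_const, nsmul_eq_mul]
  rw [h6, h5]
  calc _ ≤ (D.card : ℝ) * (e * (X.card * h X r) + c * (X.card * w0)) +
        D.card * (e * ∑ s ∈ X, h (cl X r s) F + c * ∑ s ∈ X, w s) := add_le_add hroot h3
    _ = _ := by ring

lemma comp_count (X : Finset α) (r : α → β) (F : α → γ) (q : ℝ) (n k : α → ℝ)
    (hfin : ∀ s ∈ X, ∀ s' ∈ X, F s = F s' → r s = r s')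
    (hcl : ∀ s ∈ X, q * ∑ s' ∈ cl X r s, n s' ≤ (cl X r s).card * h (cl X r s) F)
    (hroot : q * ∑ s ∈ X, k s ≤ X.card * h X r) :
    q * ∑ s ∈ X, (n s + k s) ≤ X.card * h X F := by
  have h2 : ∀ s ∈ X, q * ((∑ s' ∈ cl X r s, n s') / fc X r s) ≤ h (cl X r s) F := by
    intro s hs
    have h3 := hcl s hs
    have h4 : (0 : ℝ) < fc X r s := fc_posR hs
    have h5 : ((cl X r s).card : ℝ) = fc X r s := rfl
    rw [h5] at h3
    have h6 : q * ∑ s' ∈ cl X r s, n s' =
        fc X r s * (q * ((∑ s' ∈ cl X r s, n s') / fc X r s)) := by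
      field_simp
    rw [h6] at h3
    exact le_of_mul_le_mul_left h3 h4
  have h3 := sum_le_sum h2
  rw [← mul_sum, avg_cl X r n] at h3
  rw [comp_h X r F hfin, sum_add_distrib, mul_add]
  linarith

end Comp

/-- the result of the process with a variable constant in the cost -/
structure OnePw (π : Par) (D : Finset ℤ) (p : ℕ) (w : ℝ) (S T : Finset ℤ) (F : ℤ × ℤ → St) :
    Prop where
  mem : ∀ s ∈ S ×ˢ T, s ∈ (F s).1 ×ˢ (F s).2.1 ∧ (F s).1 ⊆ S ∧ (F s).2.1 ⊆ T
  const : ∀ s ∈ S ×ˢ T, ∀ s' ∈ (F s).1 ×ˢ (F s).2.1, F s' = F s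
  chain : ∀ s ∈ S ×ˢ T, (F s).2.1 = tn π.t π.d π.N p (F s).2.2 T s.2
  res : ∀ s ∈ S ×ˢ T, ∀ x ∈ (F s).1, ∀ y ∈ (F s).1,
    rp p (π.lv p (F s).2.1) x = rp p (π.lv p (F s).2.1) y
  stop : ∀ s ∈ S ×ˢ T, ((F s).2.1.card : ℝ) ≤ Real.exp π.t ∨
    (((F s).1.filter fun x => Hvy π.u (F s).1 p (π.lv p (F s).2.1 + 1) x).card : ℝ) <
      π.al * (F s).1.card
  cost : ∑ m ∈ D, ((S ×ˢ T).card : ℝ) * ce (S ×ˢ T) (fun s => m * s.1 + s.2) F ≤
    D.card * (π.e * ((S ×ˢ T).card * h (S ×ˢ T) F) +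
      π.c * ∑ s ∈ S ×ˢ T, (w + ((F s).2.2 : ℝ)))
  count : π.d * π.t * ∑ s ∈ S ×ˢ T, ((F s).2.2 : ℝ) ≤ (S ×ˢ T).card * h (S ×ˢ T) F

lemma OnePw.toOneP {π : Par} {D : Finset ℤ} {p : ℕ} {S T : Finset ℤ} {F : ℤ × ℤ → St}
    (hF : OnePw π D p 1 S T F) : OneP π D p S T F :=
  ⟨hF.mem, hF.const, hF.chain, hF.res, hF.stop, hF.cost, hF.count⟩

/-- a choice of the process, depending only on the rectangle and on the constant -/
noncomputable def Gc (π : Par) (D : Finset ℤ) (p : ℕ) (w : ℝ) (S T : Finset ℤ) : ℤ × ℤ → St :=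
  if hG : ∃ G, OnePw π D p w S T G then hG.choose else fun _ => (S, T, 0)

lemma Gc_spec {π : Par} {D : Finset ℤ} {p : ℕ} {w : ℝ} {S T : Finset ℤ}
    (hG : ∃ G, OnePw π D p w S T G) : OnePw π D p w S T (Gc π D p w S T) := by
  unfold Gc
  rw [dif_pos hG]
  exact hG.choose_spec

/-- **Composition.** -/
lemma compose {ρ : Type*} (π : Par) (D : Finset ℤ) (p : ℕ) (w w0 : ℝ) (S T : Finset ℤ)
    (r : ℤ × ℤ → ρ) (A B : ℤ × ℤ → Finset ℤ) (k : ℤ × ℤ → ℕ) (w1 : ℤ × ℤ → ℝ)
    (hA : ∀ s ∈ S ×ˢ T, A s ⊆ S) (hB : ∀ s ∈ S ×ˢ T, B s ⊆ T)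
    (hcl : ∀ s ∈ S ×ˢ T, cl (S ×ˢ T) r s = A s ×ˢ B s)
    (hr : ∀ s ∈ S ×ˢ T, ∀ s' ∈ S ×ˢ T, r s' = r s → A s' = A s ∧ B s' = B s ∧ k s' = k s ∧
      w1 s' = w1 s)
    (hG : ∀ s ∈ S ×ˢ T, ∃ G, OnePw π D p (w1 s) (A s) (B s) G)
    (htn : ∀ s ∈ S ×ˢ T, ∀ n, tn π.t π.d π.N p (n + k s) T s.2 =
      tn π.t π.d π.N p n (B s) s.2)
    (hw : ∀ s ∈ S ×ˢ T, w0 + w1 s = w + k s)
    (hcost : ∑ m ∈ D, ((S ×ˢ T).card : ℝ) * ce (S ×ˢ T) (fun s => m * s.1 + s.2) r ≤
      D.card * (π.e * ((S ×ˢ T).card * h (S ×ˢ T) r) + π.c * ((S ×ˢ T).card * w0)))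
    (hcount : π.d * π.t * ∑ s ∈ S ×ˢ T, (k s : ℝ) ≤ (S ×ˢ T).card * h (S ×ˢ T) r) :
    ∃ F, OnePw π D p w S T F := by
  set X := S ×ˢ T with hX
  set G : ℤ × ℤ → ℤ × ℤ → St := fun s => Gc π D p (w1 s) (A s) (B s) with hGdef
  have hGs : ∀ s ∈ X, OnePw π D p (w1 s) (A s) (B s) (G s) := fun s hs => Gc_spec (hG s hs)
  have hGc : ∀ s ∈ X, ∀ s' ∈ X, r s' = r s → G s' = G s := by
    intro s hs s' hs' hrs
    obtain ⟨h1, h2, h3, h4⟩ := hr s hs s' hs' hrs
    simp only [hGdef, h1, h2, h4]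
  set F : ℤ × ℤ → St := fun s => ((G s s).1, (G s s).2.1, (G s s).2.2 + k s) with hF
  have hself : ∀ s ∈ X, s ∈ A s ×ˢ B s := by
    intro s hs
    rw [← hcl s hs]
    exact mem_cl.2 ⟨hs, rfl⟩
  have hsub : ∀ s ∈ X, (F s).1 ×ˢ (F s).2.1 ⊆ A s ×ˢ B s := by
    intro s hs
    obtain ⟨h1, h2, h3⟩ := (hGs s hs).mem s (hself s hs)
    exact product_subset_product h2 h3
  have hin : ∀ s ∈ X, ∀ s' ∈ (F s).1 ×ˢ (F s).2.1, s' ∈ X ∧ r s' = r s := by
    intro s hs s' hs'
    have h1 := hsub s hs hs'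
    rw [← hcl s hs] at h1
    exact mem_cl.1 h1
  have hfin : ∀ s ∈ X, ∀ s' ∈ X, F s = F s' → r s = r s' := by
    intro s hs s' hs' h1
    have h2 : s' ∈ (F s).1 ×ˢ (F s).2.1 := by
      rw [h1]
      exact ((hGs s' hs').mem s' (hself s' hs')).1
    exact (hin s hs s' h2).2.symm
  -- on a class
  have hclF : ∀ s ∈ X, ∀ s' ∈ cl X r s, F s' = ((G s s').1, (G s s').2.1, (G s s').2.2 + k s) := by
    intro s hs s' hs'
    obtain ⟨h1, h2⟩ := mem_cl.1 hs'
    simp only [hF, hGc s hs s' h1 h2, (hr s hs s' h1 h2).2.2.1]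
  have hclFG : ∀ s ∈ X, ∀ x ∈ cl X r s, ∀ y ∈ cl X r s, (F x = F y ↔ G s x = G s y) := by
    intro s hs x hx y hy
    rw [hclF s hs x hx, hclF s hs y hy]
    constructor
    · intro h1
      rw [Prod.mk.injEq, Prod.mk.injEq] at h1
      refine Prod.ext h1.1 (Prod.ext h1.2.1 ?_)
      have := h1.2.2
      omega
    · intro h1
      rw [h1]
  have hhcl : ∀ s ∈ X, h (cl X r s) F = h (A s ×ˢ B s) (G s) := by
    intro s hs
    rw [h_congr (hclFG s hs), hcl s hs]
  have hcecl : ∀ s ∈ X, ∀ z : ℤ × ℤ → ℤ, ce (cl X r s) z F = ce (A s ×ˢ B s) z (G s) := by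
    intro s hs z
    rw [← hcl s hs]
    refine le_antisymm (ce_mono _ z F (G s) fun x hx y hy _ h1 => (hclFG s hs x hx y hy).2 h1)
      (ce_mono _ z (G s) F fun x hx y hy _ h1 => (hclFG s hs x hx y hy).1 h1)
  refine ⟨F, ?_, ?_, ?_, ?_, ?_, ?_, ?_⟩
  · intro s hs
    obtain ⟨h1, h2, h3⟩ := (hGs s hs).mem s (hself s hs)
    exact ⟨h1, h2.trans (hA s hs), h3.trans (hB s hs)⟩
  · intro s hs s' hs'
    obtain ⟨h1, h2⟩ := hin s hs s' hs'
    have h3 : s' ∈ cl X r s := mem_cl.2 ⟨h1, h2⟩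
    have h4 := (hGs s hs).const s (hself s hs) s' hs'
    rw [hclF s hs s' h3, h4]
  · intro s hs
    have h1 := (hGs s hs).chain s (hself s hs)
    change (G s s).2.1 = tn π.t π.d π.N p ((G s s).2.2 + k s) T s.2
    rw [htn s hs]
    exact h1
  · intro s hs
    exact (hGs s hs).res s (hself s hs)
  · intro s hs
    exact (hGs s hs).stop s (hself s hs)
  · have h1 := comp_cost D X (fun m s => m * s.1 + s.2) r F π.e π.c w0
      (fun s => w1 s + ((G s s).2.2 : ℝ)) hfin ?_ hcost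
    · refine h1.trans (le_of_eq ?_)
      congr 3
      refine sum_congr rfl fun s hs => ?_
      have h2 := hw s hs
      simp only [hF]
      push_cast
      linarith
    · intro s hs
      have h2 := (hGs s hs).cost
      have h3 : ∀ m ∈ D, ((cl X r s).card : ℝ) * ce (cl X r s) (fun s => m * s.1 + s.2) F =
          ((A s ×ˢ B s).card : ℝ) * ce (A s ×ˢ B s) (fun s => m * s.1 + s.2) (G s) := by
        intro m _
        rw [hcecl s hs, hcl s hs]
      rw [sum_congr rfl h3, hhcl s hs, hcl s hs]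
      refine h2.trans (le_of_eq ?_)
      congr 3
      refine sum_congr rfl fun s' hs' => ?_
      rw [← hcl s hs] at hs'
      obtain ⟨h4, h5⟩ := mem_cl.1 hs'
      simp only [hGc s hs s' h4 h5, (hr s hs s' h4 h5).2.2.2]
  · have h1 := comp_count X r F (π.d * π.t) (fun s => ((G s s).2.2 : ℝ)) (fun s => (k s : ℝ))
      hfin ?_ hcount
    · refine le_trans (le_of_eq ?_) h1
      congr 1
      refine sum_congr rfl fun s hs => ?_
      simp only [hF]
      push_cast
      ring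
    · intro s hs
      have h2 := (hGs s hs).count
      rw [hhcl s hs, hcl s hs]
      refine le_trans (le_of_eq ?_) h2
      congr 1
      refine sum_congr rfl fun s' hs' => ?_
      rw [← hcl s hs] at hs'
      obtain ⟨h4, h5⟩ := mem_cl.1 hs'
      simp only [hGc s hs s' h4 h5]

/-- the state at which nothing has to be done -/
lemma base (π : Par) (D : Finset ℤ) (p : ℕ) (S T : Finset ℤ)
    (hres : ∀ x ∈ S, ∀ y ∈ S, rp p (π.lv p T) x = rp p (π.lv p T) y)
    (hstop : (T.card : ℝ) ≤ Real.exp π.t ∨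
      ((S.filter fun x => Hvy π.u S p (π.lv p T + 1) x).card : ℝ) < π.al * S.card) :
    ∃ F, OnePw π D p 0 S T F := by
  refine ⟨fun _ => (S, T, 0), ?_, ?_, ?_, ?_, ?_, ?_, ?_⟩
  · intro s hs
    exact ⟨hs, Subset.refl _, Subset.refl _⟩
  · intro s _ s' _
    rfl
  · intro s _
    rfl
  · intro s _
    exact hres
  · intro s _
    exact hstop
  · have h1 : ∀ z : ℤ × ℤ → ℤ, ce (S ×ˢ T) z (fun _ => ((S, T, 0) : St)) = 0 := fun z =>
      ce_const _ _ _ fun _ _ _ _ _ => rfl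
    have h2 : h (S ×ˢ T) (fun _ => ((S, T, 0) : St)) = 0 := h_const _ _ fun _ _ _ _ => rfl
    simp only [h1, h2]
    simp
  · have h2 : h (S ×ˢ T) (fun _ => ((S, T, 0) : St)) = 0 := h_const _ _ fun _ _ _ _ => rfl
    simp only [h2]
    simp

lemma Hvy_congr {t : ℝ} {S : Finset ℤ} {p l : ℕ} {x y : ℤ} (hxy : rp p l x = rp p l y) :
    Hvy t S p l x ↔ Hvy t S p l y := by
  unfold Hvy
  rw [fc_congr hxy]

/-- the level is below `N` and the next level is bad -/
lemma level_lt (π : Par) (p : ℕ) (hd : 0 < π.d) (hd1 : π.d < 1) (ht : 0 ≤ π.t) (T : Finset ℤ)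
    (hT : T.Nonempty) (hsep : ∀ x ∈ T, ∀ y ∈ T, (p : ℤ) ^ π.N ∣ x - y → x = y)
    (hcard : Real.exp π.t < T.card) : π.d * T.card < lgt π.t T p (π.lv p T + 1) := by
  have hTc : (0 : ℝ) < T.card := by exact_mod_cast card_pos.2 hT
  have h0 : (lgt π.t T p 0 : ℝ) ≤ π.d * T.card := by
    have h1 : lgt π.t T p 0 = 0 := by
      unfold lgt
      rw [card_eq_zero, filter_eq_empty_iff]
      intro y hy
      rw [not_not]
      unfold Hvy
      have h2 : fc T (rp p 0) y = T.card := by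
        unfold fc
        congr 1
        ext x
        rw [mem_cl]
        exact ⟨fun h3 => h3.1, fun h3 => ⟨h3, rp_zero p x y⟩⟩
      rw [h2]
      have h3 := Real.one_le_exp ht
      nlinarith
    rw [h1, Nat.cast_zero]
    positivity
  have hspec : (lgt π.t T p (π.lv p T) : ℝ) ≤ π.d * T.card :=
    Nat.findGreatest_spec (P := fun l => (lgt π.t T p l : ℝ) ≤ π.d * T.card) (Nat.zero_le _) h0
  have hle : π.lv p T ≤ π.N := Nat.findGreatest_le _
  have hlt : π.lv p T < π.N := by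
    refine lt_of_le_of_ne hle fun heq => ?_
    rw [heq] at hspec
    have h1 : lgt π.t T p π.N = T.card := by
      unfold lgt
      congr 1
      rw [filter_eq_self]
      intro y hy
      unfold Hvy
      have h2 : fc T (rp p π.N) y = 1 := by
        unfold fc
        rw [card_eq_one]
        refine ⟨y, ?_⟩
        ext x
        rw [mem_cl, mem_singleton]
        constructor
        · rintro ⟨h3, h4⟩
          exact hsep x h3 y hy (rp_eq_iff.1 h4)
        · rintro rfl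
          exact ⟨hy, rfl⟩
      rw [h2]
      push_cast
      rw [not_le, mul_one]
      exact hcard
    rw [h1] at hspec
    nlinarith
  by_contra hcon
  push Not at hcon
  exact Nat.findGreatest_is_greatest (P := fun l => (lgt π.t T p l : ℝ) ≤ π.d * T.card)
    (n := π.N) (k := π.lv p T + 1) (Nat.lt_succ_self _) hlt hcon

/-- the step of the second kind -/
lemma two_step (π : Par) (D : Finset ℤ) (p : ℕ) (hd : 0 < π.d) (hd1 : π.d < 1) (ht : 0 ≤ π.t)
    (hu : 0 ≤ π.u) (hal : 0 < π.al) (he : 0 ≤ π.e)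
    (hpar : Real.log 2 + π.u ≤ π.e * (π.al * π.d * π.t)) (S T : Finset ℤ) (hS : S.Nonempty)
    (hT : T.Nonempty) (hsep : ∀ x ∈ T, ∀ y ∈ T, (p : ℤ) ^ π.N ∣ x - y → x = y)
    (hres : ∀ x ∈ S, ∀ y ∈ S, rp p (π.lv p T) x = rp p (π.lv p T) y)
    (IH1 : ∀ S' T' : Finset ℤ, S' ⊆ S → T' ⊆ T → S'.Nonempty → T'.Nonempty →
      S'.card + T'.card < S.card + T.card → ∃ F, OnePw π D p 1 S' T' F)
    (IH2 : ∀ S' : Finset ℤ, S' ⊆ S → S'.Nonempty → S'.card < S.card →
      ∃ F, OnePw π D p 0 S' T F) :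
    ∃ F, OnePw π D p 0 S T F := by
  by_cases hstop : (T.card : ℝ) ≤ Real.exp π.t ∨
      ((S.filter fun x => Hvy π.u S p (π.lv p T + 1) x).card : ℝ) < π.al * S.card
  · exact base π D p S T hres hstop
  push Not at hstop
  obtain ⟨hcard, hheavy⟩ := hstop
  have hlev := level_lt π p hd hd1 ht T hT hsep hcard
  set l := π.lv p T + 1 with hl
  obtain ⟨hce, hcnt⟩ := rule2 π p l S T hS hT hd.le ht hu hal.le he hpar hheavy hlev
  have hSc : (0 : ℝ) < S.card := by exact_mod_cast card_pos.2 hS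
  have hTc : (0 : ℝ) < T.card := by exact_mod_cast card_pos.2 hT
  refine compose π D p 0 0 S T (r2 π.u S p l)
    (fun s => if Hvy π.u S p l s.1 then cl S (rp p l) s.1 else
      S.filter fun x => ¬ Hvy π.u S p l x)
    (fun s => if Hvy π.u S p l s.1 then cl T (rp p l) s.2 else T)
    (fun s => if Hvy π.u S p l s.1 then 1 else 0)
    (fun s => if Hvy π.u S p l s.1 then 1 else 0) ?_ ?_ ?_ ?_ ?_ ?_ ?_ ?_ ?_
  · intro s _
    split_ifs
    · exact cl_sub _ _ _
    · exact filter_subset _ _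
  · intro s _
    split_ifs
    · exact cl_sub _ _ _
    · exact Subset.refl _
  · intro s hs
    by_cases h1 : Hvy π.u S p l s.1
    · rw [if_pos h1, if_pos h1]
      ext s'
      rw [mem_cl, mem_product, mem_product, mem_cl, mem_cl]
      unfold r2
      rw [if_pos h1]
      constructor
      · rintro ⟨⟨h2, h3⟩, h4⟩
        by_cases h5 : Hvy π.u S p l s'.1
        · rw [if_pos h5, Option.some_inj, Prod.mk.injEq] at h4
          exact ⟨⟨h2, h4.1⟩, ⟨h3, h4.2⟩⟩
        · rw [if_neg h5] at h4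
          exact absurd h4 (by simp)
      · rintro ⟨⟨h2, h3⟩, ⟨h4, h5⟩⟩
        rw [if_pos ((Hvy_congr h3).2 h1), h3, h5]
        exact ⟨⟨h2, h4⟩, rfl⟩
    · rw [if_neg h1, if_neg h1]
      ext s'
      rw [mem_cl, mem_product, mem_product, mem_filter]
      unfold r2
      rw [if_neg h1]
      constructor
      · rintro ⟨⟨h2, h3⟩, h4⟩
        by_cases h5 : Hvy π.u S p l s'.1
        · rw [if_pos h5] at h4
          exact absurd h4 (by simp)
        · exact ⟨⟨h2, h5⟩, h3⟩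
      · rintro ⟨⟨h2, h3⟩, h4⟩
        rw [if_neg h3]
        exact ⟨⟨h2, h4⟩, rfl⟩
  · intro s hs s' hs' h1
    unfold r2 at h1
    by_cases h2 : Hvy π.u S p l s.1
    · by_cases h3 : Hvy π.u S p l s'.1
      · rw [if_pos h2, if_pos h3, Option.some_inj, Prod.mk.injEq] at h1
        simp only [if_pos h2, if_pos h3]
        exact ⟨cl_congr h1.1, cl_congr h1.2, trivial, trivial⟩
      · rw [if_pos h2, if_neg h3] at h1
        exact absurd h1 (by simp)
    · by_cases h3 : Hvy π.u S p l s'.1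
      · rw [if_neg h2, if_pos h3] at h1
        exact absurd h1 (by simp)
      · simp only [if_neg h2, if_neg h3]
        exact ⟨trivial, trivial, trivial, trivial⟩
  · intro s hs
    rw [mem_product] at hs
    by_cases h1 : Hvy π.u S p l s.1
    · simp only [if_pos h1]
      refine IH1 _ _ (cl_sub _ _ _) (cl_sub _ _ _) ⟨s.1, mem_cl.2 ⟨hs.1, rfl⟩⟩
        ⟨s.2, mem_cl.2 ⟨hs.2, rfl⟩⟩ ?_
      have h2 : (cl S (rp p l) s.1).card ≤ S.card := card_le_card (cl_sub _ _ _)
      have h3 : (cl T (rp p l) s.2).card < T.card := by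
        refine lt_of_le_of_ne (card_le_card (cl_sub _ _ _)) fun heq => ?_
        have h4 : cl T (rp p l) s.2 = T := eq_of_subset_of_card_le (cl_sub _ _ _) heq.ge
        have h5 : lgt π.t T p l = 0 := by
          unfold lgt
          rw [card_eq_zero, filter_eq_empty_iff]
          intro y hy
          rw [not_not]
          unfold Hvy
          have h6 : rp p l y = rp p l s.2 := by
            rw [← h4] at hy
            exact (mem_cl.1 hy).2
          have h7 : fc T (rp p l) y = T.card := by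
            rw [fc_congr h6]
            exact heq
          rw [h7]
          have h8 := Real.one_le_exp ht
          nlinarith
        rw [h5, Nat.cast_zero] at hlev
        have : 0 < π.d * T.card := by positivity
        linarith
      omega
    · simp only [if_neg h1]
      refine IH2 _ (filter_subset _ _) ⟨s.1, mem_filter.2 ⟨hs.1, h1⟩⟩ ?_
      refine lt_of_le_of_ne (card_le_card (filter_subset _ _)) fun heq => ?_
      have h4 := eq_of_subset_of_card_le
        (filter_subset (fun x => ¬ Hvy π.u S p l x) S) heq.ge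
      have h5 : S.filter (fun x => Hvy π.u S p l x) = ∅ := by
        rw [filter_eq_empty_iff]
        intro y hy
        rw [← h4] at hy
        exact (mem_filter.1 hy).2
      rw [h5, card_empty, Nat.cast_zero] at hheavy
      have : 0 < π.al * S.card := by positivity
      linarith
  · intro s _ n
    split_ifs
    · rfl
    · rfl
  · intro s _
    split_ifs <;> simp
  · have h1 : ∀ m ∈ D, ((S ×ˢ T).card : ℝ) * ce (S ×ˢ T) (fun s => m * s.1 + s.2)
        (r2 π.u S p l) ≤ (S ×ˢ T).card * (π.e * h (S ×ˢ T) (r2 π.u S p l)) := fun m _ =>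
      mul_le_mul_of_nonneg_left (hce m) (by positivity)
    refine (sum_le_sum h1).trans (le_of_eq ?_)
    rw [sum_const, nsmul_eq_mul]
    ring
  · have h1 : ∑ s ∈ S ×ˢ T, (((if Hvy π.u S p l s.1 then 1 else 0 : ℕ)) : ℝ) =
        (S.filter fun x => Hvy π.u S p l x).card * T.card := by
      have e : ∀ x ∈ S, ∑ y ∈ T, (((if Hvy π.u S p l (x, y).1 then 1 else 0 : ℕ)) : ℝ) =
          T.card * (((if Hvy π.u S p l x then 1 else 0 : ℕ)) : ℝ) := fun x _ => by
        change ∑ y ∈ T, (((if Hvy π.u S p l x then 1 else 0 : ℕ)) : ℝ) = _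
        rw [sum_const, nsmul_eq_mul]
      rw [sum_product, sum_congr rfl e, ← mul_sum, mul_comm, card_filter]
      push_cast
      rfl
    rw [h1, card_product]
    have h2 := mul_le_mul_of_nonneg_right hcnt hTc.le
    push_cast
    linarith

/-- both versions by strong induction -/
lemma both (π : Par) (D : Finset ℤ) (p : ℕ) (hd : 0 < π.d) (hd1 : π.d < 1) (ht : 0 ≤ π.t)
    (hu : 0 ≤ π.u) (hal : 0 < π.al) (he : 0 ≤ π.e) 
    (hR1 : ∀ (l : ℕ) (S T : Finset ℤ), S.Nonempty → T.Nonempty →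
      (lgt π.t T p l : ℝ) ≤ π.d * T.card →
      ∑ m ∈ D, ce (S ×ˢ T) (fun s => m * s.1 + s.2) (fun s => rp p l s.1) ≤
        D.card * (π.e * h S (rp p l) + π.c))
    (hpar : Real.log 2 + π.u ≤ π.e * (π.al * π.d * π.t)) :
    ∀ (n : ℕ) (S T : Finset ℤ), S.card + T.card ≤ n → S.Nonempty → T.Nonempty →
      (∀ x ∈ T, ∀ y ∈ T, (p : ℤ) ^ π.N ∣ x - y → x = y) →
      (∃ F, OnePw π D p 1 S T F) ∧
      ((∀ x ∈ S, ∀ y ∈ S, rp p (π.lv p T) x = rp p (π.lv p T) y) →
        ∃ F, OnePw π D p 0 S T F) := by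
  intro n
  induction n with
  | zero =>
    intro S T hn hS
    have := card_pos.2 hS
    omega
  | succ n ih =>
    intro S T hn hS hT hsep
    have two : ∀ S' : Finset ℤ, S' ⊆ S → S'.Nonempty →
        (∀ x ∈ S', ∀ y ∈ S', rp p (π.lv p T) x = rp p (π.lv p T) y) →
        ∃ F, OnePw π D p 0 S' T F := by
      intro S' hS' hS'n hres
      have hS'c := card_le_card hS'
      refine two_step π D p hd hd1 ht hu hal he hpar S' T hS'n hT hsep hres ?_ ?_
      · intro S'' T'' h1 h2 h3 h4 h5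
        exact (ih S'' T'' (by omega) h3 h4 fun x hx y hy => hsep x (h2 hx) y (h2 hy)).1
      · intro S'' h1 h2 h3
        exact (ih S'' T (by omega) h2 hT hsep).2 fun x hx y hy => hres x (h1 hx) y (h1 hy)
    refine ⟨?_, two S (Subset.refl _) hS⟩
    have hSc : (0 : ℝ) < S.card := by exact_mod_cast card_pos.2 hS
    have hTc : (0 : ℝ) < T.card := by exact_mod_cast card_pos.2 hT
    refine compose π D p 1 1 S T (fun s => rp p (π.lv p T) s.1)
      (fun s => cl S (rp p (π.lv p T)) s.1) (fun _ => T) (fun _ => 0) (fun _ => 0)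
      ?_ ?_ ?_ ?_ ?_ ?_ ?_ ?_ ?_
    · intro s _
      exact cl_sub _ _ _
    · intro s _
      exact Subset.refl _
    · intro s hs
      ext s'
      rw [mem_cl, mem_product, mem_product, mem_cl]
      tauto
    · intro s _ s' _ h1
      exact ⟨cl_congr h1, rfl, rfl, rfl⟩
    · intro s hs
      rw [mem_product] at hs
      refine two _ (cl_sub _ _ _) ⟨s.1, mem_cl.2 ⟨hs.1, rfl⟩⟩ ?_
      intro x hx y hy
      exact (mem_cl.1 hx).2.trans (mem_cl.1 hy).2.symm
    · intro s _ m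
      rfl
    · intro s _
      simp
    · have hspec : (lgt π.t T p (π.lv p T) : ℝ) ≤ π.d * T.card := by
        refine Nat.findGreatest_spec (P := fun l => (lgt π.t T p l : ℝ) ≤ π.d * T.card)
          (Nat.zero_le _) ?_
        have h1 : lgt π.t T p 0 = 0 := by
          unfold lgt
          rw [card_eq_zero, filter_eq_empty_iff]
          intro y hy
          rw [not_not]
          unfold Hvy
          have h2 : fc T (rp p 0) y = T.card := by
            unfold fc
            congr 1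
            ext x
            rw [mem_cl]
            exact ⟨fun h3 => h3.1, fun h3 => ⟨h3, rp_zero p x y⟩⟩
          rw [h2]
          have h3 := Real.one_le_exp ht
          nlinarith
        rw [h1, Nat.cast_zero]
        positivity
      have h1 := hR1 (π.lv p T) S T hS hT hspec
      rw [← mul_sum, h_fst S T hS hT (rp p (π.lv p T))]
      have h2 := mul_le_mul_of_nonneg_left h1 (show (0 : ℝ) ≤ (S ×ˢ T).card by positivity)
      refine h2.trans (le_of_eq ?_)
      ring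
    · simp only [Nat.cast_zero, sum_const_zero, mul_zero]
      exact mul_nonneg (by positivity) (h_nonneg _ _)

end OneAux

/-- **The process for one prime.** -/
theorem one (π : Par) (D : Finset ℤ) (p : ℕ) (hd : 0 < π.d) (hd1 : π.d < 1) (ht : 0 ≤ π.t)
    (hu : 0 ≤ π.u) (hal : 0 < π.al) (he : 0 ≤ π.e) (hc : 0 ≤ π.c)
    (hR1 : ∀ (l : ℕ) (S T : Finset ℤ), S.Nonempty → T.Nonempty →
      (lgt π.t T p l : ℝ) ≤ π.d * T.card →
      ∑ m ∈ D, ce (S ×ˢ T) (fun s => m * s.1 + s.2) (fun s => rp p l s.1) ≤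
        D.card * (π.e * h S (rp p l) + π.c))
    (hpar : Real.log 2 + π.u ≤ π.e * (π.al * π.d * π.t)) (S T : Finset ℤ) (hS : S.Nonempty)
    (hT : T.Nonempty) (hsep : ∀ x ∈ T, ∀ y ∈ T, (p : ℤ) ^ π.N ∣ x - y → x = y) :
    ∃ F : ℤ × ℤ → St, OneP π D p S T F := by
  obtain ⟨F, hF⟩ := (OneAux.both π D p hd hd1 ht hu hal he hR1 hpar _ S T le_rfl hS hT hsep).1
  exact ⟨F, hF.toOneP⟩

end Pool.Agent.T2H12.KH
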