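import Mathlib
import Pool.Agent.T2H12.KH.Defs

/-!
# The first rule (package R1)
-/

set_option autoImplicit false

namespace Pool.Agent.T2H12.KH

open Finset
open scoped Classical
open Pool.Agent.Y359.PE Pool.Agent.T2H12.KF Pool.Agent.T2H12.KD

namespace R1

variable {α β M : Type}

lemma ce_split {γ δ ε : Type} (S : Finset α) (z : α → γ) (E : α → δ) (k : α → ε) :
    ce S z k ≤ h S E + ce S (fun x => (E x, z x)) k := by
  have h1 : ce S z k ≤ ce S z (fun x => (E x, k x)) :=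
    ce_mono S z k _ fun x _ y _ _ hxy => (Prod.mk.inj hxy).2
  have h2 := ce_chain S z E k
  have h3 := ce_le_h S z E
  have h4 : ce S (fun x => (z x, E x)) k = ce S (fun x => (E x, z x)) k :=
    ce_congr_left S _ _ k fun x _ y _ => by
      rw [Prod.mk.injEq, Prod.mk.injEq]
      tauto
  linarith

/-- the entropy of the bit `a = 0`, linear in its probability -/
lemma h_isz_le2 {M : Type} [AddCommGroup M] (S : Finset α) (a : α → M) (s : ℝ) :
    h S (isz a) ≤ s * ((nz S a : ℝ) / S.card) + Real.exp (-s) := by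
  rcases S.eq_empty_or_nonempty with h0 | hS
  · subst h0
    simp only [h, sum_empty, card_empty, Nat.cast_zero, div_zero, mul_zero, zero_add]
    exact (Real.exp_pos _).le
  have hc : (0 : ℝ) < S.card := by exact_mod_cast card_pos.2 hS
  rcases Nat.eq_zero_or_pos (nz S a) with h1 | h1
  · have h2 : h S (isz a) = 0 := by
      refine h_const _ _ fun x hx y hy => ?_
      have hz : ∀ x ∈ S, a x = 0 := by
        intro x hx
        by_contra hne
        have : 0 < nz S a := card_pos.2 ⟨x, mem_filter.2 ⟨hx, hne⟩⟩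
        omega
      rw [isz_eq, hz x hx, hz y hy]
    rw [h2, h1, Nat.cast_zero, zero_div, mul_zero, zero_add]
    exact (Real.exp_pos _).le
  · have h2 := bit_le S a hS h1
    have h3 : (0 : ℝ) < nz S a := by exact_mod_cast h1
    set t : ℝ := (nz S a : ℝ) / S.card with ht
    have ht0 : 0 < t := by positivity
    have h4 : (S.card : ℝ) / nz S a = 1 / t := by rw [ht, one_div_div]
    rw [h4] at h2
    have h5 := Real.log_le_sub_one_of_pos (show 0 < Real.exp (-s) * (1 / t) by positivity)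
    rw [Real.log_mul (Real.exp_pos _).ne' (by positivity), Real.log_exp] at h5
    have h6 : t * (1 + Real.log (1 / t)) ≤ t * (s + Real.exp (-s) * (1 / t)) :=
      mul_le_mul_of_nonneg_left (by linarith) ht0.le
    have h7 := h2.trans h6
    refine le_trans h7 (le_of_eq ?_)
    field_simp

/-- the entropy of a rare predicate, linear in its probability -/
lemma h_rare2 (S : Finset α) (e : α → Prop) (s : ℝ) :
    h S (fun x => decide (e x)) ≤ s * (((S.filter e).card : ℝ) / S.card) + Real.exp (-s) := by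
  set a : α → ℤ := fun x => if e x then 1 else 0 with ha
  have e1 : h S (fun x => decide (e x)) = h S (isz a) := by
    refine h_congr fun x _ y _ => ?_
    rw [decide_eq_decide, isz_eq]
    simp only [ha]
    by_cases c1 : e x <;> by_cases c2 : e y <;> simp [c1, c2]
  have e2 : nz S a = (S.filter e).card := by
    refine nz_eq _ _ _ fun x => ?_
    rw [mem_filter]
    refine and_congr_right fun _ => ?_
    simp only [ha]
    by_cases c1 : e x <;> simp [c1]
  rw [e1, ← e2]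
  exact h_isz_le2 S a s

variable [AddCommGroup M]

/-- the two bits -/
noncomputable def E1 (HS : Finset M) (a : α → M) (x : α) : Bool := decide (a x ∉ HS)

lemma step (m : ℤ) (U : Finset α) (V : Finset β) (a : α → M) (b : β → M) (HS HT : Finset M)
    {t : ℝ} (ht0 : 0 ≤ t) (ht : (HT.card : ℝ) ≤ Real.exp t)
    (hg : ∀ x ∈ U, ∀ y ∈ U, m • a x = m • a y → a x = a y)
    (hg2 : ∀ a₁ ∈ HS, ∀ a₂ ∈ HS, ∀ b₁ ∈ HT, ∀ b₂ ∈ HT, m • a₁ + b₁ = m • a₂ + b₂ → a₁ = a₂) :
    ((U ×ˢ V).card : ℝ) * ce (U ×ˢ V) (fun s => ((E1 HS a s.1, E1 HT b s.2),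
      m • a s.1 + b s.2)) (fun s => a s.1) ≤
      (V.filter fun y => b y ∉ HT).card * (U.card * h U a) +
      (U.filter fun x => a x ∉ HS).card * (V.card * t) := by
  rw [ce_avg, sum_product]
  have key : ∀ x ∈ U, ∀ y ∈ V,
      ce (cl (U ×ˢ V) (fun s => (E1 HS a s.1, E1 HT b s.2)) (x, y))
        (fun s => m • a s.1 + b s.2) (fun s => a s.1) ≤
      (if b y ∉ HT then h (cl U (E1 HS a) x) a else 0) + (if a x ∉ HS then t else 0) := by
    intro x hx y hy
    rw [cl_prod U V (E1 HS a) (E1 HT b) (x, y)]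
    dsimp only
    have hxU : (cl U (E1 HS a) x).Nonempty := ⟨x, mem_cl.2 ⟨hx, rfl⟩⟩
    have hyV : (cl V (E1 HT b) y).Nonempty := ⟨y, mem_cl.2 ⟨hy, rfl⟩⟩
    have hU' : ∀ x' ∈ cl U (E1 HS a) x, (a x' ∉ HS ↔ a x ∉ HS) := by
      intro x' hx'
      have := (mem_cl.1 hx').2
      unfold E1 at this
      rwa [decide_eq_decide] at this
    have hV' : ∀ y' ∈ cl V (E1 HT b) y, (b y' ∉ HT ↔ b y ∉ HT) := by
      intro y' hy'
      have := (mem_cl.1 hy').2
      unfold E1 at this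
      rwa [decide_eq_decide] at this
    have hUs : ∀ x' ∈ cl U (E1 HS a) x, x' ∈ U := fun x' hx' => (mem_cl.1 hx').1
    by_cases c1 : b y ∈ HT
    · rw [if_neg (not_not.2 c1), zero_add]
      by_cases c2 : a x ∈ HS
      · rw [if_neg (not_not.2 c2)]
        refine le_of_eq (ce_const _ _ _ fun s hs s' hs' hz => ?_)
        rw [mem_product] at hs hs'
        have m1 : a s.1 ∈ HS := by
          by_contra hn; exact (hU' _ hs.1).1 hn c2
        have m2 : a s'.1 ∈ HS := by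
          by_contra hn; exact (hU' _ hs'.1).1 hn c2
        have m3 : b s.2 ∈ HT := by
          by_contra hn; exact (hV' _ hs.2).1 hn c1
        have m4 : b s'.2 ∈ HT := by
          by_contra hn; exact (hV' _ hs'.2).1 hn c1
        exact hg2 _ m1 _ m2 _ m3 _ m4 hz
      · rw [if_pos c2]
        have h1 : ce (cl U (E1 HS a) x ×ˢ cl V (E1 HT b) y) (fun s => m • a s.1 + b s.2)
            (fun s => a s.1) ≤ ce (cl U (E1 HS a) x ×ˢ cl V (E1 HT b) y)
            (fun s => m • a s.1 + b s.2) (fun s => b s.2) := by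
          refine ce_mono _ _ _ _ fun s hs s' hs' hz hb => ?_
          rw [mem_product] at hs hs'
          have hz' : m • a s.1 + b s.2 = m • a s'.1 + b s'.2 := hz
          have hb' : b s.2 = b s'.2 := hb
          rw [hb'] at hz'
          exact hg _ (hUs _ hs.1) _ (hUs _ hs'.1) (add_right_cancel hz')
        have h2 := ce_le_h (cl U (E1 HS a) x ×ˢ cl V (E1 HT b) y)
            (fun s => m • a s.1 + b s.2) (fun s => b s.2)
        rw [h_snd _ _ hxU hyV b] at h2
        have h3 := h_le_log hyV b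
        have h4 : ((cl V (E1 HT b) y).image b).card ≤ HT.card := by
          refine card_le_card fun r hr => ?_
          obtain ⟨y', hy', rfl⟩ := mem_image.1 hr
          by_contra hn
          exact (hV' _ hy').1 hn c1
        have h5 : Real.log ((cl V (E1 HT b) y).image b).card ≤ t := by
          have h6 : (0 : ℝ) < ((cl V (E1 HT b) y).image b).card := by
            exact_mod_cast card_pos.2 (hyV.image b)
          have h7 : (((cl V (E1 HT b) y).image b).card : ℝ) ≤ Real.exp t := by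
            refine le_trans ?_ ht
            exact_mod_cast h4
          have := Real.log_le_log h6 h7
          rwa [Real.log_exp] at this
        linarith
    · rw [if_pos c1]
      have h1 := ce_le_h (cl U (E1 HS a) x ×ˢ cl V (E1 HT b) y)
            (fun s => m • a s.1 + b s.2) (fun s => a s.1)
      rw [h_fst _ _ hxU hyV a] at h1
      have h2 : 0 ≤ if a x ∉ HS then t else 0 := by
        split_ifs <;> first | exact ht0 | exact le_rfl
      linarith
  refine (sum_le_sum fun x hx => sum_le_sum fun y hy => key x hx y hy).trans ?_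
  have e1 : ∑ x ∈ U, ∑ y ∈ V, ((if b y ∉ HT then h (cl U (E1 HS a) x) a else 0) +
      (if a x ∉ HS then t else 0)) = (V.filter fun y => b y ∉ HT).card *
        ∑ x ∈ U, h (cl U (E1 HS a) x) a + (U.filter fun x => a x ∉ HS).card * (V.card * t) := by
    simp only [sum_add_distrib]
    congr 1
    · rw [mul_sum]
      refine sum_congr rfl fun x _ => ?_
      rw [← sum_filter, sum_const, nsmul_eq_mul]
    · simp only [sum_const, nsmul_eq_mul, ← mul_sum]
      rw [← sum_filter, sum_const, nsmul_eq_mul]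
      ring
  rw [e1]
  refine add_le_add (mul_le_mul_of_nonneg_left ?_ (by positivity)) le_rfl
  rcases U.eq_empty_or_nonempty with h0 | hU
  · subst h0
    simp
  have hc : (0 : ℝ) < U.card := by exact_mod_cast card_pos.2 hU
  have h1 := chain U (E1 HS a) a
  have h2 := ce_le_h U (E1 HS a) a
  unfold ce at h2
  rw [h1, div_le_iff₀ hc] at h2
  linarith

/-- the bound for one good multiplier -/
lemma good (m : ℤ) (U : Finset α) (V : Finset β) (hU : U.Nonempty) (hV : V.Nonempty) (a : α → M)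
    (b : β → M) (HS HT : Finset M) {t : ℝ} (ht0 : 0 ≤ t) (ht : (HT.card : ℝ) ≤ Real.exp t)
    (hg : ∀ x ∈ U, ∀ y ∈ U, m • a x = m • a y → a x = a y)
    (hg2 : ∀ a₁ ∈ HS, ∀ a₂ ∈ HS, ∀ b₁ ∈ HT, ∀ b₂ ∈ HT, m • a₁ + b₁ = m • a₂ + b₂ → a₁ = a₂) :
    ce (U ×ˢ V) (fun s => m • a s.1 + b s.2) (fun s => a s.1) ≤
      h U (fun x => decide (a x ∉ HS)) + h V (fun y => decide (b y ∉ HT)) +
      ((V.filter fun y => b y ∉ HT).card : ℝ) / V.card * h U a +
      ((U.filter fun x => a x ∉ HS).card : ℝ) / U.card * t := by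
  have hcU : (0 : ℝ) < U.card := by exact_mod_cast card_pos.2 hU
  have hcV : (0 : ℝ) < V.card := by exact_mod_cast card_pos.2 hV
  have h1 := ce_split (U ×ˢ V) (fun s => m • a s.1 + b s.2)
    (fun s => (E1 HS a s.1, E1 HT b s.2)) (fun s => a s.1)
  have h2 := h_prod U V hU hV (E1 HS a) (E1 HT b)
  have h3 := step m U V a b HS HT ht0 ht hg hg2
  have h4 : ce (U ×ˢ V) (fun s => ((E1 HS a s.1, E1 HT b s.2), m • a s.1 + b s.2))
      (fun s => a s.1) ≤ ((V.filter fun y => b y ∉ HT).card : ℝ) / V.card * h U a +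
      ((U.filter fun x => a x ∉ HS).card : ℝ) / U.card * t := by
    have h5 : (0 : ℝ) < (U ×ˢ V).card := by exact_mod_cast card_pos.2 (hU.product hV)
    refine le_of_mul_le_mul_left (h3.trans (le_of_eq ?_)) h5
    rw [card_product]
    push_cast
    field_simp
  rw [h2] at h1
  have h5 : h U (E1 HS a) = h U (fun x => decide (a x ∉ HS)) := rfl
  have h6 : h V (E1 HT b) = h V (fun y => decide (b y ∉ HT)) := rfl
  rw [h5, h6] at h1
  linarith

omit [AddCommGroup M] in
lemma not_mem_pv (V : Finset β) (b : β → M) (m₁ : ℝ) {y : β} (hy : y ∈ V) :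
    b y ∉ pv V b m₁ ↔ m₁ * fc V b y < V.card := by
  constructor
  · intro h
    by_contra hn
    exact h (mem_image_of_mem b (mem_filter.2 ⟨hy, not_lt.1 hn⟩))
  · intro h hm
    obtain ⟨y', hy', he⟩ := mem_image.1 hm
    have h1 := (mem_filter.1 hy').2
    rw [fc_congr he] at h1
    linarith

/-- the number of the bad multipliers -/
lemma bad_card (U : Finset α) (a : α → M) (Q : Finset ℤ) (HS HT : Finset M)
    (hHS : ∀ r ∈ HS, ∃ x ∈ U, a x = r)
    (hinj : ∀ x ∈ U, ∀ y ∈ U, a x ≠ a y → ∀ m ∈ Q, ∀ m' ∈ Q,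
        m • (a x - a y) = m' • (a x - a y) → m = m') :
    (Q.filter fun m => ∃ a₁ ∈ HS, ∃ a₂ ∈ HS, ∃ b₁ ∈ HT, ∃ b₂ ∈ HT,
      m • a₁ + b₁ = m • a₂ + b₂ ∧ a₁ ≠ a₂).card ≤ HS.card * HS.card * (HT.card * HT.card) := by
  have h1 : (Q.filter fun m => ∃ a₁ ∈ HS, ∃ a₂ ∈ HS, ∃ b₁ ∈ HT, ∃ b₂ ∈ HT,
      m • a₁ + b₁ = m • a₂ + b₂ ∧ a₁ ≠ a₂) ⊆ ((HS ×ˢ HS) ×ˢ (HT ×ˢ HT)).biUnion fun q =>
      Q.filter fun m => m • q.1.1 + q.2.1 = m • q.1.2 + q.2.2 ∧ q.1.1 ≠ q.1.2 := by
    intro m hm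
    obtain ⟨hmQ, a₁, h₁, a₂, h₂, b₁, h₃, b₂, h₄, h₅, h₆⟩ := mem_filter.1 hm
    rw [mem_biUnion]
    exact ⟨((a₁, a₂), (b₁, b₂)), mem_product.2 ⟨mem_product.2 ⟨h₁, h₂⟩,
      mem_product.2 ⟨h₃, h₄⟩⟩, mem_filter.2 ⟨hmQ, h₅, h₆⟩⟩
  refine (card_le_card h1).trans ?_
  refine (card_biUnion_le_card_mul _ _ 1 fun q hq => ?_).trans (le_of_eq ?_)
  · rw [card_le_one]
    intro m hm m' hm'
    obtain ⟨hm1, hm2, hm3⟩ := mem_filter.1 hm
    obtain ⟨hm1', hm2', _⟩ := mem_filter.1 hm'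
    obtain ⟨hq1, _⟩ := mem_product.1 hq
    obtain ⟨hq3, hq4⟩ := mem_product.1 hq1
    obtain ⟨x, hx, hxq⟩ := hHS _ hq3
    obtain ⟨y, hy, hyq⟩ := hHS _ hq4
    refine hinj x hx y hy (by rw [hxq, hyq]; exact hm3) m hm1 m' hm1' ?_
    rw [hxq, hyq, smul_sub, smul_sub]
    have e1 : m • q.1.1 - m • q.1.2 = q.2.2 - q.2.1 := by
      rw [sub_eq_sub_iff_add_eq_add, hm2, add_comm]
    have e2 : m' • q.1.1 - m' • q.1.2 = q.2.2 - q.2.1 := by
      rw [sub_eq_sub_iff_add_eq_add, hm2', add_comm]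
    rw [e1, e2]
  · rw [mul_one, card_product, card_product, card_product]

/-- the entropy of a rare predicate, for any decidability instance -/
lemma h_rare2' (S : Finset α) (e : α → Prop) [inst : DecidablePred e] (s : ℝ) :
    h S (fun x => decide (e x)) ≤ s * (((S.filter e).card : ℝ) / S.card) + Real.exp (-s) := by
  obtain rfl : inst = fun x => Classical.propDecidable (e x) := Subsingleton.elim _ _
  exact h_rare2 S e s

/-- the entropy of a rare predicate, for any decidability instance -/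
lemma h_rare1' (S : Finset α) (e : α → Prop) [inst : DecidablePred e] {θ : ℝ} (hθ : 0 < θ) :
    h S (fun x => decide (e x)) ≤ θ + ((S.filter e).card : ℝ) / S.card / θ := by
  obtain rfl : inst = fun x => Classical.propDecidable (e x) := Subsingleton.elim _ _
  exact h_rare S e hθ

end R1

/-- **The first rule**, in an abelian group. -/
theorem rule1 {δ c : ℝ} (hδ : 0 < δ) (hc : 0 < c) : ∃ d : ℝ, 0 < d ∧ d < 1 ∧
    ∀ t : ℝ, 0 ≤ t → ∃ K₀ : ℝ, 0 < K₀ ∧
    ∀ (α β M : Type) [AddCommGroup M] (U : Finset α) (V : Finset β) (a : α → M) (b : β → M)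
      (Q Q₀ : Finset ℤ), U.Nonempty → V.Nonempty → Q₀ ⊆ Q → Q₀.card ≤ 1 →
      (∀ m ∈ Q, m ∉ Q₀ → ∀ x ∈ U, ∀ y ∈ U, m • a x = m • a y → a x = a y) →
      (∀ x ∈ U, ∀ y ∈ U, a x ≠ a y → ∀ m ∈ Q, ∀ m' ∈ Q,
        m • (a x - a y) = m' • (a x - a y) → m = m') →
      K₀ ≤ Q.card →
      ((V.filter fun y => Real.exp t * fc V b y < V.card).card : ℝ) ≤ d * V.card →
      ∑ m ∈ Q, ce (U ×ˢ V) (fun s => m • a s.1 + b s.2) (fun s => a s.1) ≤
        Q.card * (δ * h U a + c) := by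
  have hd0 : 0 < min (min (c ^ 2 / 64) (δ / 4)) (1 / 2) := by
    refine lt_min (lt_min (by positivity) (by positivity)) (by norm_num)
  refine ⟨min (min (c ^ 2 / 64) (δ / 4)) (1 / 2), hd0, ?_, ?_⟩
  · exact lt_of_le_of_lt (min_le_right _ _) (by norm_num)
  have hd1 : min (min (c ^ 2 / 64) (δ / 4)) (1 / 2) ≤ c ^ 2 / 64 :=
    (min_le_left _ _).trans (min_le_left _ _)
  have hd2 : min (min (c ^ 2 / 64) (δ / 4)) (1 / 2) ≤ δ / 4 :=
    (min_le_left _ _).trans (min_le_right _ _)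
  generalize min (min (c ^ 2 / 64) (δ / 4)) (1 / 2) = d at hd0 hd1 hd2 ⊢
  intro t ht
  obtain ⟨M₀, hM0, hM1, hM2⟩ : ∃ M₀ : ℝ, 0 < M₀ ∧ t ≤ δ / 4 * M₀ ∧
      Real.exp (-(δ / 4 * M₀)) ≤ c / 4 := by
    refine ⟨4 / δ * (t + |Real.log (c / 4)| + 1), by positivity, ?_, ?_⟩
    · have : δ / 4 * (4 / δ * (t + |Real.log (c / 4)| + 1)) = t + |Real.log (c / 4)| + 1 := by
        field_simp
      rw [this]
      have := abs_nonneg (Real.log (c / 4))
      linarith
    · have : δ / 4 * (4 / δ * (t + |Real.log (c / 4)| + 1)) = t + |Real.log (c / 4)| + 1 := by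
        field_simp
      rw [this]
      have h1 : -(t + |Real.log (c / 4)| + 1) ≤ Real.log (c / 4) := by
        have := neg_abs_le (Real.log (c / 4))
        linarith
      have h2 := Real.exp_le_exp.2 h1
      rwa [Real.exp_log (by positivity)] at h2
  refine ⟨(Real.exp (2 * M₀ + 2 * t) + 1) * (4 / δ), by positivity, ?_⟩
  intro α β M _ U V a b Q Q₀ hU hV hQ₀ hQ₀c hg hinj hK hrare
  have hcU : (0 : ℝ) < U.card := by exact_mod_cast card_pos.2 hU
  have hcV : (0 : ℝ) < V.card := by exact_mod_cast card_pos.2 hV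
  have hh := h_nonneg U a
  set HS := pv U a (Real.exp M₀) with hHS
  set HT := pv V b (Real.exp t) with hHT
  have cS : (HS.card : ℝ) ≤ Real.exp M₀ := pv_card U hU a (Real.exp_pos _).le
  have cT : (HT.card : ℝ) ≤ Real.exp t := pv_card V hV b (Real.exp_pos _).le
  -- the rare values of `b`
  have hb : ((V.filter fun y => b y ∉ HT).card : ℝ) / V.card ≤ d := by
    rw [div_le_iff₀ hcV]
    refine le_trans (le_of_eq ?_) hrare
    congr 2
    exact filter_congr fun y hy => R1.not_mem_pv V b _ hy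
  have hb0 : 0 ≤ ((V.filter fun y => b y ∉ HT).card : ℝ) / V.card := by positivity
  -- the rare values of `a`
  set τ : ℝ := ((U.filter fun x => a x ∉ HS).card : ℝ) / U.card with hτ
  have hτ0 : 0 ≤ τ := by positivity
  have hτM : τ * M₀ ≤ h U a := by
    have h1 := pv_compl U hU a (Real.one_lt_exp_iff.2 hM0)
    rw [Real.log_exp] at h1
    rw [hτ, div_mul_eq_mul_div, div_le_iff₀ hcU]
    linarith
  have hE2 : h U (fun x => decide (a x ∉ HS)) ≤ δ / 4 * h U a + c / 4 := by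
    have h1 : h U (fun x => decide (a x ∉ HS)) ≤ δ / 4 * M₀ * τ + Real.exp (-(δ / 4 * M₀)) := by
      rw [hτ]
      exact R1.h_rare2' U (fun x => a x ∉ HS) (δ / 4 * M₀)
    have h2 : δ / 4 * (τ * M₀) ≤ δ / 4 * h U a := mul_le_mul_of_nonneg_left hτM (by positivity)
    linarith
  have hE1 : h V (fun y => decide (b y ∉ HT)) ≤ c / 4 := by
    have h1 : h V (fun y => decide (b y ∉ HT)) ≤ c / 8 +
        ((V.filter fun y => b y ∉ HT).card : ℝ) / V.card / (c / 8) := by
      exact R1.h_rare1' V (fun y => b y ∉ HT) (show 0 < c / 8 by positivity)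
    have h2 : ((V.filter fun y => b y ∉ HT).card : ℝ) / V.card / (c / 8) ≤ c / 8 := by
      rw [div_le_iff₀ (by positivity)]
      nlinarith
    linarith
  have ht' : τ * t ≤ δ / 4 * h U a := by
    have h1 : τ * t ≤ τ * (δ / 4 * M₀) := mul_le_mul_of_nonneg_left hM1 hτ0
    have h2 : δ / 4 * (τ * M₀) ≤ δ / 4 * h U a := mul_le_mul_of_nonneg_left hτM (by positivity)
    linarith
  have hb' : ((V.filter fun y => b y ∉ HT).card : ℝ) / V.card * h U a ≤ δ / 4 * h U a :=
    mul_le_mul_of_nonneg_right (hb.trans hd2) hh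
  -- the bad multipliers
  set Bad := Q.filter fun m => ∃ a₁ ∈ HS, ∃ a₂ ∈ HS, ∃ b₁ ∈ HT, ∃ b₂ ∈ HT,
      m • a₁ + b₁ = m • a₂ + b₂ ∧ a₁ ≠ a₂ with hBad
  have hBc : (Bad.card : ℝ) ≤ Real.exp (2 * M₀ + 2 * t) := by
    have h1 := R1.bad_card U a Q HS HT (fun r hr => by
      obtain ⟨x, hx, hxr⟩ := mem_image.1 hr
      exact ⟨x, (mem_filter.1 hx).1, hxr⟩) hinj
    have h2 : (Bad.card : ℝ) ≤ HS.card * HS.card * (HT.card * HT.card) := by exact_mod_cast h1
    refine h2.trans ?_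
    have h3 : Real.exp (2 * M₀ + 2 * t) =
        Real.exp M₀ * Real.exp M₀ * (Real.exp t * Real.exp t) := by
      rw [← Real.exp_add, ← Real.exp_add, ← Real.exp_add]
      congr 1
      ring
    rw [h3]
    gcongr
  have main : ∀ m ∈ Q, ce (U ×ˢ V) (fun s => m • a s.1 + b s.2) (fun s => a s.1) ≤
      (3 * (δ / 4) * h U a + c / 2) + if m ∈ Q₀ ∪ Bad then h U a else 0 := by
    intro m hm
    split_ifs with h1
    · have h2 := ce_le_h (U ×ˢ V) (fun s => m • a s.1 + b s.2) (fun s => a s.1)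
      rw [h_fst U V hU hV a] at h2
      have : 0 ≤ 3 * (δ / 4) * h U a := by positivity
      linarith
    · rw [mem_union, not_or] at h1
      have h2 := R1.good m U V hU hV a b HS HT ht cT (hg m hm h1.1) (by
        intro a₁ h₁ a₂ h₂ b₁ h₃ b₂ h₄ h₅
        by_contra h₆
        exact h1.2 (mem_filter.2 ⟨hm, a₁, h₁, a₂, h₂, b₁, h₃, b₂, h₄, h₅, h₆⟩))
      rw [← hτ] at h2
      linarith
  refine (sum_le_sum main).trans ?_
  rw [sum_add_distrib, sum_const, nsmul_eq_mul, ← sum_filter, sum_const, nsmul_eq_mul]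
  have h5 : ((Q.filter fun m => m ∈ Q₀ ∪ Bad).card : ℝ) ≤ Real.exp (2 * M₀ + 2 * t) + 1 := by
    have h6 : (Q.filter fun m => m ∈ Q₀ ∪ Bad).card ≤ Q₀.card + Bad.card :=
      (card_le_card fun m hm => (mem_filter.1 hm).2).trans (card_union_le _ _)
    have h7 : ((Q.filter fun m => m ∈ Q₀ ∪ Bad).card : ℝ) ≤ Q₀.card + Bad.card := by
      exact_mod_cast h6
    have h8 : (Q₀.card : ℝ) ≤ 1 := by exact_mod_cast hQ₀c
    linarith
  have h6 : Real.exp (2 * M₀ + 2 * t) + 1 ≤ δ / 4 * Q.card := by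
    have h7 : (Real.exp (2 * M₀ + 2 * t) + 1) * (4 / δ) * (δ / 4) ≤ Q.card * (δ / 4) :=
      mul_le_mul_of_nonneg_right hK (by positivity)
    have h8 : (Real.exp (2 * M₀ + 2 * t) + 1) * (4 / δ) * (δ / 4) =
        Real.exp (2 * M₀ + 2 * t) + 1 := by field_simp
    linarith
  have h7 : ((Q.filter fun m => m ∈ Q₀ ∪ Bad).card : ℝ) * h U a ≤ δ / 4 * Q.card * h U a :=
    mul_le_mul_of_nonneg_right (h5.trans h6) hh
  have h8 : 0 ≤ (Q.card : ℝ) * (c / 2) := by positivity
  nlinarith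

/-- **The first rule** for residues of integers. -/
theorem rule1Z {δ c : ℝ} (hδ : 0 < δ) (hc : 0 < c) : ∃ d : ℝ, 0 < d ∧ d < 1 ∧
    ∀ t : ℝ, 0 ≤ t → ∃ K₀ : ℝ, 0 < K₀ ∧ ∀ K p : ℕ, K₀ ≤ K → p.Prime → K ≤ p →
      ∀ (l : ℕ) (S T : Finset ℤ), S.Nonempty → T.Nonempty →
      (lgt t T p l : ℝ) ≤ d * T.card →
      ∑ m ∈ qK K, ce (S ×ˢ T) (fun s => m * s.1 + s.2) (fun s => rp p l s.1) ≤
        (qK K).card * (δ * h S (rp p l) + c) := by
  obtain ⟨d, hd0, hd1, H⟩ := rule1 hδ hc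
  refine ⟨d, hd0, hd1, fun t ht => ?_⟩
  obtain ⟨K₀, hK₀, H⟩ := H t ht
  refine ⟨K₀, hK₀, ?_⟩
  intro K p hK hp hKp l S T hS hT hl
  have hiff : ∀ x y : ℤ, rp p l x = rp p l y ↔ ((x : ZMod (p ^ l)) = (y : ZMod (p ^ l))) := by
    intro x y
    rw [rp_eq_iff, Dt.cast_eq_iff]
    push_cast
    rfl
  have hgood : ∀ m : ℤ, ¬ (p : ℤ) ∣ m → ∀ x : ℤ, m • (x : ZMod (p ^ l)) = 0 →
      (x : ZMod (p ^ l)) = 0 := by
    intro m hm x h0
    have h1 : ((m * x : ℤ) : ZMod (p ^ l)) = ((0 : ℤ) : ZMod (p ^ l)) := by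
      rw [Int.cast_mul, Int.cast_zero, ← zsmul_eq_mul]
      exact h0
    rw [Dt.cast_eq_iff, sub_zero] at h1
    push_cast at h1
    have hcop : IsCoprime ((p : ℤ) ^ l) m := by
      refine IsCoprime.pow_left ?_
      exact (Prime.coprime_iff_not_dvd (Nat.prime_iff_prime_int.1 hp)).2 hm
    have h2 := hcop.dvd_of_dvd_mul_left h1
    have h3 : ((x : ℤ) : ZMod (p ^ l)) = ((0 : ℤ) : ZMod (p ^ l)) := by
      rw [Dt.cast_eq_iff, sub_zero]
      push_cast
      exact h2
    rw [h3, Int.cast_zero]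
  have hQ₀ : ((qK K).filter fun m => (p : ℤ) ∣ m).card ≤ 1 := by
    rw [card_le_one]
    intro m hm m' hm'
    obtain ⟨h1, h2⟩ := mem_filter.1 hm
    obtain ⟨h3, h4⟩ := mem_filter.1 hm'
    exact qK_inj hp hKp h1 h3 (dvd_sub h2 h4)
  have h1 := H ℤ ℤ (ZMod (p ^ l)) S T (fun x => (x : ZMod (p ^ l))) (fun x => (x : ZMod (p ^ l)))
    (qK K) ((qK K).filter fun m => (p : ℤ) ∣ m) hS hT (filter_subset _ _) hQ₀ ?_ ?_
    (by rw [card_qK]; exact hK) ?_
  · have h2 : h S (rp p l) = h S (fun x => (x : ZMod (p ^ l))) :=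
      h_congr fun x _ y _ => hiff x y
    rw [h2]
    refine le_trans (sum_le_sum fun m _ => ?_) h1
    have h3 : ce (S ×ˢ T) (fun s => m * s.1 + s.2) (fun s => rp p l s.1) ≤
        ce (S ×ˢ T) (fun s => m * s.1 + s.2) (fun s => (s.1 : ZMod (p ^ l))) :=
      ce_mono _ _ _ _ fun x _ y _ _ hxy => (hiff _ _).2 hxy
    refine h3.trans (ce_anti _ _ _ _ fun x _ y _ hxy => ?_)
    have hxy' : m * x.1 + x.2 = m * y.1 + y.2 := hxy
    show m • (x.1 : ZMod (p ^ l)) + (x.2 : ZMod (p ^ l)) =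
      m • (y.1 : ZMod (p ^ l)) + (y.2 : ZMod (p ^ l))
    rw [zsmul_eq_mul, zsmul_eq_mul]
    have := congrArg (fun z : ℤ => (z : ZMod (p ^ l))) hxy'
    push_cast at this
    exact this
  · intro m hm hm0 x _ y _ hxy
    have hnd : ¬ (p : ℤ) ∣ m := fun hd => hm0 (mem_filter.2 ⟨hm, hd⟩)
    have hxy' : m • (x : ZMod (p ^ l)) = m • (y : ZMod (p ^ l)) := hxy
    show (x : ZMod (p ^ l)) = (y : ZMod (p ^ l))
    have h2 := hgood m hnd (x - y) (by
      push_cast
      rw [smul_sub, hxy', sub_self])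
    push_cast at h2
    exact sub_eq_zero.1 h2
  · intro x _ y _ hxy m hm m' hm' he
    refine qK_inj hp hKp hm hm' ?_
    by_contra hnd
    have he' : m • ((x : ZMod (p ^ l)) - (y : ZMod (p ^ l))) =
      m' • ((x : ZMod (p ^ l)) - (y : ZMod (p ^ l))) := he
    have h2 := hgood (m - m') hnd (x - y) (by
      push_cast
      rw [sub_smul, he', sub_self])
    push_cast at h2
    exact hxy (sub_eq_zero.1 h2)
  · have h2 : ∀ y ∈ T, fc T (rp p l) y = fc T (fun x => (x : ZMod (p ^ l))) y := by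
      intro y hy
      unfold fc
      rw [cl_eq_of_iff (fun x _ y _ => hiff x y) hy]
    unfold lgt at hl
    refine le_trans (le_of_eq ?_) hl
    congr 2
    refine filter_congr fun y hy => ?_
    unfold Hvy
    rw [not_le, h2 y hy]

end Pool.Agent.T2H12.KH
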