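import Mathlib
import Pool.Agent.T2H12.KH.Flat
import Pool.Agent.T2H12.KH.Rule1
import Pool.Agent.T2H12.KH.One
import Pool.Agent.T2H12.KH.Multi

/-!
# Preparations for the sums with many large primes
-/

set_option autoImplicit false

namespace Pool.Agent.T2H12.KH

open Finset
open scoped Classical
open Pool.Agent.Y359.PE Pool.Agent.T2H12.KF Pool.Agent.T2H12.KD Pool.Agent.T2H12.KG

lemma hvy_of_small {t : ℝ} {T : Finset ℤ} (p l : ℕ) (h1 : (T.card : ℝ) ≤ Real.exp t) {y : ℤ}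
    (hy : y ∈ T) : Hvy t T p l y := by
  unfold Hvy
  have h2 : (1 : ℝ) ≤ fc T (rp p l) y := by exact_mod_cast fc_pos hy
  calc (T.card : ℝ) ≤ Real.exp t * 1 := by rw [mul_one]; exact h1
    _ ≤ _ := mul_le_mul_of_nonneg_left h2 (Real.exp_pos _).le

lemma lev_small {t d : ℝ} (hd : 0 ≤ d) (N p : ℕ) {T : Finset ℤ}
    (h1 : (T.card : ℝ) ≤ Real.exp t) : lev t d N p T = N := by
  unfold lev
  refine le_antisymm (Nat.findGreatest_le _) (Nat.le_findGreatest le_rfl ?_)
  have h2 : lgt t T p N = 0 := by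
    unfold lgt
    rw [card_eq_zero, filter_eq_empty_iff]
    intro y hy
    rw [not_not]
    exact hvy_of_small p N h1 hy
  rw [h2, Nat.cast_zero]
  positivity

lemma exists_sep (W : Finset ℤ) : ∃ N : ℕ, ∀ p : ℕ, 2 ≤ p → ∀ x ∈ W, ∀ y ∈ W,
    (p : ℤ) ^ N ∣ x - y → x = y := by
  refine ⟨2 * W.sup Int.natAbs + 1, ?_⟩
  intro p hp x hx y hy hd
  set B := W.sup Int.natAbs with hB
  have h1 : x.natAbs ≤ B := le_sup (f := Int.natAbs) hx
  have h2 : y.natAbs ≤ B := le_sup (f := Int.natAbs) hy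
  have h3 : (x - y).natAbs ≤ 2 * B := by omega
  have h4 : 2 * B + 1 < 2 ^ (2 * B + 1) := Nat.lt_two_pow_self
  have h5 : 2 ^ (2 * B + 1) ≤ p ^ (2 * B + 1) := Nat.pow_le_pow_left hp _
  have h6 : x - y = 0 := by
    by_contra hne
    have h7 : p ^ (2 * B + 1) ∣ (x - y).natAbs := by
      have := Int.natAbs_dvd_natAbs.2 hd
      rwa [Int.natAbs_pow, Int.natAbs_natCast] at this
    have h8 := Nat.le_of_dvd (Int.natAbs_pos.2 hne) h7
    omega
  linarith

/-- the entropy of the sum from below -/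
lemma h_sum_ge (m : ℤ) (U V : Finset ℤ) (hU : U.Nonempty) (hV : V.Nonempty) (F : ℤ × ℤ → St)
    (hF : Rect U V F) :
    ((U ×ˢ V).card : ℝ) * (Real.log U.card + Real.log V.card) -
      ((U ×ˢ V).card : ℝ) * ce (U ×ˢ V) (fun s => m * s.1 + s.2) F -
      ∑ s ∈ U ×ˢ V, Real.log (F s).1.card ≤
      ((U ×ˢ V).card : ℝ) * h (U ×ˢ V) (fun s => m * s.1 + s.2) := by
  have hUc : (0 : ℝ) < U.card := by exact_mod_cast card_pos.2 hU
  have hVc : (0 : ℝ) < V.card := by exact_mod_cast card_pos.2 hV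
  set X := U ×ˢ V with hX
  set z : ℤ × ℤ → ℤ := fun s => m * s.1 + s.2 with hz
  have hXc : (X.card : ℝ) = U.card * V.card := by
    rw [hX, card_product]
    push_cast
    rfl
  have h1 : ce X z (fun s => s.1) = Real.log U.card + Real.log V.card - h X z := by
    unfold ce
    rw [h_inj X _ (by
      intro x _ y _ hxy
      obtain ⟨h3, h4⟩ := Prod.mk.inj hxy
      have h3' : m * x.1 + x.2 = m * y.1 + y.2 := h3
      have h4' : x.1 = y.1 := h4
      refine Prod.ext h4' ?_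
      rw [h4'] at h3'
      linarith), hXc, Real.log_mul hUc.ne' hVc.ne']
  have h2 : ce X z (fun s => s.1) ≤ ce X z F + ce X (fun s => (z s, F s)) (fun s => s.1) := by
    rw [← ce_chain]
    exact ce_mono _ _ _ _ fun x _ y _ _ hxy => (Prod.mk.inj hxy).2
  have h3 : ce X (fun s => (z s, F s)) (fun s => s.1) = ce X (fun s => (F s, z s))
      (fun s => s.1) := ce_congr_left _ _ _ _ fun x _ y _ =>
    ⟨fun h => Prod.ext (Prod.mk.inj h).2 (Prod.mk.inj h).1,
      fun h => Prod.ext (Prod.mk.inj h).2 (Prod.mk.inj h).1⟩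
  have h4 := ce_avg X F z (fun s => s.1)
  have h5 : ∀ s ∈ X, ce (cl X F s) z (fun s => s.1) ≤ Real.log (F s).1.card := by
    intro s hs
    obtain ⟨m1, m2, m3⟩ := hF.mem s hs
    obtain ⟨m4, m5⟩ := mem_product.1 m1
    have e1 : cl X F s = (F s).1 ×ˢ (F s).2.1 := by
      ext y
      rw [mem_cl]
      constructor
      · rintro ⟨h6, h7⟩
        have := (hF.mem y h6).1
        rwa [h7] at this
      · intro h6
        refine ⟨?_, hF.const s hs y h6⟩
        rw [hX]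
        exact product_subset_product m2 m3 h6
    rw [e1]
    refine (ce_le_h _ _ _).trans ?_
    rw [h_fst (F s).1 (F s).2.1 ⟨_, m4⟩ ⟨_, m5⟩ (fun x => x), h_id]
  have h6 := sum_le_sum h5
  rw [← h4] at h6
  have hX0 : (0 : ℝ) ≤ X.card := Nat.cast_nonneg _
  have h7 := mul_le_mul_of_nonneg_left h2 hX0
  rw [h1, h3] at h7
  linarith

/-- the classes of the exponents and of the part prime to `Q` -/
lemma gp_res {Q : Finset ℕ} (hQ : ∀ q ∈ Q, q.Prime) {p : ℕ} (hp : p ∈ Q) {x y : ℤ}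
    (hx : x ≠ 0) (hy : y ≠ 0) (h : gp Q x = gp Q y) (l : ℕ) :
    rp p l x = rp p l y ↔ rp p (l - fa x p) (gq Q x) = rp p (l - fa x p) (gq Q y) := by
  rw [rp_eq_iff, rp_eq_iff]
  have h0 : (0 : ℤ) ∉ ({x, y} : Finset ℤ) := by
    intro h1
    rw [mem_insert, mem_singleton] at h1
    rcases h1 with h1 | h1
    · exact hx h1.symm
    · exact hy h1.symm
  exact (HG_gp hQ hp h0).2 x (mem_insert_self _ _) y (mem_insert_of_mem (mem_singleton_self _)) h l

/-- the lower bound for the entropy of the exponents -/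
lemma fib_low {Q : Finset ℕ} (hQ : ∀ q ∈ Q, q.Prime) (A O : Finset ℤ) (h0 : (0 : ℤ) ∉ A)
    (hOA : O ⊆ A) (hO : O.Nonempty) {τ : ℝ}
    (hf : ∀ x ∈ O, Real.exp τ ≤ fc A (gq Q) x) (J : ℕ) (P : ℕ → ℕ)
    (hP : ∀ q ∈ Q, ∃ j < J, P j = q) :
    Real.log O.card - (Real.log A.card - τ) ≤
      ce O (gq Q) (fun x => fun j : Fin J => fa x (P j)) := by
  have hOc : (0 : ℝ) < O.card := by exact_mod_cast card_pos.2 hO
  have hAc : (0 : ℝ) < A.card := by exact_mod_cast card_pos.2 (hO.mono hOA)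
  have hne : ∀ x ∈ O, x ≠ 0 := fun x hx h => h0 (h ▸ hOA hx)
  have h1 : ce O (gq Q) (fun x => fun j : Fin J => fa x (P j)) =
      Real.log O.card - h O (gq Q) := by
    unfold ce
    rw [h_inj O _ (by
      intro x hx y hy hxy
      obtain ⟨h3, h4⟩ := Prod.mk.inj hxy
      have h5 : gp Q x = gp Q y := by
        rw [gp_eq_iff hQ]
        intro q hq
        obtain ⟨j, hj, rfl⟩ := hP q hq
        exact congrFun h4 ⟨j, hj⟩
      rw [eq_gp_mul_gq hQ (hne x hx), eq_gp_mul_gq hQ (hne y hy), h5, h3])]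
  have h2 := h_le_log hO (gq Q)
  have h3 := image_card_le A O (gq Q) hf
  have hI : (0 : ℝ) < (O.image (gq Q)).card := by exact_mod_cast card_pos.2 (hO.image _)
  have hinst : ∀ i₁ i₂ : DecidableEq ℤ, @Finset.image ℤ ℤ i₁ (gq Q) O =
      @Finset.image ℤ ℤ i₂ (gq Q) O := fun i₁ i₂ => by rw [Subsingleton.elim i₁ i₂]
  rw [hinst _ Int.instDecidableEq] at h2 h3
  have h4 := Real.log_le_log (mul_pos hI (Real.exp_pos _)) h3
  rw [Real.log_mul hI.ne' (Real.exp_pos _).ne', Real.log_exp] at h4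
  rw [h1]
  linarith

end Pool.Agent.T2H12.KH
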