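import Mathlib
import Pool.Agent.T2H12.KH.SA1

/-!
# The flats for a fixed second summand
-/

set_option autoImplicit false

namespace Pool.Agent.T2H12.KH

open Finset
open scoped Classical
open Pool.Agent.Y359.PE Pool.Agent.T2H12.KF Pool.Agent.T2H12.KD Pool.Agent.T2H12.KG

/-- the statement of `flat` for given parameters -/
def FlatP (δ lam al : ℝ) : Prop :=
    ∀ (ρ : ℝ), 0 < ρ → ρ ≤ 1 / 2 → ∀ (U : Finset ℤ) (J : ℕ) (O : ℕ → Finset ℤ)
      (Sc : ℕ → ℤ → Finset ℤ) (n v l : ℕ → ℤ → ℕ) (g : ℤ → ℤ) (G : ℕ → ℕ → ℤ → ℤ),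
      O 0 ⊆ U → (∀ j < J, O (j + 1) ⊆ O j) →
      (∀ j e x y, g x = g y → G j e x = G j e y) →
      (∀ j e e' x y, e ≤ e' → G j e' x = G j e' y → G j e x = G j e y) →
      (∀ j < J, ∀ x ∈ O (j + 1), x ∈ Sc j x ∧ Sc j x ⊆ O (j + 1)) →
      (∀ j < J, ∀ x ∈ O (j + 1), ∀ y ∈ Sc j x, Sc j y = Sc j x) →
      (∀ j < J, ∀ x ∈ O (j + 1), ∀ y ∈ Sc j x, ∀ i ≤ j, n i y = n i x ∧ v i y = v i x ∧
        l i y = l i x ∧ G i (l i x - v i x) y = G i (l i x - v i x) x) →
      (∀ j < J, ∀ x ∈ O (j + 1), ∀ y ∈ O (j + 1), (∀ i ≤ j, n i x = n i y) → l j x = l j y) →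
      (∀ j < J, ∀ x ∈ O (j + 1), v j x ≤ l j x) →
      (∀ j < J, ∀ x ∈ O (j + 1), (((Sc j x).filter fun y =>
          lam * (Sc j x).card ≤ fc (Sc j x) (G j (l j x + 1 - v j x)) y).card : ℝ) ≤
        al * (Sc j x).card) →
      ((O J).card : ℝ) * ce (O J) g (fun x => fun j : Fin J => v j x) ≤
        δ * (U.card * Real.log U.card + J * U.card) + 2 * ρ * J * U.card +
          Real.log (1 / ρ) * ∑ x ∈ U, ∑ j ∈ range J, (n j x : ℝ)

theorem flat' {δ : ℝ} (hδ : 0 < δ) : ∃ lam al : ℝ, 0 < lam ∧ lam ≤ 1 ∧ 0 < al ∧ al ≤ 1 ∧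
    FlatP δ lam al := flat hδ

/-- **The flats for a fixed second summand.** -/
theorem flat_app {δ lam : ℝ} (π : Par) (D : Finset ℤ) (hF : FlatP δ lam π.al)
    (hal : π.al ≤ 1) (hu : 0 ≤ π.u) (hlam : Real.exp π.u * lam = 1)
    {ρ : ℝ} (hρ : 0 < ρ) (hρ2 : ρ ≤ 1 / 2) (Q : Finset ℕ) (hQ : ∀ q ∈ Q, q.Prime)
    (P : ℕ → ℕ) (J : ℕ) (hP : ∀ j < J, P j ∈ Q) (U V : Finset ℤ) (h0 : (0 : ℤ) ∉ U)
    (st : ℕ → ℤ × ℤ → St) (hst0 : ∀ s, st 0 s = (cl U (gp Q) s.1, V, 0))
    (hR : ∀ j ≤ J, Rect U V (st j))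
    (hO : ∀ j < J, ∀ s ∈ U ×ˢ V, OneP π D (P j) (st j s).1 (st j s).2.1 (st (j + 1)))
    (b : ℤ) (hb : b ∈ V) :
    ((U.filter fun x => Real.exp π.t < ((st J (x, b)).2.1.card : ℝ)).card : ℝ) *
      ce (U.filter fun x => Real.exp π.t < ((st J (x, b)).2.1.card : ℝ)) (gq Q)
        (fun x => fun j : Fin J => fa x (P j)) ≤
      δ * (U.card * Real.log U.card + J * U.card) + 2 * ρ * J * U.card +
          Real.log (1 / ρ) * ∑ x ∈ U, ∑ j ∈ range J, ((st (j + 1) (x, b)).2.2 : ℝ) := by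
  have hne : ∀ x ∈ U, x ≠ 0 := fun x hx h => h0 (h ▸ hx)
  have hX : ∀ x ∈ U, (x, b) ∈ U ×ˢ V := fun x hx => mem_product.2 ⟨hx, hb⟩
  -- the rectangles
  have hself : ∀ j ≤ J, ∀ x ∈ U, x ∈ (st j (x, b)).1 ∧ b ∈ (st j (x, b)).2.1 := by
    intro j hj x hx
    exact mem_product.1 ((hR j hj).mem (x, b) (hX x hx)).1
  have hsubU : ∀ j ≤ J, ∀ x ∈ U, (st j (x, b)).1 ⊆ U := fun j hj x hx =>
    ((hR j hj).mem (x, b) (hX x hx)).2.1
  have hcon : ∀ j ≤ J, ∀ x ∈ U, ∀ y ∈ (st j (x, b)).1, st j (y, b) = st j (x, b) := by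
    intro j hj x hx y hy
    exact (hR j hj).const (x, b) (hX x hx) (y, b) (mem_product.2 ⟨hy, (hself j hj x hx).2⟩)
  have hstep : ∀ j < J, ∀ x ∈ U, (st (j + 1) (x, b)).1 ⊆ (st j (x, b)).1 ∧
      (st (j + 1) (x, b)).2.1 ⊆ (st j (x, b)).2.1 := by
    intro j hj x hx
    exact ((hO j hj (x, b) (hX x hx)).mem (x, b)
      (mem_product.2 (hself j hj.le x hx))).2
  have hnest : ∀ i j, i ≤ j → j ≤ J → ∀ x ∈ U, (st j (x, b)).1 ⊆ (st i (x, b)).1 := by
    intro i j hij
    induction j, hij using Nat.le_induction with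
    | base => intro _ x _; exact Subset.refl _
    | succ j hij ih =>
      intro hj x hx
      exact (hstep j (by omega) x hx).1.trans (ih (by omega) x hx)
  have hall : ∀ i j, i ≤ j → j ≤ J → ∀ x ∈ U, ∀ y ∈ (st j (x, b)).1,
      st i (y, b) = st i (x, b) := fun i j hij hj x hx y hy =>
    hcon i (hij.trans hj) x hx y (hnest i j hij hj x hx hy)
  have hgp : ∀ j ≤ J, ∀ x ∈ U, ∀ y ∈ (st j (x, b)).1, gp Q y = gp Q x := by
    intro j hj x hx y hy
    have h1 := hnest 0 j (Nat.zero_le _) hj x hx hy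
    rw [hst0] at h1
    exact (mem_cl.1 h1).2
  have hfa : ∀ j ≤ J, ∀ x ∈ U, ∀ y ∈ (st j (x, b)).1, ∀ i < J, fa y (P i) = fa x (P i) :=
    fun j hj x hx y hy i hi => (gp_eq_iff hQ).1 (hgp j hj x hx y hy) _ (hP i hi)
  set O : ℕ → Finset ℤ := fun j => U.filter fun x => Real.exp π.t < ((st j (x, b)).2.1.card : ℝ)
    with hOd
  have hmemO : ∀ j x, x ∈ O j ↔ x ∈ U ∧ Real.exp π.t < ((st j (x, b)).2.1.card : ℝ) :=
    fun j x => mem_filter
  refine hF ρ hρ hρ2 U J O (fun j x => (st (j + 1) (x, b)).1)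
    (fun j x => (st (j + 1) (x, b)).2.2) (fun j x => fa x (P j))
    (fun j x => π.lv (P j) (st (j + 1) (x, b)).2.1) (gq Q) (fun j e x => rp (P j) e (gq Q x))
    (filter_subset _ _) ?_ ?_ ?_ ?_ ?_ ?_ ?_ ?_ ?_
  · intro j hj x hx
    rw [hmemO] at hx ⊢
    refine ⟨hx.1, lt_of_lt_of_le hx.2 ?_⟩
    exact_mod_cast card_le_card (hstep j hj x hx.1).2
  · intro j e x y hxy
    simp only [hxy]
  · intro j e e' x y hee hxy
    exact rp_mono hee hxy
  · intro j hj x hx
    have hxU := ((hmemO _ _).1 hx).1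
    refine ⟨(hself (j + 1) hj x hxU).1, ?_⟩
    intro y hy
    have hy' : y ∈ (st (j + 1) (x, b)).1 := hy
    rw [hmemO, hcon (j + 1) hj x hxU y hy']
    exact ⟨hsubU (j + 1) hj x hxU hy', ((hmemO _ _).1 hx).2⟩
  · intro j hj x hx y hy
    have hxU := ((hmemO _ _).1 hx).1
    have hy' : y ∈ (st (j + 1) (x, b)).1 := hy
    simp only [hcon (j + 1) hj x hxU y hy']
  · intro j hj x hx y hy i hi
    have hxU := ((hmemO _ _).1 hx).1
    have hy' : y ∈ (st (j + 1) (x, b)).1 := hy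
    have h1 := hall (i + 1) (j + 1) (by omega) hj x hxU y hy'
    have h2 := hfa (j + 1) hj x hxU y hy' i (by omega)
    refine ⟨?_, h2, ?_, ?_⟩
    · simp only [h1]
    · simp only [h1]
    · have hyi : y ∈ (st (i + 1) (x, b)).1 :=
        hnest (i + 1) (j + 1) (by omega) hj x hxU hy'
      have h3 := (hO i (by omega) (x, b) (hX x hxU)).res (x, b)
        (mem_product.2 (hself i (by omega) x hxU)) y hyi x
        (hself (i + 1) (by omega) x hxU).1
      have h4 := (gp_res hQ (hP i (by omega)) (hne y (hsubU (j + 1) hj x hxU hy'))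
        (hne x hxU) (hgp (j + 1) hj x hxU y hy') _).1 h3
      rw [h2] at h4
      exact h4
  · intro j hj x hx y hy hn
    have hxU := ((hmemO _ _).1 hx).1
    have hyU := ((hmemO _ _).1 hy).1
    have h1 : ∀ i, i ≤ j + 1 → (st i (x, b)).2.1 = (st i (y, b)).2.1 := by
      intro i
      induction i with
      | zero =>
        intro _
        rw [hst0, hst0]
      | succ i ih =>
        intro hi
        have h2 := (hO i (by omega) (x, b) (hX x hxU)).chain (x, b)
          (mem_product.2 (hself i (by omega) x hxU))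
        have h3 := (hO i (by omega) (y, b) (hX y hyU)).chain (y, b)
          (mem_product.2 (hself i (by omega) y hyU))
        have h4 : (st (i + 1) (x, b)).2.2 = (st (i + 1) (y, b)).2.2 := hn i (by omega)
        rw [h2, h3, h4, ih (by omega)]
    simp only [h1 (j + 1) le_rfl]
  · intro j hj x hx
    have hx' := (hmemO _ _).1 hx
    have hxU := hx'.1
    by_contra hcon2
    rw [not_le] at hcon2
    have hstop := (hO j hj (x, b) (hX x hxU)).stop (x, b)
      (mem_product.2 (hself j hj.le x hxU))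
    rcases hstop with h1 | h1
    · linarith [hx'.2]
    · set S := (st (j + 1) (x, b)).1 with hS
      set ℓ := π.lv (P j) (st (j + 1) (x, b)).2.1 with hℓ
      have hxS : x ∈ S := (hself (j + 1) hj x hxU).1
      have h2 : ∀ y ∈ S, Hvy π.u S (P j) (ℓ + 1) y := by
        intro y hy
        unfold Hvy
        have h3 : fc S (rp (P j) (ℓ + 1)) y = S.card := by
          unfold fc
          congr 1
          ext w
          rw [mem_cl]
          refine ⟨fun h => h.1, fun hw => ⟨hw, ?_⟩⟩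
          rw [rp_eq_iff]
          have d1 : ∀ w ∈ S, ((P j : ℕ) : ℤ) ^ (ℓ + 1) ∣ w := by
            intro w hw
            have hwU := hsubU (j + 1) hj x hxU hw
            refine (pow_dvd_iff_fa (hQ _ (hP j hj)) (hne w hwU) (ℓ + 1)).2 ?_
            rw [hfa (j + 1) hj x hxU w hw j hj]
            exact hcon2
          exact dvd_sub (d1 w hw) (d1 y hy)
        rw [h3]
        have h4 : 1 ≤ Real.exp π.u := Real.one_le_exp hu
        have h5 : (0 : ℝ) ≤ S.card := Nat.cast_nonneg _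
        nlinarith
      rw [filter_true_of_mem h2] at h1
      have h3 : (0 : ℝ) < S.card := by exact_mod_cast card_pos.2 ⟨x, hxS⟩
      nlinarith
  · intro j hj x hx
    have hx' := (hmemO _ _).1 hx
    have hxU := hx'.1
    have hstop := (hO j hj (x, b) (hX x hxU)).stop (x, b)
      (mem_product.2 (hself j hj.le x hxU))
    rcases hstop with h1 | h1
    · linarith [hx'.2]
    · refine le_trans ?_ h1.le
      have hsub : ((st (j + 1) (x, b)).1.filter fun y =>
          lam * (st (j + 1) (x, b)).1.card ≤ fc (st (j + 1) (x, b)).1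
            (fun x_1 => rp (P j) (π.lv (P j) (st (j + 1) (x, b)).2.1 + 1 - fa x (P j))
              (gq Q x_1)) y) ⊆
          (st (j + 1) (x, b)).1.filter fun y => Hvy π.u (st (j + 1) (x, b)).1 (P j)
            (π.lv (P j) (st (j + 1) (x, b)).2.1 + 1) y := by
        intro y hy
        obtain ⟨hy1, hy2⟩ := mem_filter.1 hy
        refine mem_filter.2 ⟨hy1, ?_⟩
        unfold Hvy
        have h3 : fc (st (j + 1) (x, b)).1 (fun x_1 => rp (P j)
            (π.lv (P j) (st (j + 1) (x, b)).2.1 + 1 - fa x (P j)) (gq Q x_1)) y =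
            fc (st (j + 1) (x, b)).1 (rp (P j) (π.lv (P j) (st (j + 1) (x, b)).2.1 + 1)) y := by
          unfold fc
          congr 1
          refine cl_eq_of_iff (fun w hw y' hy' => ?_) hy1
          have hwU := hsubU (j + 1) hj x hxU hw
          have hyU := hsubU (j + 1) hj x hxU hy'
          have e1 : gp Q w = gp Q y' := by
            rw [hgp (j + 1) hj x hxU w hw, hgp (j + 1) hj x hxU y' hy']
          rw [gp_res hQ (hP j hj) (hne w hwU) (hne y' hyU) e1,
            hfa (j + 1) hj x hxU w hw j hj]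
        rw [h3] at hy2
        have h4 := mul_le_mul_of_nonneg_left hy2 (Real.exp_pos π.u).le
        rw [← mul_assoc, hlam, one_mul] at h4
        exact h4
      exact_mod_cast card_le_card hsub

end Pool.Agent.T2H12.KH
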