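import Mathlib
import Pool.Agent.T2H12.KD.Main
import Pool.Agent.T2H12.KG.Main

/-!
# Few primes with spread exponents among many primes: sums with a multiplier (package CORED)
-/

set_option autoImplicit false

namespace Pool.Agent.T2H12.KH

open Finset
open scoped Classical
open Pool.Agent.Y359.PE Pool.Agent.T2H12.KF Pool.Agent.T2H12.KD Pool.Agent.T2H12.KG

lemma good_empty (G : ℤ → ℤ) : ∀ L : List (ℕ × ℝ), Good G L ∅ := by
  intro L
  induction L with
  | nil => trivial
  | cons a L ih =>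
    obtain ⟨p, e⟩ := a
    refine ⟨fun x hx => absurd hx (notMem_empty _), fun w => ?_⟩
    rw [filter_empty]
    exact ih

/-- dilating the set -/
lemma good_dilate {G G' : ℤ → ℤ} {m : ℤ} (hm : m ≠ 0) (hG : ∀ x, G' (m * x) = G x) :
    ∀ (L : List (ℕ × ℝ)) (U : Finset ℤ), (∀ x ∈ U, x ≠ 0) → Good G L U →
      Good G' L (U.image fun x => m * x) := by
  have hinj : Function.Injective fun x : ℤ => m * x := fun x y hxy => mul_left_cancel₀ hm hxy
  intro L
  induction L with
  | nil => intro U _ _; exact trivial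
  | cons a L ih =>
    obtain ⟨p, e⟩ := a
    intro U h0 hU
    have e1 : ∀ g w : ℤ, ((U.image fun x => m * x).filter fun y => G' y = g) =
        (U.filter fun x => G x = g).image fun x => m * x := by
      intro g w
      ext y
      simp only [mem_filter, mem_image]
      constructor
      · rintro ⟨⟨x, hx, rfl⟩, h2⟩
        exact ⟨x, ⟨hx, by rw [← hG x]; exact h2⟩, rfl⟩
      · rintro ⟨x, ⟨hx, h2⟩, rfl⟩
        exact ⟨⟨x, hx, rfl⟩, by rw [hG]; exact h2⟩
    refine ⟨?_, ?_⟩
    · intro y hy w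
      obtain ⟨x, hx, rfl⟩ := mem_image.1 hy
      rw [hG x, e1 (G x) 0, card_image_of_injective _ hinj]
      rcases le_or_gt (fa m p) w with hw | hw
      · have e2 : ((U.image fun x => m * x).filter fun y => G' y = G x ∧ fa y p = w) =
            (U.filter fun x' => G x' = G x ∧ fa x' p = w - fa m p).image fun x => m * x := by
          ext y
          simp only [mem_filter, mem_image]
          constructor
          · rintro ⟨⟨z, hz, rfl⟩, h2, h3⟩
            refine ⟨z, ⟨hz, by rw [← hG z]; exact h2, ?_⟩, rfl⟩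
            rw [fa_mul hm (h0 z hz)] at h3
            omega
          · rintro ⟨z, ⟨hz, h2, h3⟩, rfl⟩
            refine ⟨⟨z, hz, rfl⟩, by rw [hG]; exact h2, ?_⟩
            rw [fa_mul hm (h0 z hz)]
            omega
        rw [e2, card_image_of_injective _ hinj]
        exact hU.1 x hx _
      · have e2 : ((U.image fun x => m * x).filter fun y => G' y = G x ∧ fa y p = w) = ∅ := by
          rw [filter_eq_empty_iff]
          intro y hy
          obtain ⟨z, hz, rfl⟩ := mem_image.1 hy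
          rintro ⟨_, h3⟩
          rw [fa_mul hm (h0 z hz)] at h3
          omega
        rw [e2, card_empty, Nat.cast_zero, mul_zero]
        positivity
    · intro w
      rcases le_or_gt (fa m p) w with hw | hw
      · have e2 : ((U.image fun x => m * x).filter fun y => fa y p = w) =
            (U.filter fun x' => fa x' p = w - fa m p).image fun x => m * x := by
          ext y
          simp only [mem_filter, mem_image]
          constructor
          · rintro ⟨⟨z, hz, rfl⟩, h3⟩
            refine ⟨z, ⟨hz, ?_⟩, rfl⟩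
            rw [fa_mul hm (h0 z hz)] at h3
            omega
          · rintro ⟨z, ⟨hz, h3⟩, rfl⟩
            refine ⟨⟨z, hz, rfl⟩, ?_⟩
            rw [fa_mul hm (h0 z hz)]
            omega
        rw [e2]
        exact ih _ (fun x hx => h0 x (mem_filter.1 hx).1) (hU.2 _)
      · have e2 : ((U.image fun x => m * x).filter fun y => fa y p = w) = ∅ := by
          rw [filter_eq_empty_iff]
          intro y hy
          obtain ⟨z, hz, rfl⟩ := mem_image.1 hy
          intro h3
          rw [fa_mul hm (h0 z hz)] at h3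
          omega
        rw [e2]
        exact good_empty _ _

/-- entropies of functions of the dilate of the first summand -/
lemma h_dilate {β : Type*} {m : ℤ} (hm : m ≠ 0) (U V : Finset ℤ) (f : ℤ × ℤ → β) :
    h ((U.image fun x => m * x) ×ˢ V) f = h (U ×ˢ V) (fun s => f (m * s.1, s.2)) := by
  have e1 : (U.image fun x => m * x) ×ˢ V =
      (U ×ˢ V).image fun s : ℤ × ℤ => (m * s.1, s.2) := by
    ext s
    simp only [mem_product, mem_image, Prod.exists]
    constructor
    · rintro ⟨⟨x, hx, h1⟩, h2⟩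
      exact ⟨x, s.2, ⟨hx, h2⟩, by rw [h1]⟩
    · rintro ⟨x, y, ⟨hx, hy⟩, rfl⟩
      exact ⟨⟨x, hx, rfl⟩, hy⟩
  rw [e1]
  refine h_image (U ×ˢ V) (fun s : ℤ × ℤ => (m * s.1, s.2)) ?_ f
  intro x _ y _ hxy
  obtain ⟨h1, h2⟩ := Prod.mk.inj hxy
  exact Prod.ext (mul_left_cancel₀ hm h1) h2

/-- **The core with a multiplier.** -/
theorem coreD {δ δ₂ : ℝ} (hδ : 0 < δ) (hδ1 : δ ≤ 1) (hδ₂ : 0 < δ₂) :
    ∃ (E C₂ B : ℝ) (K' : ℕ), 0 < E ∧ 0 < C₂ ∧ 0 ≤ B ∧
    ∀ (Q : Finset ℕ) (L : List (ℕ × ℝ)) (U V : Finset ℤ), (∀ q ∈ Q, q.Prime) →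
      (∀ a ∈ L, a.1 ∈ Q) → U.Nonempty → V.Nonempty → (0 : ℤ) ∉ U →
      Good (gq Q) L U → C₂ * (Real.log U.card + Real.log V.card) ≤ tot E L →
      ∃ m : ℕ, 1 ≤ m ∧ m ≤ K' ∧
        (1 - δ) * (Real.log U.card + Real.log V.card) - δ₂ * Q.card - B ≤
          Real.log ((U ×ˢ V).image fun s => (m : ℤ) * s.1 + s.2).card := by
  set d : ℝ := δ / 6 with hd
  have hd0 : 0 < d := by positivity
  have hd1 : d ≤ 1 := by
    rw [hd]
    linarith
  obtain ⟨E, C₂, hE, hC₂, hdd⟩ := dd_final hd0 hd1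
  obtain ⟨K', B, hB, hmult⟩ := exists_mult hd0 hd1 hδ₂
  refine ⟨E, C₂, B, K', hE, hC₂, hB, ?_⟩
  intro Q L U V hQ hLQ hU hV h0 hG htot
  have hne : ∀ x ∈ U, x ≠ 0 := fun x hx h => h0 (h ▸ hx)
  obtain ⟨m, hm1, hmK, hmle⟩ := hmult Q.toList U V Q.nodup_toList
    (fun p hp => hQ p (Finset.mem_toList.1 hp)) h0 hU hV
  refine ⟨m, hm1, hmK, ?_⟩
  have hm0 : (m : ℤ) ≠ 0 := by
    have : 0 < m := hm1
    exact_mod_cast this.ne'
  have hinj : Function.Injective fun x : ℤ => (m : ℤ) * x := fun x y hxy =>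
    mul_left_cancel₀ hm0 hxy
  have hdiv : ∀ x : ℤ, ((m : ℤ) * x) / m = x := fun x => Int.mul_ediv_cancel_left x hm0
  set U' : Finset ℤ := U.image fun x => (m : ℤ) * x with hU'
  set γ' : ℤ → ℤ := fun y => m * gp Q (y / m) with hγ'
  set G' : ℤ → ℤ := fun y => gq Q (y / m) with hG'
  have hγm : ∀ x, γ' ((m : ℤ) * x) = m * gp Q x := fun x => by
    simp only [hγ', hdiv]
  have hGm : ∀ x, G' ((m : ℤ) * x) = gq Q x := fun x => by
    simp only [hG', hdiv]
  have hUc : U'.card = U.card := card_image_of_injective _ hinj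
  have hU'n : U'.Nonempty := hU.image _
  have h1 := hdd γ' G' L U' V hU'n hV (by
      intro y hy
      obtain ⟨x, hx, rfl⟩ := mem_image.1 hy
      rw [hγm, hGm, mul_assoc, ← eq_gp_mul_gq hQ (hne x hx)]) (by
      intro a ha
      have haQ := hLQ a ha
      refine ⟨hQ _ haQ, ?_, ?_⟩
      · intro y hy y' hy' hyy
        obtain ⟨x, hx, rfl⟩ := mem_image.1 hy
        obtain ⟨x', hx', rfl⟩ := mem_image.1 hy'
        rw [hγm, hγm] at hyy
        have h2 := (gp_eq_iff hQ).1 (mul_left_cancel₀ hm0 hyy) a.1 haQ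
        rw [fa_mul hm0 (hne x hx), fa_mul hm0 (hne x' hx'), h2]
      · intro y hy y' hy' hyy l
        obtain ⟨x, hx, rfl⟩ := mem_image.1 hy
        obtain ⟨x', hx', rfl⟩ := mem_image.1 hy'
        rw [hγm, hγm] at hyy
        have hg := mul_left_cancel₀ hm0 hyy
        rw [hGm, hGm]
        have h2 : (m : ℤ) * x - m * x' = (m * gp Q x) * (gq Q x - gq Q x') := by
          have h3 := eq_gp_mul_gq hQ (hne x hx)
          have h4 := eq_gp_mul_gq hQ (hne x' hx')
          rw [← hg] at h4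
          calc (m : ℤ) * x - m * x' = m * (gp Q x * gq Q x) - m * (gp Q x * gq Q x') := by
                rw [← h3, ← h4]
            _ = _ := by ring
        have hgp := (gp_pos hQ x).ne'
        rw [h2, pow_dvd_mul_iff (hQ a.1 haQ) (mul_ne_zero hm0 hgp), fa_mul hm0 hgp,
          fa_gp hQ, if_pos haQ, fa_mul hm0 (hne x hx)])
      (good_dilate hm0 hGm L U hne hG) (by rw [hUc]; exact htot)
  have h2 := lo_eq U' V hU'n hV (fun y => fL Q.toList (y / m)) γ' (by
    intro y hy y' hy'
    obtain ⟨x, hx, rfl⟩ := mem_image.1 hy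
    obtain ⟨x', hx', rfl⟩ := mem_image.1 hy'
    rw [hγm, hγm, hdiv, hdiv, fL_eq_iff]
    simp only [Finset.mem_toList]
    constructor
    · intro h3
      rw [(gp_eq_iff hQ).2 h3]
    · intro h3
      exact (gp_eq_iff hQ).1 (mul_left_cancel₀ hm0 h3))
  have h3 : hz U' V (fun y => fL Q.toList (y / m)) = hzm (m : ℤ) U V (fL Q.toList) := by
    unfold hz hzm ce
    rw [hU', h_dilate hm0, h_dilate hm0]
    simp only [hdiv]
  have h4 := log_add_ge U' V hU'n hV
  have h5 : ((U' ×ˢ V).image fun s => s.1 + s.2) =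
      (U ×ˢ V).image fun s => (m : ℤ) * s.1 + s.2 := by
    ext z
    simp only [mem_image, mem_product, Prod.exists, hU']
    constructor
    · rintro ⟨a, b, ⟨⟨x, hx, rfl⟩, hb⟩, rfl⟩
      exact ⟨x, b, ⟨hx, hb⟩, rfl⟩
    · rintro ⟨x, b, ⟨hx, hb⟩, rfl⟩
      exact ⟨_, b, ⟨⟨x, hx, rfl⟩, hb⟩, rfl⟩
  rw [h5, hUc, h2, h3] at h4
  rw [hUc] at h1
  rw [Finset.length_toList] at hmle
  have h6 := h_le_log_card U (fL Q.toList)
  have h7 : 5 * d * (h U (fL Q.toList) + Real.log V.card) ≤
      5 * d * (Real.log U.card + Real.log V.card) :=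
    mul_le_mul_of_nonneg_left (by linarith) (by positivity)
  have h8 : (1 - δ) * (Real.log U.card + Real.log V.card) =
      (Real.log U.card + Real.log V.card) - 5 * d * (Real.log U.card + Real.log V.card) -
        d * (Real.log U.card + Real.log V.card) := by
    rw [hd]
    ring
  rw [h8]
  linarith

end Pool.Agent.T2H12.KH
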