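import Mathlib
import Pool.Agent.T2H12.KH.CoreD

/-!
# Sums when few primes have exponents of large entropy (package SUMB)
-/

set_option autoImplicit false

namespace Pool.Agent.T2H12.KH

open Finset
open scoped Classical
open Pool.Agent.Y359.PE Pool.Agent.T2H12.KF Pool.Agent.T2H12.KD Pool.Agent.T2H12.KG

namespace SumB

/-- regular sets are good, with a constant factor -/
lemma good_of_reg' {G : ℤ → ℤ} (m₀ : ℕ) : ∀ (Lp : List ℕ) (c : ℕ → ℕ) (U : Finset ℤ),
    (∀ i, i ≤ Lp.length → ∀ x ∈ U,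
      fc U (FF G Lp i) x = 2 ^ (∑ l ∈ Ico i Lp.length, c l) * m₀) →
    Good G (lc Lp c) U := by
  intro Lp
  induction Lp with
  | nil => intro c U _; exact trivial
  | cons p L ih =>
    intro c U h
    refine ⟨?_, ?_⟩
    · intro x hx w
      have h0 := h 0 (Nat.zero_le _) x hx
      have e0 : cl U (FF G (p :: L) 0) x = U.filter fun x' => G x' = G x := by
        ext y
        rw [mem_cl, FF_eq_iff, mem_filter]
        simp
      have h0' : (U.filter fun x' => G x' = G x).card =
          2 ^ (∑ l ∈ Ico 0 (p :: L).length, c l) * m₀ := by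
        rw [← h0, ← e0]
        rfl
      rcases (U.filter fun x' => G x' = G x ∧ fa x' p = w).eq_empty_or_nonempty with h1 | ⟨y, hy⟩
      · rw [h1, card_empty, Nat.cast_zero, mul_zero]
        positivity
      · obtain ⟨hyU, hyG, hyw⟩ := mem_filter.1 hy
        have h2 := h 1 (by simp) y hyU
        have e1 : cl U (FF G (p :: L) 1) y = U.filter fun x' => G x' = G x ∧ fa x' p = w := by
          ext z
          rw [mem_cl, FF_eq_iff, mem_filter]
          simp [hyG, hyw]
        have h2' : (U.filter fun x' => G x' = G x ∧ fa x' p = w).card =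
            2 ^ (∑ l ∈ Ico 1 (p :: L).length, c l) * m₀ := by
          rw [← h2, ← e1]
          rfl
        rw [h0', h2', sum_eq_sum_Ico_succ_bot (by simp : 0 < (p :: L).length), pow_add]
        push_cast
        rw [mul_assoc]
    · intro w
      refine ih (fun i => c (i + 1)) _ ?_
      intro i hi x hx
      obtain ⟨hxU, hxw⟩ := mem_filter.1 hx
      have h2 := h (i + 1) (by simpa using hi) x hxU
      have e1 : cl (U.filter fun x' => fa x' p = w) (FF G L i) x =
          cl U (FF G (p :: L) (i + 1)) x := by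
        ext z
        rw [mem_cl, mem_cl, FF_eq_iff, FF_eq_iff, mem_filter]
        simp only [List.take_succ_cons, List.mem_cons, forall_eq_or_imp, hxw]
        tauto
      unfold fc at h2 ⊢
      rw [e1, h2]
      congr 2
      rw [List.length_cons, ← sum_Ico_add' c i L.length 1]

/-- many elements whose class is divided by the second function -/
lemma large_gap {α β γ : Type} (A : Finset α) (hA : A.Nonempty) (f : α → β) (g : α → γ) {κ : ℝ}
    (ha : 0 < Real.log A.card) (hκ : 0 ≤ κ) (hh : κ * Real.log A.card ≤ ce A f g) :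
    κ / 2 * A.card ≤
      ((A.filter fun x => κ / 2 * Real.log A.card ≤
        Real.log (fc A f x) - Real.log (fc A (fun y => (f y, g y)) x)).card : ℝ) := by
  have hc : (0 : ℝ) < A.card := by exact_mod_cast card_pos.2 hA
  set a := Real.log A.card with had
  set S := A.filter fun x => κ / 2 * a ≤
    Real.log (fc A f x) - Real.log (fc A (fun y => (f y, g y)) x)
  have h1 : ∑ x ∈ A, (Real.log (fc A f x) - Real.log (fc A (fun y => (f y, g y)) x)) =
      A.card * ce A f g := by
    have h2 : (A.card : ℝ) * h A f = ∑ x ∈ A, (Real.log A.card - Real.log (fc A f x)) := by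
      unfold h
      rw [mul_div_cancel₀ _ hc.ne']
    have h3 : (A.card : ℝ) * h A (fun y => (f y, g y)) =
        ∑ x ∈ A, (Real.log A.card - Real.log (fc A (fun y => (f y, g y)) x)) := by
      unfold h
      rw [mul_div_cancel₀ _ hc.ne']
    unfold ce
    rw [mul_sub, h2, h3, ← sum_sub_distrib]
    refine sum_congr rfl fun x _ => ?_
    ring
  have h2 : ∑ x ∈ A, (Real.log (fc A f x) - Real.log (fc A (fun y => (f y, g y)) x)) ≤
      ∑ x ∈ A, ((if x ∈ S then a else 0) + κ / 2 * a) := by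
    refine sum_le_sum fun x hx => ?_
    have h3 := fc_posR (f := f) hx
    have h7 := fc_posR (f := fun y => (f y, g y)) hx
    split_ifs with h4
    · have h5 : Real.log (fc A f x) ≤ a := Real.log_le_log h3 (by exact_mod_cast fc_le)
      have h6 : 0 ≤ κ / 2 * a := by positivity
      have h8 : 0 ≤ Real.log (fc A (fun y => (f y, g y)) x) :=
        Real.log_nonneg (by exact_mod_cast fc_pos (f := fun y => (f y, g y)) hx)
      linarith
    · have h5 : Real.log (fc A f x) - Real.log (fc A (fun y => (f y, g y)) x) < κ / 2 * a := by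
        by_contra hcon
        exact h4 (mem_filter.2 ⟨hx, not_lt.1 hcon⟩)
      linarith
  rw [h1, sum_add_distrib, ← sum_filter, sum_const, sum_const, nsmul_eq_mul, nsmul_eq_mul] at h2
  have h3 : A.filter (fun x => x ∈ S) = S := by
    ext x
    rw [mem_filter]
    exact ⟨fun h => h.2, fun h => ⟨(mem_filter.1 h).1, h⟩⟩
  rw [h3] at h2
  have h4 : (A.card : ℝ) * (κ * a) ≤ A.card * ce A f g := mul_le_mul_of_nonneg_left hh hc.le
  have h5 : κ / 2 * A.card * a ≤ S.card * a := by linarith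
  exact le_of_mul_le_mul_right h5 ha

/-- pigeonhole on the binary logarithm -/
lemma pigeon_log {α : Type} (S : Finset α) (_hS : S.Nonempty) (N : α → ℕ) (n : ℕ)
    (hN : ∀ x ∈ S, N x ≤ n) :
    ∃ s : ℕ, (S.card : ℝ) ≤ (Real.log n / Real.log 2 + 1) *
      ((S.filter fun x => Nat.log 2 (N x) = s).card : ℝ) := by
  have hl2 : 0 < Real.log 2 := Real.log_pos (by norm_num)
  have hmaps : ∀ x ∈ S, Nat.log 2 (N x) ∈ range (Nat.log 2 n + 1) := fun x hx =>
    mem_range.2 (Nat.lt_succ_of_le (Nat.log_mono_right (hN x hx)))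
  obtain ⟨s, _, hs⟩ := exists_max_image (range (Nat.log 2 n + 1))
    (fun s => (S.filter fun x => Nat.log 2 (N x) = s).card) ⟨0, by simp⟩
  refine ⟨s, ?_⟩
  have h1 : S.card = ∑ t ∈ range (Nat.log 2 n + 1), (S.filter fun x => Nat.log 2 (N x) = t).card :=
    card_eq_sum_card_fiberwise hmaps
  have h2 : S.card ≤ (Nat.log 2 n + 1) * (S.filter fun x => Nat.log 2 (N x) = s).card := by
    rw [h1]
    refine (sum_le_sum hs).trans ?_
    rw [sum_const, card_range, smul_eq_mul]
  have h3 : ((Nat.log 2 n : ℕ) : ℝ) ≤ Real.log n / Real.log 2 := by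
    rw [le_div_iff₀ hl2]
    rcases Nat.eq_zero_or_pos n with h0 | h0
    · subst h0; simp
    · rw [← Real.log_pow]
      refine Real.log_le_log (by positivity) ?_
      exact_mod_cast Nat.pow_log_le_self 2 h0.ne'
  have h4 : (S.card : ℝ) ≤ ((Nat.log 2 n : ℕ) + 1) *
      ((S.filter fun x => Nat.log 2 (N x) = s).card : ℝ) := by exact_mod_cast h2
  refine h4.trans (mul_le_mul_of_nonneg_right (by linarith) (Nat.cast_nonneg _))

/-- the chain of functions which ends with the element itself -/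
noncomputable def FE (G : ℤ → ℤ) (Lp : List ℕ) (i : ℕ) (x : ℤ) : (ℤ × List ℕ) × Option ℤ :=
  (FF G Lp (min i Lp.length) x, if Lp.length < i then some x else none)

lemma FE_mono (G : ℤ → ℤ) (Lp : List ℕ) (i : ℕ) (x y : ℤ)
    (h : FE G Lp (i + 1) x = FE G Lp (i + 1) y) : FE G Lp i x = FE G Lp i y := by
  unfold FE at h ⊢
  rw [Prod.mk.injEq] at h ⊢
  refine ⟨?_, ?_⟩
  · rcases lt_or_ge i Lp.length with hi | hi
    · rw [min_eq_left (by omega)] at h
      rw [min_eq_left hi.le]
      exact FF_mono G Lp i x y h.1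
    · rw [min_eq_right (by omega)] at h
      rw [min_eq_right hi]
      exact h.1
  · split_ifs with hi
    · have h2 := h.2
      rw [if_pos (by omega), if_pos (by omega)] at h2
      exact h2
    · rfl

lemma FE_eq_iff {G : ℤ → ℤ} {Lp : List ℕ} {i : ℕ} (hi : i ≤ Lp.length) {x y : ℤ} :
    FE G Lp i x = FE G Lp i y ↔ FF G Lp i x = FF G Lp i y := by
  unfold FE
  rw [Prod.mk.injEq, min_eq_left hi, if_neg (by omega), if_neg (by omega)]
  simp

lemma FE_inj {G : ℤ → ℤ} {Lp : List ℕ} {x y : ℤ}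
    (h : FE G Lp (Lp.length + 1) x = FE G Lp (Lp.length + 1) y) : x = y := by
  unfold FE at h
  rw [Prod.mk.injEq, if_pos (by omega), if_pos (by omega)] at h
  exact Option.some.inj h.2

/-- the constants: an inequality between a logarithm and a linear function -/
lemma exists_log_le {ε : ℝ} (hε : 0 < ε) (c : ℝ) :
    ∃ a₀ : ℝ, 0 < a₀ ∧ ∀ a : ℝ, a₀ ≤ a → Real.log (a / Real.log 2 + 1) + c ≤ ε * a := by
  have hl2 : 0 < Real.log 2 := Real.log_pos (by norm_num)
  -- log y ≤ s y - 1 - log s with s = ε log 2 / 2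
  set s : ℝ := ε * Real.log 2 / 2 with hs
  have hs0 : 0 < s := by positivity
  refine ⟨max 1 (2 * (s - 1 - Real.log s + c) / ε), by positivity, ?_⟩
  intro a ha
  have ha1 : 1 ≤ a := (le_max_left _ _).trans ha
  have ha2 : 2 * (s - 1 - Real.log s + c) / ε ≤ a := (le_max_right _ _).trans ha
  rw [div_le_iff₀ hε] at ha2
  have h1 : Real.log (a / Real.log 2 + 1) ≤ s * (a / Real.log 2 + 1) - 1 - Real.log s := by
    have hpos : 0 < a / Real.log 2 + 1 := by positivity
    have h2 := Real.log_le_sub_one_of_pos (show 0 < s * (a / Real.log 2 + 1) by positivity)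
    rw [Real.log_mul hs0.ne' hpos.ne'] at h2
    linarith
  have h2 : s * (a / Real.log 2 + 1) = ε * a / 2 + s := by
    rw [hs]
    field_simp
  rw [h2] at h1
  linarith

end SumB

open SumB in
/-- **Few primes with exponents of large entropy** (small `δ₁`). -/
theorem sumB_aux {κ δ₁ : ℝ} (hκ : 0 < κ) (hδ₁ : 0 < δ₁) (hδκ : δ₁ ≤ κ / 4) (hδ2 : δ₁ ≤ 1 / 2)
    (M C : ℝ) :
    ∃ (K' : ℕ) (δ a₀ : ℝ), 0 < δ ∧ 0 < a₀ ∧
    ∀ (A : Finset ℤ) (P Q : Finset ℕ), A.Nonempty → (0 : ℤ) ∉ A → (∀ q ∈ Q, q.Prime) → P ⊆ Q →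
      a₀ ≤ Real.log A.card → (P.card : ℝ) ≤ δ * Real.log A.card →
      (Q.card : ℝ) ≤ C * Real.log A.card → κ * Real.log A.card ≤ ce A (gq Q) (gp P) →
      ∀ V : Finset ℤ, V.Nonempty → Real.log V.card ≤ M * Real.log A.card →
        ∃ m : ℕ, 1 ≤ m ∧ m ≤ K' ∧ (1 - δ₁) * (Real.log A.card + Real.log V.card) ≤
          Real.log ((A ×ˢ V).image fun s => (m : ℤ) * s.1 + s.2).card := by
  have hl2 : 0 < Real.log 2 := Real.log_pos (by norm_num)
  have hC1 : 0 < |C| + 1 := by positivity
  obtain ⟨E, C₂, B₀, K', hE, hC₂, hB₀, hcore⟩ := coreD (δ := δ₁ / 4) (δ₂ := δ₁ / (8 * (|C| + 1)))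
    (by positivity) (by linarith) (by positivity)
  obtain ⟨Kη, hKη, hcost⟩ := cost_le (η := δ₁ / 8) (by positivity)
  set K : ℝ := max 1 (8 * (C₂ * (1 + |M|)) / κ) with hK
  have hK1 : 1 ≤ K := le_max_left _ _
  have hlK : 0 ≤ Real.log K := Real.log_nonneg hK1
  have hlE : 0 ≤ Real.log (max E 1) := Real.log_nonneg (le_max_right _ _)
  set B := Real.log K + Real.log (max E 1) with hB
  have hB0 : 0 ≤ B := by positivity
  set δ : ℝ := min (δ₁ / (16 * Kη)) (κ / (8 * (B + 1))) with hδ
  have hδ0 : 0 < δ := by positivity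
  have hδb : δ * Kη ≤ δ₁ / 16 := by
    have h1 : δ ≤ δ₁ / (16 * Kη) := min_le_left _ _
    have h2 := mul_le_mul_of_nonneg_right h1 hKη.le
    have h3 : δ₁ / (16 * Kη) * Kη = δ₁ / 16 := by field_simp
    linarith
  have hδc : δ * B ≤ κ / 8 := by
    have h1 : δ ≤ κ / (8 * (B + 1)) := min_le_right _ _
    have h2 := mul_le_mul_of_nonneg_right h1 (by linarith : 0 ≤ B + 1)
    have h3 : κ / (8 * (B + 1)) * (B + 1) = κ / 8 := by field_simp
    nlinarith
  obtain ⟨a₁, ha₁, hlog⟩ := exists_log_le (ε := δ₁ / 16) (by positivity)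
    (Kη - Real.log (κ / 2))
  refine ⟨K', δ, max (max 1 a₁) (max (8 * Real.log 2 / κ) (4 * B₀ / δ₁)), hδ0, by positivity, ?_⟩
  intro A P Q hA h0 hQ hPQ ha₀ hP hQc hce V hV hVM
  set a := Real.log A.card with had
  have ha1 : 1 ≤ a := ((le_max_left _ _).trans (le_max_left _ _)).trans ha₀
  have haa₁ : a₁ ≤ a := ((le_max_right _ _).trans (le_max_left _ _)).trans ha₀
  have ha2 : 8 * Real.log 2 / κ ≤ a := ((le_max_left _ _).trans (le_max_right _ _)).trans ha₀
  have ha3 : 4 * B₀ / δ₁ ≤ a := ((le_max_right _ _).trans (le_max_right _ _)).trans ha₀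
  rw [div_le_iff₀ hκ] at ha2
  rw [div_le_iff₀ hδ₁] at ha3
  have hlog1 := hlog a haa₁
  have ha0 : 0 < a := by linarith
  have hc : (0 : ℝ) < A.card := by exact_mod_cast card_pos.2 hA
  have hne : ∀ x ∈ A, x ≠ 0 := fun x hx h => h0 (h ▸ hx)
  -- the elements with a large gap
  have s1 := large_gap A hA (gq Q) (gp P) ha0 hκ.le hce
  rw [← had] at s1
  set N : ℤ → ℕ := fc A (fun y => (gq Q y, gp P y)) with hN
  set A₁ := A.filter fun x => κ / 2 * a ≤ Real.log (fc A (gq Q) x) - Real.log (N x) with hA₁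
  have hA₁A : A₁ ⊆ A := filter_subset _ _
  have hA₁c : (0 : ℝ) < A₁.card := lt_of_lt_of_le (by positivity) s1
  have hA₁n : A₁.Nonempty := card_pos.1 (by exact_mod_cast hA₁c)
  obtain ⟨s, hs⟩ := pigeon_log A₁ hA₁n N A.card fun x _ => fc_le
  rw [← had] at hs
  set A₂ := A₁.filter fun x => Nat.log 2 (N x) = s with hA₂
  have hA₂1 : A₂ ⊆ A₁ := filter_subset _ _
  have hA₂A : A₂ ⊆ A := hA₂1.trans hA₁A
  have hA₂c : (0 : ℝ) < A₂.card := by
    by_contra hcon
    have h1 : (A₂.card : ℝ) = 0 := le_antisymm (not_lt.1 hcon) (Nat.cast_nonneg _)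
    rw [h1, mul_zero] at hs
    linarith
  have hA₂n : A₂.Nonempty := card_pos.1 (by exact_mod_cast hA₂c)
  have s2 : Real.log (κ / 2) + a - Real.log (a / Real.log 2 + 1) ≤ Real.log A₂.card := by
    have h1 : κ / 2 * A.card ≤ (a / Real.log 2 + 1) * A₂.card := s1.trans hs
    have h2 := Real.log_le_log (by positivity) h1
    rw [Real.log_mul (by positivity) hc.ne', Real.log_mul (by positivity) hA₂c.ne'] at h2
    linarith
  -- the regular part
  set Lp := P.toList with hLp
  set r := Lp.length with hr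
  have hrc : (r : ℝ) ≤ δ * a := by
    rw [hr, hLp, Finset.length_toList]
    exact hP
  have hmem : ∀ p, p ∈ Lp ↔ p ∈ P := fun p => Finset.mem_toList
  obtain ⟨U, c, hUA₂, hU, hreg, s4⟩ := reg_all (FE (gq Q) Lp) (FE_mono (gq Q) Lp) (r + 1) A₂ hA₂n
    (by
      intro x _ y _ hxy
      exact FE_inj hxy) (r + 1) le_rfl
  rw [Nat.sub_self] at s4
  have hUA : U ⊆ A := hUA₂.trans hA₂A
  have hUc : (0 : ℝ) < U.card := by exact_mod_cast card_pos.2 hU
  set u := Real.log U.card with hu
  have hua : u ≤ a := Real.log_le_log hUc (by exact_mod_cast card_le_card hUA)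
  have hregF : ∀ i, i ≤ r → ∀ x ∈ U,
      fc U (FF (gq Q) Lp i) x = 2 ^ (∑ l ∈ Ico i r, c l) * 2 ^ (c r) := by
    intro i hi x hx
    have h1 := hreg i (by omega) (by omega) x hx
    have h2 : cl U (FE (gq Q) Lp i) x = cl U (FF (gq Q) Lp i) x :=
      cl_eq_of_iff (fun y _ z _ => FE_eq_iff hi) hx
    unfold fc at h1 ⊢
    rw [← h2, h1, sum_Ico_succ_top hi, pow_add]
  -- the classes of `U`
  set T : ℝ := ∑ i ∈ range r, ((c i : ℝ) * Real.log 2) with hT
  have hfib : ∀ x ∈ U, (U.filter fun y => gq Q y = gq Q x).card =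
      2 ^ (∑ l ∈ range r, c l) * 2 ^ (c r) := by
    intro x hx
    have h1 := hregF 0 (Nat.zero_le _) x hx
    rw [← Nat.Ico_zero_eq_range, ← h1]
    unfold fc
    congr 1
    ext y
    rw [mem_cl, mem_filter, FF_eq_iff]
    simp
  have hTlog : Real.log ((2 ^ (∑ l ∈ range r, c l) : ℕ) : ℝ) = T := by
    push_cast
    rw [Real.log_pow, hT, ← sum_mul]
    push_cast
    rfl
  have hT0 : 0 ≤ T := sum_nonneg fun _ _ => by positivity
  have hTa : T + c r * Real.log 2 ≤ a := by
    obtain ⟨x, hx⟩ := hU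
    have h1 : T + c r * Real.log 2 =
        Real.log (((U.filter fun y => gq Q y = gq Q x).card : ℕ) : ℝ) := by
      rw [hfib x hx, ← hTlog]
      push_cast
      rw [Real.log_mul (by positivity) (by positivity), Real.log_pow]
      push_cast
      rw [Real.log_pow 2 (c r)]
    rw [h1]
    refine Real.log_le_log ?_ ?_
    · have h9 : (U.filter fun y => gq Q y = gq Q x).Nonempty := ⟨x, mem_filter.2 ⟨hx, rfl⟩⟩
      exact_mod_cast card_pos.2 h9
    · exact_mod_cast card_le_card ((filter_subset _ _).trans hUA)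
  -- the size of `U`
  have s5 : Real.log A₂.card ≤ u + ∑ l ∈ range (r + 1),
      Real.log (2 * ((c l : ℝ) + 1) * (c l + 2)) := by
    have h1 := Real.log_le_log hA₂c s4
    rw [Real.log_mul hUc.ne' (prod_pos fun _ _ => by positivity).ne',
      Real.log_prod (fun _ _ => by positivity), Nat.Ico_zero_eq_range] at h1
    exact h1
  have s6 : ∑ l ∈ range (r + 1), Real.log (2 * ((c l : ℝ) + 1) * (c l + 2)) ≤
      δ₁ / 8 * (T + c r * Real.log 2) + (r + 1) * Kη := by
    refine (sum_le_sum fun l _ => hcost (c l)).trans (le_of_eq ?_)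
    rw [sum_add_distrib, sum_const, card_range, nsmul_eq_mul, ← mul_sum, sum_range_succ]
    push_cast
    rfl
  have s8 : (1 - δ₁ / 4) * a ≤ u := by
    have h1 : (r : ℝ) * Kη ≤ δ₁ / 16 * a := by
      have h2 := mul_le_mul_of_nonneg_right hrc hKη.le
      have h3 := mul_le_mul_of_nonneg_right hδb ha0.le
      linarith
    have h2 : δ₁ / 8 * (T + c r * Real.log 2) ≤ δ₁ / 8 * a :=
      mul_le_mul_of_nonneg_left hTa (by positivity)
    linarith
  -- the entropy of the exponents
  have s9 : κ / 4 * a ≤ T := by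
    have h1 : (U.card : ℝ) = ((U.image (gq Q)).card : ℝ) *
        (((2 ^ (∑ l ∈ range r, c l) : ℕ) : ℝ) * 2 ^ (c r)) := by
      have h2 : U.card = ∑ g ∈ U.image (gq Q), (U.filter fun x => gq Q x = g).card :=
        card_eq_sum_card_image (gq Q) U
      have h3 : ∑ g ∈ U.image (gq Q), (U.filter fun x => gq Q x = g).card =
          ∑ _g ∈ U.image (gq Q), 2 ^ (∑ l ∈ range r, c l) * 2 ^ (c r) := by
        refine sum_congr rfl fun g hg => ?_
        obtain ⟨x, hx, rfl⟩ := mem_image.1 hg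
        exact hfib x hx
      rw [h3, sum_const, smul_eq_mul] at h2
      exact_mod_cast h2
    have hIc : (0 : ℝ) < (U.image (gq Q)).card := by exact_mod_cast card_pos.2 (hU.image _)
    -- the last class
    obtain ⟨x₀, hx₀⟩ := id hU
    have h2 : 2 ^ (c r) ≤ N x₀ := by
      have h3 := hregF r le_rfl x₀ hx₀
      rw [Ico_self, sum_empty, pow_zero, one_mul] at h3
      rw [← h3, hN]
      unfold fc
      refine card_le_card fun y hy => ?_
      obtain ⟨h4, h5⟩ := mem_cl.1 hy
      rw [FF_eq_iff] at h5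
      refine mem_cl.2 ⟨hUA h4, ?_⟩
      have h6 : gp P y = gp P x₀ := (gp_eq_iff fun p hp => hQ p (hPQ hp)).2 fun p hp =>
        h5.2 p (by rw [hr, List.take_length]; exact (hmem p).2 hp)
      rw [Prod.mk.injEq]
      exact ⟨h5.1, h6⟩
    have h3 : N x₀ < 2 ^ (s + 1) := by
      have h4 := (mem_filter.1 (hUA₂ hx₀)).2
      rw [← h4]
      exact Nat.lt_pow_succ_log_self (by norm_num) _
    have h4 : c r ≤ s := by
      have h5 := lt_of_le_of_lt h2 h3
      have h6 := (Nat.pow_lt_pow_iff_right (by norm_num : 1 < 2)).1 h5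
      omega
    have h5 : ∀ x ∈ A₂, Real.exp (κ / 2 * a) * 2 ^ s ≤ fc A (gq Q) x := by
      intro x hx
      obtain ⟨h6, h7⟩ := mem_filter.1 hx
      obtain ⟨h8, h9⟩ := mem_filter.1 h6
      have hNx : 0 < N x := fc_pos h8
      have h10 : (2 : ℝ) ^ s ≤ N x := by
        rw [← h7]
        exact_mod_cast Nat.pow_log_le_self 2 hNx.ne'
      have h11 : (0 : ℝ) < fc A (gq Q) x := fc_posR h8
      have h12 : (0 : ℝ) < N x := by exact_mod_cast hNx
      have h13 : Real.exp (κ / 2 * a) * N x ≤ fc A (gq Q) x := by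
        rw [← Real.exp_log h12, ← Real.exp_add]
        conv_rhs => rw [← Real.exp_log h11]
        exact Real.exp_le_exp.2 (by linarith)
      exact (mul_le_mul_of_nonneg_left h10 (Real.exp_pos _).le).trans h13
    have h6 : ((A₂.image (gq Q)).card : ℝ) * (Real.exp (κ / 2 * a) * 2 ^ s) ≤ A.card := by
      have h := image_card_le A A₂ (gq Q) h5
      have hinst : ∀ i₁ i₂ : DecidableEq ℤ, @Finset.image ℤ ℤ i₁ (gq Q) A₂ =
          @Finset.image ℤ ℤ i₂ (gq Q) A₂ := fun i₁ i₂ => by rw [Subsingleton.elim i₁ i₂]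
      rw [hinst _ Int.instDecidableEq] at h
      exact h
    have h7 : Real.log (U.image (gq Q)).card + κ / 2 * a + s * Real.log 2 ≤ a := by
      have h8 : ((U.image (gq Q)).card : ℝ) ≤ (A₂.image (gq Q)).card := by
        exact_mod_cast card_le_card (image_subset_image hUA₂)
      have h9 : ((U.image (gq Q)).card : ℝ) * (Real.exp (κ / 2 * a) * 2 ^ s) ≤ A.card :=
        (mul_le_mul_of_nonneg_right h8 (by positivity)).trans h6
      have h10 := Real.log_le_log (by positivity) h9
      rw [Real.log_mul hIc.ne' (by positivity), Real.log_mul (Real.exp_pos _).ne' (by positivity),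
        Real.log_exp, Real.log_pow] at h10
      linarith
    have h8 : u = Real.log (U.image (gq Q)).card + (T + c r * Real.log 2) := by
      rw [hu, h1, Real.log_mul hIc.ne' (by positivity), Real.log_mul (by positivity)
        (by positivity), hTlog, Real.log_pow]
    have h9 : (c r : ℝ) * Real.log 2 ≤ s * Real.log 2 :=
      mul_le_mul_of_nonneg_right (by exact_mod_cast h4) hl2.le
    have h10 : δ₁ / 4 * a ≤ κ / 16 * a := mul_le_mul_of_nonneg_right (by linarith) ha0.le
    have h11 : 0 ≤ κ * a := by positivity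
    linarith
  -- the good list
  have hgood : Good (gq Q) (lc Lp c) U := good_of_reg' (2 ^ (c r)) Lp c U fun i hi x hx =>
    hregF i hi x hx
  have htot : C₂ * (1 + |M|) * a ≤ tot E (lc Lp c) := by
    refine le_trans ?_ (tot_lc hK1 hE Lp c)
    rw [← hr, ← hB, ← hT]
    have h1 : K * (κ / 4 * a) ≤ K * T := mul_le_mul_of_nonneg_left s9 (by linarith)
    have h2 : (r : ℝ) * (K * B) ≤ K * (κ / 8 * a) := by
      have h3 := mul_le_mul_of_nonneg_right hrc hB0
      have h4 := mul_le_mul_of_nonneg_right hδc ha0.le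
      have h5 : (r : ℝ) * B ≤ κ / 8 * a := by linarith
      have h6 := mul_le_mul_of_nonneg_left h5 (by linarith : 0 ≤ K)
      linarith
    have h3 : C₂ * (1 + |M|) * a ≤ K * (κ / 8 * a) := by
      have h4 : 8 * (C₂ * (1 + |M|)) / κ ≤ K := le_max_right _ _
      rw [div_le_iff₀ hκ] at h4
      have h5 := mul_le_mul_of_nonneg_right h4 ha0.le
      linarith
    have h4 : K * (κ / 4 * a) = K * (κ / 8 * a) + K * (κ / 8 * a) := by ring
    linarith
  have hv0 := log_card_nonneg V
  have hVM' : Real.log V.card ≤ |M| * a :=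
    hVM.trans (mul_le_mul_of_nonneg_right (le_abs_self M) ha0.le)
  obtain ⟨m, hm1, hm2, hm3⟩ := hcore Q (lc Lp c) U V hQ (by
      intro b hb
      have h2 : b.1 ∈ (lc Lp c).map Prod.fst := List.mem_map_of_mem hb
      rw [lc_fst] at h2
      exact hPQ ((hmem _).1 h2)) hU hV (fun h => h0 (hUA h)) hgood (by
      refine le_trans ?_ htot
      rw [mul_assoc]
      refine mul_le_mul_of_nonneg_left ?_ hC₂.le
      linarith)
  refine ⟨m, hm1, hm2, ?_⟩
  have h1 : Real.log ((U ×ˢ V).image fun s => (m : ℤ) * s.1 + s.2).card ≤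
      Real.log ((A ×ˢ V).image fun s => (m : ℤ) * s.1 + s.2).card := by
    have h2 : ((U ×ˢ V).image fun s => (m : ℤ) * s.1 + s.2).Nonempty := (hU.product hV).image _
    refine Real.log_le_log (by exact_mod_cast card_pos.2 h2) ?_
    exact_mod_cast card_le_card (image_subset_image (product_subset_product_left hUA))
  refine le_trans ?_ h1
  refine le_trans ?_ hm3
  rw [← hu]
  have h2 : δ₁ / (8 * (|C| + 1)) * Q.card ≤ δ₁ / 8 * a := by
    have h3 : (Q.card : ℝ) ≤ (|C| + 1) * a := by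
      refine hQc.trans (mul_le_mul_of_nonneg_right ?_ ha0.le)
      linarith [le_abs_self C]
    have h4 := mul_le_mul_of_nonneg_left h3 (show 0 ≤ δ₁ / (8 * (|C| + 1)) by positivity)
    refine h4.trans (le_of_eq ?_)
    field_simp
  set v := Real.log V.card with hv
  have h3 : (1 - δ₁ / 4) * ((1 - δ₁ / 4) * a) ≤ (1 - δ₁ / 4) * u :=
    mul_le_mul_of_nonneg_left s8 (by linarith)
  have h4 : 0 ≤ δ₁ * v := by positivity
  have h5 : 0 ≤ δ₁ * a := by positivity
  have h6 : 0 ≤ δ₁ * δ₁ * a := by positivity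
  linarith

/-- **Few primes with exponents of large entropy.** -/
theorem sumB {κ δ₁ : ℝ} (hκ : 0 < κ) (hδ₁ : 0 < δ₁) (M C : ℝ) :
    ∃ (K' : ℕ) (δ a₀ : ℝ), 0 < δ ∧ 0 < a₀ ∧
    ∀ (A : Finset ℤ) (P Q : Finset ℕ), A.Nonempty → (0 : ℤ) ∉ A → (∀ q ∈ Q, q.Prime) → P ⊆ Q →
      a₀ ≤ Real.log A.card → (P.card : ℝ) ≤ δ * Real.log A.card →
      (Q.card : ℝ) ≤ C * Real.log A.card → κ * Real.log A.card ≤ ce A (gq Q) (gp P) →
      ∀ V : Finset ℤ, V.Nonempty → Real.log V.card ≤ M * Real.log A.card →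
        ∃ m : ℕ, 1 ≤ m ∧ m ≤ K' ∧ (1 - δ₁) * (Real.log A.card + Real.log V.card) ≤
          Real.log ((A ×ˢ V).image fun s => (m : ℤ) * s.1 + s.2).card := by
  obtain ⟨K', δ, a₀, hδ, ha₀, hmain⟩ := sumB_aux (δ₁ := min δ₁ (min (κ / 4) (1 / 2))) hκ
    (by positivity) ((min_le_right _ _).trans (min_le_left _ _))
    ((min_le_right _ _).trans (min_le_right _ _)) M C
  refine ⟨K', δ, a₀, hδ, ha₀, ?_⟩
  intro A P Q hA h0 hQ hPQ ha hP hQc hce V hV hVM
  obtain ⟨m, hm1, hm2, hm3⟩ := hmain A P Q hA h0 hQ hPQ ha hP hQc hce V hV hVM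
  refine ⟨m, hm1, hm2, le_trans ?_ hm3⟩
  refine mul_le_mul_of_nonneg_right ?_ ?_
  · linarith [min_le_left δ₁ (min (κ / 4) (1 / 2))]
  · exact add_nonneg (log_card_nonneg A) (log_card_nonneg V)

end Pool.Agent.T2H12.KH
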