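import Mathlib
import Pool.Agent.T2H12.KH.SA2

/-!
# The exceptional pairs are rare
-/

set_option autoImplicit false

namespace Pool.Agent.T2H12.KH

open Finset
open scoped Classical
open Pool.Agent.Y359.PE Pool.Agent.T2H12.KF Pool.Agent.T2H12.KD Pool.Agent.T2H12.KG

/-- the first step: the exponents of all the primes with a random multiplier -/
lemma step0 {η c : ℝ} (hη : 0 < η) (hη1 : η ≤ 1) (hc : 0 < c) : ∃ K₀ : ℝ, 0 < K₀ ∧
    ∀ K : ℕ, K₀ ≤ K → ∀ (Q : Finset ℕ) (U V : Finset ℤ), (∀ q ∈ Q, q.Prime ∧ K ≤ q) →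
      (0 : ℤ) ∉ U → U.Nonempty → V.Nonempty →
      ∑ m ∈ qK K, ce (U ×ˢ V) (fun s => m * s.1 + s.2) (fun s => gp Q s.1) ≤
        K * (5 * η * (Real.log U.card + Real.log V.card) + c * Q.card) := by
  obtain ⟨C, hC, hB⟩ := exists_bitG hη hη1
  obtain ⟨K₀, hK₀, hlarge⟩ := levB_large hη hη1 hC hB hc
  refine ⟨max K₀ (1 / η), lt_max_of_lt_left hK₀, ?_⟩
  intro K hK Q U V hQ h0 hU hV
  have hK1 : K₀ ≤ K := (le_max_left _ _).trans hK
  have hK2 : 1 / η ≤ K := (le_max_right _ _).trans hK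
  have hKp : (0 : ℝ) < K := hK₀.trans_le hK1
  have h1 := spine_list_m hη (qK K) (fun _ => c) Q.toList U V (by
    intro p hp
    obtain ⟨h2, h3⟩ := hQ p (Finset.mem_toList.1 hp)
    exact ⟨h2, hc.le, hlarge K p hK1 h2 h3⟩) h0 hU hV
  rw [card_qK] at h1
  have h2 : cs (fun _ => c) Q.toList = c * Q.card := by
    unfold cs
    rw [List.map_const', List.sum_replicate, nsmul_eq_mul, Finset.length_toList, mul_comm]
  rw [h2] at h1
  have h3 : ∀ m ∈ qK K, ce (U ×ˢ V) (fun s => m * s.1 + s.2) (fun s => gp Q s.1) ≤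
      hzm m U V (fL Q.toList) := by
    intro m _
    unfold hzm
    refine ce_mono _ _ _ _ fun x _ y _ _ hxy => ?_
    have hxy' : fL Q.toList x.1 = fL Q.toList y.1 := hxy
    rw [fL_eq_iff] at hxy'
    exact (gp_eq_iff fun q hq => (hQ q hq).1).2 fun p hp => hxy' p (Finset.mem_toList.2 hp)
  refine (sum_le_sum h3).trans (h1.trans ?_)
  have h4 := h_le_log_card U (fL Q.toList)
  have h5 := log_card_nonneg V
  have h6 := h_nonneg U (fL Q.toList)
  have h7 : 1 ≤ K * η := by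
    rw [div_le_iff₀ hη] at hK2
    exact hK2
  have h8 : h U (fL Q.toList) ≤ K * (η * Real.log U.card) := by
    have h9 : (1 : ℝ) * h U (fL Q.toList) ≤ K * η * Real.log U.card :=
      mul_le_mul h7 h4 h6 (by positivity)
    linarith
  have h9 : (K : ℝ) * (4 * η * (h U (fL Q.toList) + Real.log V.card)) ≤
      K * (4 * η * (Real.log U.card + Real.log V.card)) :=
    mul_le_mul_of_nonneg_left (mul_le_mul_of_nonneg_left (by linarith) (by positivity)) hKp.le
  have h10 : 0 ≤ (K : ℝ) * (η * Real.log V.card) := by positivity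
  linarith

/-- **The exceptional pairs are rare.** -/
theorem O_small {η κ δ lam a Y : ℝ} (π : Par) (D : Finset ℤ) (hF : FlatP δ lam π.al)
    (hal : π.al ≤ 1) (hu : 0 ≤ π.u) (hlam : Real.exp π.u * lam = 1)
    {ρ : ℝ} (hρ : 0 < ρ) (hρ2 : ρ ≤ 1 / 2) (Q : Finset ℕ) (hQ : ∀ q ∈ Q, q.Prime)
    (P : ℕ → ℕ) (J : ℕ) (hP : ∀ j < J, P j ∈ Q) (hPQ : ∀ q ∈ Q, ∃ j < J, P j = q)
    (A U V : Finset ℤ) (hUA : U ⊆ A) (h0 : (0 : ℤ) ∉ A) (hU : U.Nonempty) (hV : V.Nonempty)
    (st : ℕ → ℤ × ℤ → St) (hst0 : ∀ s, st 0 s = (cl U (gp Q) s.1, V, 0))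
    (hR : ∀ j ≤ J, Rect U V (st j))
    (hO : ∀ j < J, ∀ s ∈ U ×ˢ V, OneP π D (P j) (st j s).1 (st j s).2.1 (st (j + 1)))
    (hη : 0 < η) (hκ : 0 < κ) (hδ : 0 ≤ δ) (ha : a = Real.log A.card)
    (hUc : κ / 2 * A.card ≤ U.card) (hfib : ∀ x ∈ U, Real.exp (κ / 2 * a) ≤ fc A (gq Q) x)
    (hY : 0 < Y)
    (hcount : ∑ j ∈ range J, ∑ s ∈ U ×ˢ V, ((st (j + 1) s).2.2 : ℝ) ≤ (U ×ˢ V).card * Y)
    (hR0 : 0 ≤ κ / 2 * a + Real.log (η * κ / 4))
    (hnum : δ * (a + J) + 2 * ρ * J + Real.log (1 / ρ) * (2 / η * Y) <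
      η / 2 * (κ / 2 * a + Real.log (η * κ / 4))) :
    (((U ×ˢ V).filter fun s => Real.exp π.t < ((st J s).2.1.card : ℝ)).card : ℝ) ≤
      η * (U ×ˢ V).card := by
  by_contra hcon
  rw [not_le] at hcon
  have hUc0 : (0 : ℝ) < U.card := by exact_mod_cast card_pos.2 hU
  have hVc0 : (0 : ℝ) < V.card := by exact_mod_cast card_pos.2 hV
  have hAc0 : (0 : ℝ) < A.card := by exact_mod_cast card_pos.2 (hU.mono hUA)
  have hlρ : 0 ≤ Real.log (1 / ρ) := Real.log_nonneg (by
    rw [le_div_iff₀ hρ]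
    linarith)
  set O : ℤ → Finset ℤ := fun b => U.filter fun x => Real.exp π.t < ((st J (x, b)).2.1.card : ℝ)
    with hOd
  set g : ℤ → ℝ := fun b => ∑ x ∈ U, ∑ j ∈ range J, ((st (j + 1) (x, b)).2.2 : ℝ) with hg
  have hg0 : ∀ b, 0 ≤ g b := fun b => sum_nonneg fun _ _ => sum_nonneg fun _ _ => Nat.cast_nonneg _
  have hXc : ((U ×ˢ V).card : ℝ) = U.card * V.card := by
    rw [card_product]
    push_cast
    rfl
  have e1 : (((U ×ˢ V).filter fun s => Real.exp π.t < ((st J s).2.1.card : ℝ)).card : ℝ) =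
      ∑ b ∈ V, ((O b).card : ℝ) := by
    rw [card_filter]
    push_cast
    rw [sum_product_right]
    refine sum_congr rfl fun b _ => ?_
    rw [hOd]
    simp only [card_filter]
    push_cast
    rfl
  have e2 : ∑ j ∈ range J, ∑ s ∈ U ×ˢ V, ((st (j + 1) s).2.2 : ℝ) = ∑ b ∈ V, g b := by
    rw [sum_comm, sum_product_right]
  rw [e1, hXc] at hcon
  rw [e2, hXc] at hcount
  obtain ⟨b, hb, hlt⟩ : ∃ b ∈ V, η / 2 * (U.card : ℝ) < (O b).card - η / 2 * (g b / Y) := by
    refine exists_lt_of_sum_lt ?_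
    rw [sum_const, nsmul_eq_mul, sum_sub_distrib, ← mul_sum, ← sum_div]
    have h1 : (∑ b ∈ V, g b) / Y ≤ U.card * V.card := by
      rw [div_le_iff₀ hY]
      exact hcount
    have h2 := mul_le_mul_of_nonneg_left h1 (by positivity : 0 ≤ η / 2)
    linarith
  have hf1 : η / 2 * (U.card : ℝ) < (O b).card := by
    have : 0 ≤ η / 2 * (g b / Y) := by
      have := hg0 b
      positivity
    linarith
  have hOc0 : (0 : ℝ) < (O b).card := lt_of_le_of_lt (by positivity) hf1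
  have hOn : (O b).Nonempty := card_pos.1 (by exact_mod_cast hOc0)
  have hOU : O b ⊆ U := filter_subset _ _
  have hg1 : g b ≤ 2 / η * Y * U.card := by
    have h1 : ((O b).card : ℝ) ≤ U.card := by exact_mod_cast card_le_card hOU
    have h2 : η / 2 * (g b / Y) ≤ U.card := by
      have : 0 ≤ η / 2 * (U.card : ℝ) := by positivity
      linarith
    have h3 : g b = 2 / η * Y * (η / 2 * (g b / Y)) := by
      field_simp
    rw [h3]
    exact mul_le_mul_of_nonneg_left h2 (by positivity)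
  have hfl := flat_app π D hF hal hu hlam hρ hρ2 Q hQ P J hP U V (fun h => h0 (hUA h)) st hst0
    hR hO b hb
  change ((O b).card : ℝ) * ce (O b) (gq Q) (fun x => fun j : Fin J => fa x (P j)) ≤
    δ * (U.card * Real.log U.card + J * U.card) + 2 * ρ * J * U.card +
      Real.log (1 / ρ) * g b at hfl
  have hlow := fib_low hQ A (O b) h0 (hOU.trans hUA) hOn (τ := κ / 2 * a)
    (fun x hx => hfib x (hOU hx)) J P hPQ
  have hlogO : Real.log (η * κ / 4) + a ≤ Real.log (O b).card := by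
    rw [ha, ← Real.log_mul (by positivity) hAc0.ne']
    refine Real.log_le_log (by positivity) ?_
    have h1 := mul_le_mul_of_nonneg_left hUc (by positivity : 0 ≤ η / 2)
    have h2 : η * κ / 4 * (A.card : ℝ) = η / 2 * (κ / 2 * A.card) := by ring
    rw [h2]
    linarith
  rw [← ha] at hlow
  have hce : κ / 2 * a + Real.log (η * κ / 4) ≤
      ce (O b) (gq Q) (fun x => fun j : Fin J => fa x (P j)) := by linarith
  have h1 : η / 2 * U.card * (κ / 2 * a + Real.log (η * κ / 4)) ≤ (O b).card *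
      ce (O b) (gq Q) (fun x => fun j : Fin J => fa x (P j)) :=
    mul_le_mul hf1.le hce hR0 hOc0.le
  have hlu : Real.log U.card ≤ a := by
    rw [ha]
    exact Real.log_le_log hUc0 (by exact_mod_cast card_le_card hUA)
  have h2 : δ * (U.card * Real.log U.card + J * U.card) ≤ δ * (a + J) * U.card := by
    have h3 : (U.card : ℝ) * Real.log U.card + J * U.card ≤ (a + J) * U.card := by
      have := mul_le_mul_of_nonneg_left hlu hUc0.le
      linarith
    have := mul_le_mul_of_nonneg_left h3 hδ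
    linarith
  have h3 : Real.log (1 / ρ) * g b ≤ Real.log (1 / ρ) * (2 / η * Y) * U.card := by
    have := mul_le_mul_of_nonneg_left hg1 hlρ
    linarith
  have h4 := mul_lt_mul_of_pos_right hnum hUc0
  linarith

end Pool.Agent.T2H12.KH
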